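import Pool.Agent.H265Z.Num

/-!
# Numerical data in characteristic 31
-/

set_option autoImplicit false
set_option maxRecDepth 100000

namespace Pool.Agent.H265Z.CaseA

/-- data -/
def dmu : List ℕ :=
  [3, 3, 3, 3, 3, 3, 3, 3, 3, 3]

/-- data -/
def dp : List (List ℕ) :=
  [[9, 21, 15, 16, 22, 26, 24],
    [28, 18, 15, 14, 9, 6, 6],
    [30, 30, 30, 30, 30, 30, 30],
    [1, 0, 0, 0, 0, 0, 0],
    [0, 1, 0, 0, 0, 0, 0],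
    [0, 0, 1, 0, 0, 0, 0],
    [0, 0, 0, 1, 0, 0, 0],
    [0, 0, 0, 0, 1, 0, 0],
    [0, 0, 0, 0, 0, 1, 0],
    [0, 0, 0, 0, 0, 0, 1]]

/-- data -/
def dR : List (List ℕ) :=
  [[22, 15, 29],
    [15, 5, 25],
    [29, 26, 17],
    [10, 14, 17],
    [3, 12, 12],
    [1, 14, 13],
    [20, 28, 9],
    [9, 22, 22],
    [14, 17, 12],
    [4, 29, 8]]

/-- data -/
def dh : List (List ℕ) :=
  [[7, 1, 30, 1],
    [30, 28, 16, 1],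
    [26, 26, 13, 1],
    [17, 5, 5, 1],
    [28, 29, 21, 1],
    [13, 2, 26, 1],
    [14, 13, 19, 1],
    [20, 6, 5, 1],
    [7, 9, 24, 1],
    [6, 19, 11, 1]]

/-- data -/
def dH : List ℕ :=
  [30, 1, 30, 26, 23, 15, 2, 19, 12, 5, 3, 3, 22, 0, 14, 25, 22, 2, 22, 25, 21, 21, 0, 28, 17, 5, 18, 5, 10, 15, 1]

/-- data -/
def dHc : List (List ℕ) :=
  [[22, 28, 30, 18, 1, 18, 13, 21, 29, 11, 0, 20, 12, 10, 26, 4, 27, 11, 27, 24, 24, 8, 21, 12, 7, 25, 16, 1],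
    [1, 27, 29, 10, 4, 7, 20, 6, 18, 26, 27, 9, 6, 29, 4, 30, 12, 12, 9, 28, 20, 4, 26, 9, 4, 29, 30, 1],
    [25, 12, 16, 15, 12, 21, 19, 28, 17, 9, 3, 17, 13, 7, 15, 7, 29, 29, 0, 8, 6, 23, 19, 24, 8, 20, 2, 1],
    [20, 27, 8, 1, 19, 0, 20, 16, 12, 0, 3, 15, 27, 13, 21, 30, 22, 0, 4, 30, 4, 22, 7, 2, 8, 17, 10, 1],
    [21, 27, 26, 15, 8, 0, 19, 25, 9, 29, 20, 16, 18, 24, 28, 23, 16, 4, 27, 7, 3, 18, 1, 24, 12, 14, 25, 1],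
    [19, 21, 4, 8, 10, 0, 1, 22, 17, 30, 10, 28, 18, 12, 4, 26, 15, 29, 1, 7, 13, 7, 1, 18, 27, 15, 20, 1],
    [11, 12, 27, 4, 18, 8, 30, 30, 7, 13, 23, 5, 29, 20, 18, 9, 5, 13, 2, 24, 11, 25, 0, 16, 20, 11, 27, 1],
    [17, 12, 20, 24, 24, 16, 16, 8, 12, 14, 22, 22, 10, 9, 13, 7, 17, 5, 26, 27, 11, 30, 21, 1, 0, 16, 10, 1],
    [22, 25, 3, 4, 2, 12, 4, 27, 18, 4, 5, 22, 28, 3, 23, 4, 25, 22, 17, 9, 23, 11, 12, 14, 17, 0, 22, 1],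
    [5, 5, 11, 6, 0, 0, 20, 7, 0, 26, 10, 9, 30, 16, 14, 3, 2, 12, 8, 3, 29, 3, 4, 23, 10, 9, 4, 1]]

/-- data -/
def df : List (List ℕ) :=
  [[4, 16, 6, 6, 29, 24, 20, 16, 30, 17, 19, 5, 13, 18, 22, 20, 3, 25, 28, 17, 15, 27],
    [7, 14, 20, 10, 2, 23, 26, 23, 18, 28, 12, 16, 0, 7, 28, 16, 17, 28, 4, 19, 7, 19],
    [21, 6, 1, 14, 10, 26, 25, 19, 23, 29, 22, 2, 6, 17, 18, 17, 1, 17, 26, 13, 0, 11],
    [9, 28, 4, 7, 10, 17, 7, 15, 8, 20, 0, 20, 23, 6, 20, 30, 8, 4, 21, 11, 25, 11],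
    [12, 23, 19, 28, 21, 24, 16, 2, 26, 24, 2, 10, 15, 11, 20, 20, 30, 3, 30, 2, 13, 23],
    [12, 29, 28, 13, 27, 7, 1, 27, 0, 19, 4, 16, 12, 29, 30, 1, 9, 14, 9, 20, 24, 27],
    [27, 27, 27, 21, 3, 16, 22, 12, 13, 21, 13, 17, 7, 29, 18, 16, 23, 7, 5, 29, 21, 19]]

/-- data -/
def dG : List (List (List ℕ)) :=
  [[[16, 6, 21, 17, 20, 5, 21, 18, 30, 5, 30, 9, 23, 25, 12, 6, 12, 12, 9, 30, 19, 10, 19, 25, 12, 16, 18], [6, 24, 10, 24, 3, 18, 19, 13, 1, 20, 26, 5, 22, 22, 4, 5, 0, 18, 8, 8, 3, 13, 3, 17, 28, 27, 11], [11, 27, 1, 3, 5, 19, 23, 17, 30, 20, 12, 27, 14, 15, 13, 29, 21, 23, 12, 19, 11, 27, 11, 21, 20, 6, 30], [11, 19, 14, 19, 8, 4, 8, 7, 12, 11, 7, 25, 12, 7, 21, 21, 28, 24, 10, 12, 20, 4, 20, 10, 11, 25, 1], [4, 10, 23, 12, 18, 12, 14, 12, 25, 10, 1, 14, 11, 13, 30, 12, 4, 4, 10, 1, 12, 21, 12, 6, 19, 15,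 13], [2, 2, 0, 17, 3, 14, 11, 9, 5, 8, 0, 9, 8, 9, 1, 4, 0, 16, 6, 4, 17, 22, 17, 24, 14, 29, 21], [14, 9, 22, 23, 14, 30, 29, 23, 22, 14, 27, 8, 21, 13, 23, 13, 7, 22, 2, 18, 30, 6, 30, 15, 1, 22, 17]],
    [[13, 17, 9, 8, 21, 10, 12, 26, 19, 14, 11, 18, 18, 17, 5, 18, 21, 25, 6, 13, 25, 12, 3, 12, 22, 11, 13], [15, 5, 3, 21, 14, 18, 28, 7, 9, 17, 24, 13, 0, 28, 29, 0, 0, 27, 21, 15, 5, 21, 13, 21, 23, 27, 15], [18, 14, 25, 9, 6, 15, 19, 3, 11, 0, 21, 13, 10, 23, 17, 7, 27, 1, 23, 28, 30, 2, 16, 2, 14, 7, 28], [15, 25, 28, 16, 15, 16, 29, 9, 20, 16, 28, 1, 29, 1, 18, 13, 0, 8, 16, 22, 28, 6, 17, 6, 11, 21, 22], [30, 12, 14, 16, 25, 12, 1, 25, 28, 11, 3, 2, 12, 29, 27, 1, 20, 24, 24, 23, 18, 26, 22, 26, 27, 29, 23], [16, 27, 28, 2, 27, 21, 4, 3, 9, 4, 27, 9, 18, 12, 5, 17, 8, 10, 7, 5, 12, 7, 25, 7, 18, 9, 5], [1,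 12, 20, 11, 5, 28, 22, 23, 14, 15, 23, 15, 14, 23, 19, 8, 8, 11, 30, 5, 12, 7, 25, 7, 18, 9, 5]],
    [[3, 5, 28, 9, 12, 25, 29, 25, 1, 29, 14, 15, 18, 3, 5, 15, 9, 18, 20, 29, 3, 28, 2, 28, 26, 25, 17], [21, 6, 9, 21, 12, 3, 15, 30, 1, 6, 27, 2, 7, 16, 3, 6, 25, 21, 12, 29, 3, 28, 2, 28, 26, 25, 17], [12, 29, 16, 3, 14, 17, 9, 24, 18, 3, 9, 6, 4, 30, 15, 11, 20, 25, 4, 29, 3, 28, 2, 28, 26, 25, 17], [2, 16, 21, 7, 8, 30, 22, 1, 6, 3, 21, 19, 25, 4, 11, 11, 3, 19, 4, 29, 3, 28, 2, 28, 26, 25, 17], [20, 30, 26, 13, 28, 19, 10, 22, 10, 7, 25, 22, 10, 8, 12, 7, 6, 6, 16, 29, 3, 28, 2, 28, 26, 25, 17], [20, 4, 13, 11, 27, 28, 1, 12, 16, 30, 9, 11, 28, 29, 15, 4, 19, 27, 20, 29, 3, 28, 2, 28, 26, 25, 17], [17, 26, 2, 15, 16, 2, 26, 7, 10, 9, 24, 2, 17, 1, 15, 19, 8, 4, 12, 29, 3, 28, 2, 28, 26, 25, 17]],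
    [[14, 21, 27, 26, 5, 16, 1, 19, 24, 8, 6, 9, 23, 23, 1, 5, 15, 24, 2, 8, 22, 23, 2, 8, 17, 25, 14], [15, 11, 30, 15, 30, 21, 13, 6, 7, 8, 16, 19, 2, 17, 15, 6, 23, 5, 19], [14, 9, 17, 27, 9, 10, 18, 27, 24, 13, 18, 6, 29, 17, 20, 3, 16, 7, 11], [6, 9, 25, 1, 7, 30, 15, 0, 18, 26, 29, 4, 12, 14, 17, 12, 13, 1, 11], [8, 30, 10, 4, 30, 20, 17, 13, 28, 23, 19, 3, 4, 23, 4, 24, 25, 22, 23], [8, 3, 13, 12, 5, 22, 6, 4, 14, 21, 28, 24, 17, 19, 8, 13, 6, 13, 27], [18, 20, 5, 22, 2, 10, 22, 24, 14, 7, 26, 16, 15, 2, 17, 20, 25, 19, 19]],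
    [[9, 30, 10, 8, 3, 8, 22, 6, 29, 14, 24, 28, 5, 19, 14, 5, 7, 6, 27], [29, 25, 5, 2, 17, 6, 3, 15, 6, 20, 26, 11, 23, 11, 3, 19, 30, 27, 25, 28, 23, 3, 26, 8, 21, 2, 19], [24, 13, 4, 9, 23, 30, 22, 21, 8, 5, 11, 9, 19, 7, 22, 4, 19, 17, 11], [28, 3, 17, 27, 16, 13, 17, 18, 26, 25, 6, 18, 10, 16, 7, 18, 19, 11, 11], [27, 26, 0, 6, 8, 8, 6, 23, 0, 0, 7, 23, 8, 20, 23, 7, 29, 26, 23], [27, 24, 19, 5, 15, 29, 25, 17, 8, 2, 28, 3, 15, 21, 20, 4, 7, 15, 27], [22, 28, 23, 26, 28, 21, 18, 6, 11, 13, 4, 14, 0, 7, 25, 27, 7, 25, 19]],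
    [[17, 1, 14, 26, 25, 26, 29, 12, 12, 9, 30, 15, 0, 12, 13, 28, 0, 26, 27], [22, 12, 1, 25, 22, 27, 2, 3, 2, 10, 19, 2, 11, 22, 10, 24, 26, 9, 19], [24, 20, 12, 3, 21, 16, 2, 22, 22, 17, 13, 3, 17, 3, 7, 8, 23, 6, 25, 10, 10, 25, 12, 19, 25, 2, 18], [15, 7, 5, 18, 28, 25, 18, 13, 6, 9, 19, 4, 3, 12, 22, 20, 17, 18, 11], [20, 13, 0, 8, 28, 3, 30, 16, 18, 22, 12, 6, 27, 10, 29, 6, 7, 4, 23], [20, 23, 23, 0, 2, 8, 2, 19, 2, 25, 22, 24, 30, 29, 29, 14, 17, 4, 27], [14, 19, 26, 11, 19, 22, 0, 27, 19, 21, 3, 17, 7, 17, 24, 25, 13, 23, 19]],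
    [[18, 11, 30, 25, 6, 11, 30, 0, 16, 13, 3, 12, 18, 19, 14, 30, 14, 29, 27], [16, 26, 22, 28, 0, 13, 21, 11, 17, 3, 3, 13, 8, 4, 2, 11, 19, 18, 19], [17, 9, 24, 14, 1, 9, 11, 1, 25, 21, 30, 4, 1, 6, 14, 11, 28, 8, 11], [27, 2, 25, 27, 30, 20, 15, 27, 15, 2, 21, 3, 28, 23, 28, 3, 10, 17, 24, 21, 23, 20, 9, 28, 26, 24, 22], [23, 29, 3, 18, 3, 23, 1, 1, 9, 3, 5, 29, 7, 21, 8, 27, 9, 10, 23], [23, 25, 14, 21, 17, 15, 28, 23, 6, 29, 30, 11, 1, 4, 14, 17, 1, 7, 27], [13, 12, 13, 1, 14, 8, 26, 18, 17, 17, 25, 29, 27, 20, 6, 13, 11, 1, 19]],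
    [[25, 15, 19, 2, 0, 23, 25, 17, 20, 25, 0, 24, 17, 27, 17, 10, 21, 4, 27], [5, 24, 22, 14, 14, 28, 29, 8, 10, 12, 22, 0, 28, 11, 19, 8, 4, 5, 19], [15, 2, 5, 15, 21, 22, 15, 24, 17, 2, 9, 10, 12, 16, 5, 18, 5, 7, 11], [2, 7, 10, 11, 30, 1, 23, 20, 1, 24, 21, 15, 15, 22, 24, 2, 2, 1, 11], [10, 19, 3, 19, 29, 2, 9, 14, 11, 23, 21, 19, 21, 5, 27, 2, 3, 23, 9, 15, 7, 0, 22, 14, 25, 23, 9], [13, 27, 4, 6, 22, 6, 25, 30, 17, 15, 7, 22, 7, 9, 13, 23, 10, 13, 27], [6, 29, 2, 27, 18, 18, 10, 17, 3, 14, 15, 2, 17, 23, 16, 8, 6, 19, 19]],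
    [[5, 18, 27, 10, 29, 21, 30, 16, 24, 1, 1, 28, 11, 3, 24, 0, 24, 18, 27], [1, 14, 8, 5, 22, 1, 6, 20, 27, 15, 11, 17, 18, 11, 1, 5, 22, 16, 19], [3, 28, 7, 25, 21, 14, 3, 1, 3, 23, 3, 19, 16, 27, 21, 9, 19, 15, 11], [19, 15, 18, 30, 23, 18, 1, 20, 27, 19, 13, 19, 29, 25, 28, 29, 6, 9, 11], [15, 15, 25, 29, 24, 29, 7, 8, 14, 19, 2, 7, 19, 6, 22, 0, 21, 19, 23], [2, 0, 30, 20, 7, 3, 13, 20, 29, 14, 29, 27, 0, 26, 3, 2, 14, 29, 29, 24, 20, 11, 23, 0, 17, 7, 19], [26, 28, 16, 20, 0, 20, 10, 0, 9, 21, 6, 10, 0, 0, 10, 16, 6, 30, 19]],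
    [[11, 4, 25, 16, 11, 8, 12, 5, 2, 6, 21, 16, 5, 6, 9, 25, 2, 28, 27], [27, 15, 20, 20, 27, 23, 13, 9, 14, 14, 8, 1, 16, 30, 30, 5, 20, 15, 19], [19, 8, 2, 4, 15, 6, 19, 7, 13, 20, 29, 4, 30, 30, 28, 4, 19, 3, 11], [17, 18, 21, 28, 11, 1, 30, 2, 7, 19, 30, 17, 21, 12, 17, 29, 21, 28, 11], [2, 13, 10, 16, 15, 3, 25, 1, 22, 11, 18, 19, 16, 27, 30, 6, 4, 8, 23], [2, 14, 29, 29, 7, 14, 26, 9, 30, 1, 3, 7, 0, 7, 23, 23, 30, 6, 27], [27, 0, 15, 22, 25, 7, 22, 0, 19, 6, 2, 7, 6, 22, 27, 7, 18, 24, 21, 0, 25, 12, 5, 2, 4, 27, 23]]]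

/-- data -/
def du : List (List ℕ) :=
  [[1, 10, 0, 2, 9, 12, 13, 14, 6, 25, 19, 26, 23, 28, 10, 2, 5, 22, 14, 0, 2, 13, 7, 6, 15, 13, 29, 6, 21],
    [20, 3, 9, 11, 23, 22, 3, 18, 20, 21, 12, 26, 26, 18, 12, 21, 14, 27, 19, 18, 16, 0, 1, 11, 9, 24, 20, 30, 20],
    [17, 13, 21, 25, 7, 6, 12, 9, 15, 2, 1, 22, 11, 25, 25, 18, 27, 8, 10, 6, 8, 11, 10, 19, 5, 28, 2, 16, 13],
    [26, 4, 2, 26, 11, 10, 2, 13, 23, 6, 19, 15, 14, 15, 27, 2, 20, 21, 8, 27, 20, 25, 21, 14, 26, 12, 11, 28, 11],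
    [6, 7, 0, 30, 15, 6, 25, 19, 28, 24, 15, 11, 4, 19, 19, 30, 25, 25, 12, 19, 29, 7, 16, 29, 5, 27, 21, 30, 16],
    [18, 4, 10, 25, 22, 23, 17, 20, 15, 4, 8, 23, 13, 16, 6, 28, 14, 24, 5, 1, 6, 26, 8, 0, 7, 5, 6, 24],
    [11, 25, 25, 27, 7, 16, 23, 29, 10, 27, 26, 25, 8, 29, 26, 24, 13, 1, 26, 18, 21, 22, 5, 27, 18, 24, 30, 2],
    [1, 18, 13, 22, 5, 19, 14, 3, 23, 24, 12, 4, 21, 20, 13, 20, 18, 26, 16, 1, 26, 1, 18, 30, 26, 21, 28, 29, 29],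
    [24, 1, 6, 26, 1, 21, 18, 0, 16, 17, 15, 29, 30, 7, 16, 13, 6, 1, 10, 14, 7, 5, 2, 27, 11, 3, 13, 8, 3],
    [9, 20, 11, 0, 28, 20, 14, 10, 4, 22, 11, 6, 27, 23, 23, 22, 14, 21, 1, 25, 4, 15, 11, 30, 20, 14, 10, 18, 29]]

/-- data -/
def dv : List (List ℕ) :=
  [[16, 4, 26],
    [20, 30, 24],
    [2, 27, 12],
    [15, 21, 3],
    [19, 30, 9],
    [22, 22],
    [11, 17],
    [25, 8, 17],
    [6, 5, 23],
    [2, 17, 8]]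

/-- data -/
def dRd0 : List (List (List ℕ)) :=
  [[[28, 18, 12], [17, 14, 9], [24, 2, 1], [21, 24, 13], [6, 14, 21], [12, 10, 27], [22, 8, 24], [0, 21, 28], [12, 28, 7], [20, 16]],
    [[6, 17, 5], [9, 17, 5], [2, 22, 26], [7, 11, 27], [8, 30, 17], [6, 10], [17, 29], [5, 1, 26], [7, 5, 21], [13, 28]],
    [[24, 25, 7], [21, 4, 30], [23, 9, 7], [29, 2, 3], [7, 1, 2], [2, 18, 10], [15, 21, 2], [6, 20, 17], [28, 29, 17], [9, 6]],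
    [[20, 3, 30], [12, 15, 8], [4, 24, 24], [3, 10, 26], [7, 13, 25], [6, 9, 12], [22, 24, 21], [4, 6, 5], [13, 13, 2], [0, 24]],
    [[3, 14, 2], [23, 12, 16], [29, 2, 20], [10, 1, 19], [9, 14], [26, 28, 29], [16, 18, 12], [27, 19, 18], [19, 10, 27], [12, 29]],
    [[5, 7, 2], [5, 19, 11], [30, 0, 21], [15, 17, 5], [18, 0, 29], [22, 15, 12], [26, 29, 21], [7, 19, 2], [11, 16, 27], [14, 16]],
    [[25, 2, 13], [7, 12, 5], [13, 23, 1], [17, 24, 23], [29, 6, 10], [3, 30, 10], [23, 0, 2], [12, 15, 11], [24, 4, 5], [6, 21]],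
    [[26, 21, 18], [30, 27, 7], [28, 19, 9], [9, 21, 24], [30, 9, 1], [19, 26, 6], [15, 17, 26], [5, 16, 15], [20, 25, 26], [14, 4]]]

/-- data -/
def dRd1 : List (List (List ℕ)) :=
  [[[2, 29, 30], [25, 4, 11], [16, 9, 11], [2, 23, 22], [21, 19, 20], [22, 19, 16], [7, 18, 28], [28, 23, 27], [6, 15, 2], [17, 14]],
    [[4, 12, 16], [20, 14, 12], [8, 6, 22], [25, 5, 7], [29, 13, 28], [26, 10, 5], [22, 28, 1], [8, 10, 27], [8, 16, 30], [15, 11]],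
    [[27, 2, 23], [8, 30, 18], [2, 30, 9], [5, 25, 11], [25, 12, 8], [28, 12, 14], [16, 27, 9], [12, 5, 23], [4, 26, 16], [11, 9]],
    [[21, 21, 29], [21, 19, 4], [12, 1, 7], [18, 6, 6], [11, 23, 8], [21, 2, 8], [17, 13, 14], [13, 23, 15], [6, 20, 4], [24, 21]],
    [[19, 21, 20], [23, 22, 2], [30, 9, 27], [25, 23, 8], [20, 23, 5], [9, 2, 7], [9, 27, 20], [22, 20, 3], [16, 30, 22], [21, 13]],
    [[18, 18, 16], [18, 3, 30], [28, 23, 6], [11, 14, 14], [4, 23, 29], [18, 15, 29], [19, 20, 12], [20, 2, 4], [14, 26, 30], [25, 18]],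
    [[18, 3, 3], [19, 9, 20], [4, 11, 6], [1, 4, 8], [0, 14, 17], [0, 18, 2], [27, 12, 19], [3, 28, 8], [10, 12, 25], [6, 1]],
    [[11, 7, 7], [3, 21, 26], [30, 5, 14], [23, 30, 29], [8, 26, 20], [0, 11, 15], [1, 28, 3], [7, 24, 29], [13, 28, 17], [14, 23]]]

/-- data -/
def dRd2 : List (List (List ℕ)) :=
  [[[13, 15, 25], [12, 18, 18], [0, 25, 26], [8, 9, 10], [11, 25, 14], [17, 14, 1], [4, 22, 25], [4, 8, 27], [21, 28, 12], [3, 1]],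
    [[17, 26, 10], [19, 12, 9], [7, 11, 15], [18, 26, 14], [29, 25, 15], [5, 12, 9], [24, 3, 8], [28, 14, 24], [16, 12, 11], [17, 16]],
    [[13, 8, 20], [8, 6, 19], [11, 26, 5], [27, 30, 6], [20, 17, 18], [5, 2, 9], [26, 20, 8], [19, 3, 14], [19, 21, 22], [29, 20]],
    [[18, 11, 29], [25, 0, 27], [30, 20, 21], [10, 6, 27], [22, 18, 11], [9, 20, 18], [25, 12, 16], [20, 15, 8], [13, 29, 4], [20, 17]],
    [[5, 26, 21], [8, 29, 18], [5, 4, 23], [18, 0, 12], [30, 14, 2], [3, 4, 27], [2, 3, 24], [27, 24, 19], [5, 0, 20], [3, 1]],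
    [[14, 11, 12], [11, 16, 30], [19, 28, 3], [10, 18, 16], [12, 4, 17], [29, 18, 24], [28, 12, 11], [30, 8, 27], [30, 25, 7], [5, 12]],
    [[26, 27, 8], [9, 22, 1], [18, 15, 12], [2, 27, 5], [17, 20, 12], [3, 11, 1], [13, 21, 25], [10, 5, 13], [19, 22, 15], [26, 19]],
    [[29, 25, 16], [25, 11, 9], [15, 27, 4], [3, 24, 11], [16, 26, 2], [24, 14, 2], [27, 16, 25], [9, 21, 5], [9, 23, 30], [17, 16]]]

/-- data -/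
def dRd3 : List (List (List ℕ)) :=
  [[[9, 23, 18], [4, 5, 22], [4, 5, 6], [27, 1, 3], [9, 15, 7], [17, 16, 26], [11, 5, 30], [25, 30, 1], [24, 13, 26], [21, 14]],
    [[1, 3, 3], [5, 10, 27], [10, 21, 17], [26, 7, 9], [15, 15, 26], [17, 9, 1], [9, 22, 25], [2, 30, 18], [10, 19, 25], [17, 6]],
    [[14, 15, 20], [18, 8, 10], [9, 13, 13], [13, 5, 18], [26, 20, 2], [2, 5, 28], [15, 5, 18], [21, 9, 10], [20, 21, 22], [29]],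
    [[10, 26, 21], [9, 15, 18], [14, 26, 23], [22, 8, 12], [24, 30, 2], [3, 25, 27], [11, 1, 24], [27, 29, 19], [3, 1, 20], [7, 20]],
    [[0, 21, 24], [6, 20, 21], [2, 5, 20], [25, 0, 22], [26, 10, 6], [1, 8, 27], [29, 1, 24], [2, 20, 16], [21, 8, 14], [11, 24]],
    [[28, 8, 6], [12, 29, 29], [10, 6, 8], [19, 10, 10], [10, 0, 11], [0, 9, 10], [17, 6, 2], [3, 0, 18], [18, 10, 19], [14, 28]],
    [[21, 16, 27], [3, 25, 24], [21, 15, 17], [28, 23, 1], [28, 21, 10], [30, 22, 27], [6, 6, 24], [8, 11, 13], [8, 15, 8], [15, 28]],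
    [[19, 21, 7], [5, 14, 12], [5, 14, 23], [26, 9, 27], [19, 11, 1], [29, 20, 17], [6, 30, 23], [8, 22, 9], [30, 24, 17], [3, 2]]]

/-- data -/
def dRd4 : List (List (List ℕ)) :=
  [[[5, 20, 26], [16, 21, 23], [2, 14, 18], [26, 28, 8], [25, 2, 19], [26, 3, 27], [25, 20, 24], [20, 16, 14], [14, 16, 10], [21, 30]],
    [[15, 19, 23], [3, 17, 25], [4, 2, 20], [10, 4, 12], [10, 17, 17], [14, 18, 13], [8, 11, 15], [15, 6, 2], [1, 18, 16], [12, 8]],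
    [[0, 19, 27], [8, 13, 3], [10, 14, 15], [30, 28, 29], [15, 7, 14], [10, 17, 30], [25, 28, 6], [18, 27, 14], [19, 26, 8], [7, 7]],
    [[7, 0, 25], [8, 6, 2], [22, 13, 23], [1, 26, 21], [8, 15, 20], [6, 17, 21], [21, 21, 29], [10, 27, 13], [4, 19, 12], [23, 17]],
    [[12, 10, 27], [10, 12, 12], [22, 18, 7], [21, 5, 17], [30, 28, 30], [30, 29, 11], [10, 23, 27], [21, 28, 18], [8, 5, 8], [24, 27]],
    [[20, 19, 1], [22, 8, 22], [2, 29, 1], [24, 27, 27], [29, 10, 18], [5, 8, 28], [23, 26, 18], [2, 0, 29], [26, 5, 29], [24, 29]],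
    [[11, 27, 4], [30, 30, 13], [1, 0, 19], [16, 0, 22], [22, 20, 11], [29, 25, 12], [0, 1, 21], [13, 5], [20, 9, 23], [6, 1]],
    [[19, 4, 19], [22, 9], [18, 7, 22], [6, 14, 6], [30, 0, 26], [10, 8, 16], [28, 27, 28], [20, 23, 8], [6, 6, 24], [4, 1]]]

/-- data -/
def dRd5 : List (List (List ℕ)) :=
  [[[25, 3, 26], [14, 25, 30], [5, 1, 29], [12, 26, 9], [1, 28, 28], [2, 21, 26], [3, 9, 30], [22, 17, 24], [12, 5, 10], [29, 8]],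
    [[20, 10, 5], [21, 28, 25], [26, 0, 22], [10, 9, 21], [30, 30, 25], [27, 12, 6], [27, 26, 26], [7, 20, 28], [20, 5, 21], [6, 20]],
    [[26, 27, 19], [23, 11, 27], [12, 23, 29], [17, 27, 1], [21, 22, 12], [7, 11, 21], [30, 11, 29], [24, 28, 19], [13, 19, 24], [28, 7]],
    [[24, 1, 15], [4, 23], [16, 24, 19], [0, 30, 8], [28, 25, 14], [2, 22, 11], [26, 19, 27], [4, 18, 30], [15, 9, 1], [21, 19]],
    [[29, 11, 8], [23, 2, 26], [23, 2, 7], [29, 10, 13], [17, 9, 22], [2, 17, 24], [4, 0, 11], [1, 13], [14, 3, 15], [30, 26]],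
    [[14, 22, 18], [5, 7, 26], [13, 18, 30], [29, 30, 8], [15, 5, 21], [24, 11, 21], [11, 23, 29], [14, 25, 20], [9, 8, 26], [13, 18]],
    [[17, 22, 8], [24, 23, 1], [23, 10, 12], [19, 11, 5], [17, 8, 12], [17, 2, 1], [27, 1, 25], [16, 30, 13], [16, 4, 15], [0, 2]],
    [[15, 21, 23], [25, 14, 14], [8, 10, 16], [18, 7, 6], [14, 5, 25], [5, 7, 19], [15, 17, 10], [6, 28, 4], [5, 19, 17], [18]]]

/-- data -/
def dRd6 : List (List (List ℕ)) :=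
  [[[18, 14, 28], [10, 16, 1], [27, 4, 27], [10, 15, 26], [30, 25, 10], [10, 20, 26], [20, 29, 30], [21, 13, 22], [26, 18, 6], [24, 26]],
    [[12, 23, 15], [18, 4, 24], [23, 4, 8], [13, 7, 7], [4, 7, 5], [19, 2, 12], [29, 29, 21], [24, 26, 20], [22, 26, 1], [28, 18]],
    [[10, 24, 12], [26, 21, 25], [9, 4, 4], [10, 27, 2], [15, 12, 15], [8, 19, 7], [18, 11, 20], [1, 10, 11], [8, 21, 7], [2, 21]],
    [[13, 26, 12], [12, 24, 19], [29, 5, 30], [16, 0, 10], [6, 2, 25], [5, 6, 30], [21, 6, 6], [24, 23, 29], [5, 23, 7], [10, 2]],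
    [[16, 14, 14], [1, 16, 15], [14, 3, 23], [4, 11, 4], [8, 17, 17], [17, 26, 22], [29, 2, 23], [22, 7, 14], [21, 10, 3], [15, 11]],
    [[22, 1, 3], [11, 5, 17], [10, 12, 19], [21, 23, 12], [17, 29, 22], [12, 22, 29], [8, 6, 12], [11, 7, 17], [18, 20, 25], [21, 16]],
    [[19, 9, 4], [26, 10, 18], [1, 3, 18], [28, 14, 5], [0, 14, 13], [17, 12, 29], [23, 0, 12], [18, 19, 16], [21, 13, 23], [9, 22]],
    [[7, 12, 8], [26, 18, 3], [17, 14, 23], [29, 30, 22], [8, 20, 18], [24, 2, 13], [11, 6, 8], [10, 12, 6], [9, 30, 14], [17, 30]]]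

/-- data -/
def dRd : List (List (List (List ℕ))) :=
  [dRd0, dRd1, dRd2, dRd3, dRd4, dRd5, dRd6]

/-- data -/
def dhd0 : List (List (List ℕ)) :=
  [[[23, 28, 12], [20, 22, 16], [27, 8, 29], [19, 27, 29], [24, 21, 6], [5, 18, 11], [1, 20, 8], [28, 28, 28], [16, 7, 27], []],
    [[15, 12, 19], [30, 2, 21], [10, 26, 26], [17, 26, 16], [2, 26, 21], [5, 16, 15], [24, 12, 20], [0, 24, 27], [18, 28, 10], []],
    [[7, 25, 30], [17, 28, 10], [22, 5, 30], [5, 2, 3], [23, 19, 4], [9, 30, 6], [17, 14, 4], [23, 27, 12], [25, 13, 22], []],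
    [[5, 0, 4], [26, 10, 6], [20, 3, 2], [17, 29, 18], [4, 26, 5], [20, 27, 10], [10, 24, 23], [9, 22, 12], [16, 20, 20], []],
    [[15, 23, 28], [17, 28, 16], [21, 8, 3], [11, 9, 24], [29, 30, 11], [14, 21, 9], [3, 19, 19], [14, 1, 11], [6, 9, 21], []],
    [[14, 1, 3], [13, 5], [26, 0, 30], [14, 28, 1], [30, 23, 30], [23, 18, 19], [12, 25, 4], [9, 24, 22], [2, 12, 26], []],
    [[25, 27, 28], [22, 18, 29], [3, 30, 24], [13, 12, 15], [13, 13, 23], [15, 12, 24], [21, 16, 28], [23, 0, 1], [28, 28, 3], []],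
    [[27, 1, 1], [0, 0, 28], [16, 14, 29], [17, 6, 15], [28, 10, 12], [13, 20, 14], [7, 13, 8], [20, 13, 16], [25, 2, 16], []]]

/-- data -/
def dhd1 : List (List (List ℕ)) :=
  [[[4, 21, 27], [15, 25, 2], [21, 24, 25], [15, 22, 21], [5, 14, 20], [9, 7, 25], [23, 22, 19], [22, 9, 27], [2, 16, 2], []],
    [[7, 30, 3], [21, 8, 26], [3, 16, 1], [22, 18, 23], [2, 14, 24], [26, 22, 6], [18, 16, 12], [16, 26, 30], [11, 27, 21], []],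
    [[27, 6, 26], [6, 25, 1], [21, 18, 22], [2, 29, 3], [17, 26, 25], [12, 16, 2], [4, 6, 4], [6, 12, 11], [30, 19, 21], []],
    [[20, 3, 14], [6, 5, 9], [29, 13, 6], [28, 0, 4], [8, 30, 17], [7, 17, 23], [13, 18, 15], [18, 7, 19], [20, 27, 23], []],
    [[20, 30, 5], [27, 24, 12], [9, 24, 22], [14, 20, 28], [7, 23], [28, 9, 19], [9, 15, 7], [15, 28, 26], [21, 0, 15], []],
    [[26, 7, 12], [14, 22, 21], [16, 20, 14], [24, 0, 30], [14, 17, 13], [6, 19, 2], [20, 11, 4], [11, 6, 3], [26, 1, 2], []],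
    [[25, 26, 23], [5, 11, 12], [8, 19, 27], [16, 5, 11], [10, 18, 6], [14, 27, 20], [23, 14, 9], [14, 14, 10], [2, 27, 19], []],
    [[17, 9, 2], [22, 5, 28], [29, 3, 1], [27, 22, 5], [16, 11, 14], [12, 1, 26], [2, 12, 21], [12, 12, 13], [15, 1, 3], []]]

/-- data -/
def dhd2 : List (List (List ℕ)) :=
  [[[17, 17, 15], [23, 7, 6], [13, 12, 20], [11, 16, 25], [24, 17, 5], [3, 4, 27], [16, 21, 10], [2, 11, 1], [7, 19, 8], []],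
    [[2, 12, 26], [14, 16, 25], [19, 15, 9], [5, 27, 26], [20, 4, 17], [25, 12], [28, 25, 9], [6, 30, 3], [10, 28, 13], []],
    [[22, 20, 8], [10, 29, 4], [25, 15, 22], [0, 0, 23], [1, 3, 1], [24, 1, 18], [6, 11, 7], [8, 26, 4], [24, 26, 28], []],
    [[22, 25, 11], [12, 22, 28], [0, 30, 8], [21, 8, 9], [26, 4, 1], [0, 4, 8], [30, 25, 10], [20, 13, 10], [14, 17, 24], []],
    [[19, 4, 26], [27, 27, 4], [2, 14, 6], [4, 3, 28], [12, 16, 22], [21, 19, 25], [17, 7, 4], [10, 13, 5], [5, 30, 10], []],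
    [[7, 12, 11], [6, 5, 21], [15, 9, 7], [0, 0, 20], [13, 8, 13], [29, 26, 14], [16, 19, 29], [11, 28, 21], [2, 28, 23], []],
    [[14, 22, 27], [5, 19, 20], [9, 12, 1], [4, 3, 27], [16, 28, 26], [22, 21, 11], [10, 20, 1], [11, 24, 21], [8, 10, 29], []],
    [[30, 16, 25], [8, 17, 28], [20, 12, 30], [0, 0, 6], [7, 21, 7], [25, 18, 25], [11, 15, 18], [25, 27, 28], [13, 27, 10], []]]

/-- data -/
def dhd3 : List (List (List ℕ)) :=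
  [[[22, 16, 2], [18, 16, 30], [23, 21, 14], [14, 15, 27], [11, 18, 24], [17, 13, 16], [8, 28, 9], [15, 20, 30], [9, 23, 20], []],
    [[25, 7, 30], [17, 3, 6], [8, 26, 20], [24, 12, 25], [18, 20, 10], [3, 13, 12], [27, 4, 26], [8, 9, 6], [20, 22, 6], []],
    [[26, 21, 6], [1, 22, 15], [6, 19, 12], [11, 13, 21], [0, 8, 20], [21, 7, 12], [29, 6], [14, 1, 15], [17, 18, 25], []],
    [[16, 23, 1], [4, 19, 5], [0, 16, 3], [7, 27, 21], [29, 7, 3], [20, 26, 28], [26, 5, 8], [23, 29, 5], [29, 14, 26], []],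
    [[4, 22, 12], [19, 19, 2], [17, 10, 19], [22, 0, 1], [10, 29, 21], [6, 19, 18], [28, 16, 1], [28, 18, 2], [22, 12, 8], []],
    [[5, 16, 26], [19, 30, 22], [6, 29, 10], [27, 26, 7], [22, 24, 18], [18, 0, 14], [23, 11, 27], [9, 23, 22], [8, 19, 18], []],
    [[23, 21, 23], [3, 19, 30], [3, 4, 4], [6, 4, 12], [22, 20, 8], [23, 12, 8], [26, 26, 22], [2, 7, 30], [15, 10, 21], []],
    [[12, 20, 18], [7, 20, 22], [21, 3, 2], [2, 11, 26], [6, 7, 30], [29, 24, 20], [3, 12, 10], [11, 25, 22], [19, 21, 25], []]]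

/-- data -/
def dhd4 : List (List (List ℕ)) :=
  [[[9, 13, 1], [25, 16, 2], [23, 21, 23], [6, 21, 14], [10, 15, 23], [18, 24, 15], [15, 7, 28], [18, 8, 18], [2, 11, 23], []],
    [[22, 30, 2], [30, 30, 30], [26, 20, 2], [9, 12, 23], [19, 23, 20], [14, 9, 17], [2, 23, 16], [0, 22], [13, 17, 23], []],
    [[25, 14, 5], [8, 28, 4], [29, 29, 25], [14, 7, 2], [24, 17, 28], [14, 5, 16], [29, 21, 30], [20, 11, 1], [27, 18, 13], []],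
    [[11, 24, 11], [2, 3, 8], [11, 2, 12], [8, 23, 16], [8, 9, 19], [0, 6, 17], [6, 3, 10], [25, 13, 23], [10, 14, 15], []],
    [[15, 28, 11], [13, 1, 3], [22, 11, 30], [5, 24, 11], [7, 2, 24], [9, 29, 4], [9, 12, 1], [2, 3, 15], [19, 9, 23], []],
    [[21, 25, 1], [27, 10, 18], [25, 17, 15], [28, 24, 30], [7, 25, 7], [14, 0, 7], [24, 3, 1], [8, 6, 3], [29, 27, 16], []],
    [[2, 4, 16], [25, 17, 8], [24, 1, 8], [1, 6, 14], [25, 8, 20], [15, 17, 4], [25, 25, 8], [10, 16, 26], [7, 28, 22], []],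
    [[23, 28, 9], [19, 18, 13], [1, 12, 8], [20, 4, 28], [27, 4, 26], [16, 22, 29], [14, 10, 26], [28, 23, 8], [27, 1, 29], []]]

/-- data -/
def dhd5 : List (List (List ℕ)) :=
  [[[8, 3, 23], [24, 30, 15], [17, 12, 4], [28, 3, 27], [4, 7, 21], [23, 15, 14], [8, 10, 21], [29, 17, 6], [24, 16], []],
    [[24, 17, 19], [8, 28, 6], [5, 23, 13], [21, 16, 24], [1, 14, 16], [26, 7, 9], [12, 9, 3], [8, 12, 5], [6, 29, 25], []],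
    [[15, 10, 9], [10, 2, 16], [29, 12, 25], [4, 8, 18], [1, 3, 19], [23, 18, 30], [22, 0, 24], [1, 12, 24], [5, 20, 5], []],
    [[3, 4, 11], [17, 19, 26], [16, 10, 13], [30, 8, 25], [30, 19, 6], [14, 22, 21], [20, 18, 27], [13, 19], [28, 15, 19], []],
    [[28, 30, 9], [21, 12, 2], [21, 20, 30], [20, 14, 4], [24, 21, 19], [28, 18, 17], [22, 9, 28], [0, 9, 30], [28, 29, 13], []],
    [[30, 12, 6], [22, 4, 9], [11, 6, 18], [9, 9], [13, 13, 23], [27, 12], [25, 21, 15], [19, 1, 30], [12, 5, 23], []],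
    [[5, 4, 4], [29, 11, 15], [11, 21, 11], [9, 11, 9], [2, 3, 5], [17, 8, 15], [27, 6, 3], [17, 24, 25], [1, 9, 10], []],
    [[15, 24, 30], [22, 2, 2], [26, 28, 19], [10, 28, 19], [5, 14, 22], [2, 29, 11], [1, 2, 12], [10, 29, 9], [13, 1, 12], []]]

/-- data -/
def dhd6 : List (List (List ℕ)) :=
  [[[18, 29, 15], [30, 12, 9], [13, 14, 16], [27, 16, 9], [24, 22, 21], [19, 10, 9], [17, 16, 14], [22, 12, 22], [29, 23, 20], []],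
    [[8, 11, 16], [16, 24, 12], [20, 25, 23], [23, 27, 22], [17, 27, 11], [12, 24, 4], [22, 16, 17], [11, 15, 1], [27, 25], []],
    [[8, 27, 8], [18, 12, 17], [0, 9, 13], [14, 23, 13], [4, 5, 24], [20, 28, 18], [26, 12, 19], [1, 2, 1], [25, 17, 5], []],
    [[28, 19, 11], [20, 30, 25], [20, 29, 15], [6, 29, 11], [18, 29, 5], [29, 5, 21], [0, 25, 29], [17, 24, 5], [8, 30, 21], []],
    [[28, 0, 13], [6, 22, 24], [19, 18, 16], [0, 30, 30], [28, 5, 9], [27, 14, 17], [25, 21, 7], [2, 28, 9], [29, 30, 21], []],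
    [[13, 27, 23], [27, 7, 3], [7, 0, 8], [6, 6, 8], [5, 14, 24], [9, 19, 24], [27, 7, 4], [15, 3, 15], [3, 13], []],
    [[14, 4, 8], [0, 27, 17], [9, 5, 10], [10, 2, 11], [29, 2, 13], [13, 1, 14], [15, 13, 14], [22, 5, 26], [24, 27, 15], []],
    [[30, 27, 10], [14, 1, 27], [23, 11, 7], [7, 8, 6], [25, 22, 29], [30, 26, 1], [24, 28, 2], [24, 22, 27], [24, 21, 11], []]]

/-- data -/
def dhd : List (List (List (List ℕ))) :=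
  [dhd0, dhd1, dhd2, dhd3, dhd4, dhd5, dhd6]

/-- data -/
def dB1 : List (List (List ℕ)) :=
  [[[0, 10, 20, 9, 13, 23, 24], [0, 0, 27, 17, 3, 14, 13], [0, 0, 0, 3, 22, 26, 0], [0, 0, 0, 0, 24, 0, 0], [0, 0, 0, 0, 0, 0, 0], [0, 0, 0, 0, 0, 0, 0], [0, 0, 0, 0, 0, 0, 0]],
    [[0, 9, 26, 22, 1, 9, 15], [0, 0, 5, 7, 16, 4, 8], [0, 0, 0, 20, 20, 4, 8], [0, 0, 0, 0, 12, 0, 0], [0, 0, 0, 0, 0, 0, 0], [0, 0, 0, 0, 0, 0, 0], [0, 0, 0, 0, 0, 0, 0]],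
    [[0, 3, 22, 22, 14, 20, 17], [0, 0, 3, 18, 8, 4, 8], [0, 0, 0, 18, 9, 22, 27], [0, 0, 0, 0, 3, 0, 0], [0, 0, 0, 0, 0, 0, 0], [0, 0, 0, 0, 0, 0, 0], [0, 0, 0, 0, 0, 0, 0]],
    [[1, 19, 10, 28, 13, 10, 0], [0, 0, 13, 11, 28, 15, 27], [0, 0, 0, 30, 5, 9, 18], [0, 0, 0, 0, 11, 0, 0], [0, 0, 0, 0, 0, 0, 0], [0, 0, 0, 0, 0, 0, 0], [0, 0, 0, 0, 0, 0, 0]],
    [[0, 12, 10, 17, 10, 1, 19], [0, 1, 28, 19, 28, 21, 10], [0, 0, 0, 24, 11, 20, 6], [0, 0, 0, 0, 11, 0, 0], [0, 0, 0, 0, 0, 0, 0], [0, 0, 0, 0, 0, 0, 0], [0, 0, 0, 0, 0, 0, 0]],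
    [[0, 11, 28, 6, 25, 29, 19], [0, 0, 30, 10, 14, 18, 27], [0, 0, 1, 23, 1, 6, 11], [0, 0, 0, 0, 20, 0, 0], [0, 0, 0, 0, 0, 0, 0], [0, 0, 0, 0, 0, 0, 0], [0, 0, 0, 0, 0, 0, 0]],
    [[0, 28, 15, 20, 28, 16, 27], [0, 0, 22, 23, 26, 28, 4], [0, 0, 0, 24, 22, 6, 27], [0, 0, 0, 1, 24, 0, 0], [0, 0, 0, 0, 0, 0, 0], [0, 0, 0, 0, 0, 0, 0], [0, 0, 0, 0, 0, 0, 0]],
    [[0, 11, 26, 27, 5, 26, 5], [0, 0, 8, 7, 4, 24, 29], [0, 0, 0, 16, 13, 3, 21], [0, 0, 0, 0, 22, 0, 0], [0, 0, 0, 0, 1, 0, 0], [0, 0, 0, 0, 0, 0, 0], [0, 0, 0, 0, 0, 0, 0]],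
    [[0, 5, 20, 16, 14, 5, 27], [0, 0, 6, 3, 26, 9, 14], [0, 0, 0, 24, 18, 4, 5], [0, 0, 0, 0, 20, 0, 0], [0, 0, 0, 0, 0, 0, 0], [0, 0, 0, 0, 0, 1, 0], [0, 0, 0, 0, 0, 0, 0]],
    [[0, 7, 29, 7, 26, 2, 22], [0, 0, 13, 27, 16, 29, 15], [0, 0, 0, 1, 23, 20, 19], [0, 0, 0, 0, 22, 0, 0], [0, 0, 0, 0, 0, 0, 0], [0, 0, 0, 0, 0, 0, 0], [0, 0, 0, 0, 0, 0, 1]]]

/-- data -/
def dB2 : List (List (List ℕ)) :=
  [[[0, 16, 19, 16, 4, 7, 29], [0, 0, 10, 1, 2, 27, 24], [0, 0, 0, 23, 7, 22, 4], [0, 0, 0, 0, 6, 0, 0], [0, 0, 0, 0, 0, 0, 0], [0, 0, 0, 0, 0, 0, 0], [0, 0, 0, 0, 0, 0, 0]],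
    [[0, 8, 29, 4, 5, 7, 18], [0, 0, 21, 9, 27, 12, 21], [0, 0, 0, 29, 20, 4, 1], [0, 0, 0, 0, 2, 0, 0], [0, 0, 0, 0, 0, 0, 0], [0, 0, 0, 0, 0, 0, 0], [0, 0, 0, 0, 0, 0, 0]],
    [[0, 7, 29, 17, 16, 14, 10], [0, 0, 2, 5, 27, 7, 15], [0, 0, 0, 24, 10, 30, 13], [0, 0, 0, 0, 22, 0, 0], [0, 0, 0, 0, 0, 0, 0], [0, 0, 0, 0, 0, 0, 0], [0, 0, 0, 0, 0, 0, 0]],
    [[0, 10, 10, 23, 14, 13, 5], [0, 0, 21, 17, 3, 13, 21], [0, 0, 0, 15, 15, 22, 14], [0, 0, 0, 0, 1, 0, 0], [0, 0, 0, 0, 0, 0, 0], [0, 0, 0, 0, 0, 0, 0], [0, 0, 0, 0, 0, 0, 0]],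
    [[0, 29, 15, 22, 25, 28, 8], [0, 0, 19, 11, 9, 7, 6], [0, 0, 0, 21, 17, 9, 8], [0, 0, 0, 0, 14, 0, 0], [0, 0, 0, 0, 0, 0, 0], [0, 0, 0, 0, 0, 0, 0], [0, 0, 0, 0, 0, 0, 0]],
    [[0, 4, 15, 2, 29, 7, 5], [0, 0, 19, 8, 9, 6, 25], [0, 0, 0, 1, 15, 15, 26], [0, 0, 0, 0, 0, 0, 0], [0, 0, 0, 0, 0, 0, 0], [0, 0, 0, 0, 0, 0, 0], [0, 0, 0, 0, 0, 0, 0]],
    [[0, 15, 3, 6, 27, 4, 5], [0, 0, 20, 6, 7, 25, 12], [0, 0, 0, 0, 12, 29, 28], [0, 0, 0, 0, 18, 0, 0], [0, 0, 0, 0, 0, 0, 0], [0, 0, 0, 0, 0, 0, 0], [0, 0, 0, 0, 0, 0, 0]],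
    [[0, 20, 28, 25, 23, 13, 15], [0, 0, 16, 7, 4, 17, 5], [0, 0, 0, 14, 28, 12, 7], [0, 0, 0, 0, 14, 0, 0], [0, 0, 0, 0, 0, 0, 0], [0, 0, 0, 0, 0, 0, 0], [0, 0, 0, 0, 0, 0, 0]],
    [[0, 22, 2, 21, 17, 0, 16], [0, 0, 2, 3, 8, 30, 22], [0, 0, 0, 19, 0, 25, 20], [0, 0, 0, 0, 10, 0, 0], [0, 0, 0, 0, 0, 0, 0], [0, 0, 0, 0, 0, 0, 0], [0, 0, 0, 0, 0, 0, 0]],
    [[0, 4, 25, 5, 18, 14, 28], [0, 0, 7, 4, 8, 24, 7], [0, 0, 0, 22, 2, 25, 19], [0, 0, 0, 0, 5, 0, 0], [0, 0, 0, 0, 0, 0, 0], [0, 0, 0, 0, 0, 0, 0], [0, 0, 0, 0, 0, 0, 0]],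
    [[0, 1, 21, 20, 26, 17, 25], [0, 0, 12, 3, 29, 17, 25], [0, 0, 0, 4, 20, 7, 8], [0, 0, 0, 0, 13, 0, 0], [0, 0, 0, 0, 0, 0, 0], [0, 0, 0, 0, 0, 0, 0], [0, 0, 0, 0, 0, 0, 0]],
    [[0, 8, 13, 28, 16, 9, 22], [0, 0, 14, 3, 29, 18, 9], [0, 0, 0, 3, 11, 2, 27], [0, 0, 0, 0, 5, 0, 0], [0, 0, 0, 0, 0, 0, 0], [0, 0, 0, 0, 0, 0, 0], [0, 0, 0, 0, 0, 0, 0]],
    [[0, 27, 24, 14, 20, 6, 29], [0, 0, 6, 18, 16, 12, 4], [0, 0, 0, 1, 12, 9, 17], [0, 0, 0, 0, 2, 0, 0], [0, 0, 0, 0, 0, 0, 0], [0, 0, 0, 0, 0, 0, 0], [0, 0, 0, 0, 0, 0, 0]]]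

/-- the certificate -/
def Z : Cert where
  μ := g1 dmu
  p i := g1 (gl dp i)
  R := gl dR
  h := gl dh
  H := dH
  Hc := gl dHc
  f := gl df
  G i := gl (gl dG i)
  u := gl du
  v := gl dv
  Rd k d := gl (gl (gl dRd k) d)
  hd k d := gl (gl (gl dhd k) d)
  B1 i k := g1 (gl (gl dB1 i) k)
  B2 i k := g1 (gl (gl dB2 i) k)

lemma h1 : Z.c1 10 7 21 = true := by decide +kernel

lemma h2_0 : Z.c2 10 7 21 8 0 = true := by decide +kernel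

lemma h2_1 : Z.c2 10 7 21 8 1 = true := by decide +kernel

lemma h2_2 : Z.c2 10 7 21 8 2 = true := by decide +kernel

lemma h2_3 : Z.c2 10 7 21 8 3 = true := by decide +kernel

lemma h2_4 : Z.c2 10 7 21 8 4 = true := by decide +kernel

lemma h2_5 : Z.c2 10 7 21 8 5 = true := by decide +kernel

lemma h2_6 : Z.c2 10 7 21 8 6 = true := by decide +kernel

lemma h2 : ∀ k : Fin 7, Z.c2 10 7 21 8 k = true := by
  intro k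
  fin_cases k
  exacts [h2_0, h2_1, h2_2, h2_3, h2_4, h2_5, h2_6]

lemma h3 : Z.c3 10 7 30 12 = true := by decide +kernel

lemma h4 : Z.c4 10 21 4 (g1 [19, 8, 23, 11]) [24, 7, 9, 4] [0, 13, 7, 19, 1] [22, 20, 6, 15] [18, 20, 2] = true := by decide +kernel

lemma h5 : Z.c4 10 21 4 (g1 [25, 22, 30, 26]) [12, 15, 29, 5] [5, 24, 30, 30, 1] [12, 22, 18, 27] [21, 15, 20] = true := by decide +kernel

lemma h6 : bezL [11, 17, 6, 23] [25, 25, 30, 8] [0, 13, 7, 19, 1] [5, 24, 30, 30, 1] = true := by decide +kernel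

theorem general (j : ℕ) :
    GeneralBlowupHas (j + 6) (j + 10) (((21 + j * 4 : ℕ) : ℤ), fun i =>
      ((Sum.elim (fun _ : Fin j => 4) (fun i : Fin 10 => g1 dmu i) (finSumFinEquiv.symm i) : ℕ) : ℤ)) :=
  Z.general 8 5 21 4 12 h1 h2 h3 h4 h5 h6 (by decide) (by norm_num) (by norm_num) (by norm_num)
    (by decide) (by norm_num) (by norm_num) j

end Pool.Agent.H265Z.CaseA
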