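import Pool.Agent.H265Z.Num

/-!
# Numerical data in characteristic 31
-/

set_option autoImplicit false
set_option maxRecDepth 100000

namespace Pool.Agent.H265Z.CaseB

/-- data -/
def dmu : List ℕ :=
  [2, 2, 2, 2, 2, 2, 2, 2, 1]

/-- data -/
def dp : List (List ℕ) :=
  [[20, 16, 0, 12, 15],
    [11, 18, 13, 4, 14],
    [17, 22, 8, 0, 27],
    [24, 23, 22, 18, 19],
    [1, 0, 0, 0, 0],
    [0, 1, 0, 0, 0],
    [0, 0, 1, 0, 0],
    [0, 0, 0, 1, 0],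
    [0, 0, 0, 0, 1]]

/-- data -/
def dR : List (List ℕ) :=
  [[4, 9],
    [29, 30],
    [27, 22],
    [21, 8],
    [26, 9],
    [3, 12],
    [15, 2],
    [17, 0],
    [1]]

/-- data -/
def dh : List (List ℕ) :=
  [[5, 29, 1],
    [9, 11, 1],
    [13, 9, 1],
    [29, 27, 1],
    [20, 12, 1],
    [16, 12, 1],
    [6, 27, 1],
    [13, 8, 1],
    [8, 1]]

/-- data -/
def dH : List ℕ :=
  [10, 26, 18, 1, 2, 12, 25, 25, 18, 8, 19, 15, 23, 20, 3, 11, 19, 1]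

/-- data -/
def dHc : List (List ℕ) :=
  [[2, 6, 18, 0, 3, 16, 17, 21, 21, 12, 23, 16, 25, 17, 21, 1],
    [8, 0, 8, 11, 10, 12, 18, 7, 19, 1, 16, 13, 9, 7, 8, 1],
    [27, 0, 16, 20, 28, 11, 16, 21, 19, 24, 12, 22, 19, 1, 10, 1],
    [26, 28, 10, 9, 17, 11, 5, 14, 12, 10, 23, 29, 4, 12, 23, 1],
    [16, 1, 15, 22, 28, 23, 0, 28, 12, 29, 0, 21, 18, 0, 7, 1],
    [20, 6, 7, 8, 15, 20, 5, 14, 0, 19, 16, 11, 29, 4, 7, 1],
    [12, 2, 23, 10, 29, 30, 9, 0, 17, 23, 26, 16, 5, 4, 23, 1],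
    [27, 14, 5, 15, 12, 21, 0, 17, 10, 17, 26, 22, 22, 3, 11, 1],
    [9, 6, 17, 29, 16, 15, 9, 2, 2, 24, 11, 16, 28, 30, 16, 11, 1]]

/-- data -/
def df : List (List ℕ) :=
  [[12, 23, 12, 3, 19, 27, 14, 18, 26, 23, 26],
    [7, 15, 10, 9, 25, 6, 9, 1, 6, 16, 10],
    [22, 18, 1, 26, 24, 6, 2, 11, 9, 21, 20],
    [27, 3, 14, 8, 10, 14, 29, 27, 22, 1, 10],
    [16, 4, 17, 17, 29, 9, 16, 13, 4, 30, 11]]

/-- data -/
def dG : List (List (List ℕ)) :=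
  [[[20, 12, 20, 3, 15, 25, 5, 26, 20, 8, 29, 11, 27, 27, 6], [13, 4, 7, 0, 21, 16, 20, 3, 30, 25, 17, 15, 3, 3, 11], [23, 19, 28, 25, 3, 16, 0, 30, 20], [11, 22, 17, 12, 18, 0, 8, 4, 25, 11, 5, 19, 10, 10, 16], [4, 19, 29, 15, 1, 30, 30, 23, 22, 6, 14, 16, 28, 28, 20]],
    [[14, 9, 29, 4, 25, 17, 16, 30, 16, 26, 20, 24, 27, 20, 11], [19, 22, 11, 21, 0, 25, 1, 5, 19, 20, 13, 28, 16, 13, 18], [29, 16, 28, 24, 15, 15, 22, 12, 11, 11, 18, 3, 15, 18, 13], [17, 21, 19, 30, 14, 10, 28, 6, 12, 1, 27, 20, 7, 27, 4], [6, 9, 22, 0, 18, 25, 6, 17, 18, 19, 17, 8, 9, 17, 14]],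
    [[11, 21, 12, 9, 28, 9, 27, 25, 12, 14, 29, 11, 17, 4, 29], [14, 14, 22, 1, 12, 28, 13, 29, 1, 9, 12, 27, 22, 7, 12], [30, 30, 14, 11, 25, 19, 21, 25, 28, 23, 10, 7, 8, 11, 10], [14, 12, 6, 17, 10, 0, 11, 4, 10], [30, 24, 8, 18, 9, 26, 23, 25, 7, 4, 26, 12, 27, 10, 26]],
    [[5, 29, 16, 16, 15, 13, 12, 29, 25, 29, 17, 26, 13, 16, 25], [29, 21, 14, 18, 25, 7, 28, 6, 0, 11, 15, 12, 6, 5, 2], [12, 12, 28, 13, 14, 29, 25, 6, 1, 24, 13, 29, 30, 25, 10], [18, 12, 9, 18, 27, 27, 8, 14, 17, 14, 5, 4, 2, 12, 11], [2, 23, 24, 15, 13, 7, 20, 30, 27, 1, 7, 18, 9, 23, 3]],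
    [[17, 15, 8, 29, 19, 8, 28, 0, 12, 2, 19, 17, 18, 19, 22], [5, 21, 14, 22, 23, 4, 0, 20, 10], [29, 30, 24, 4, 10, 22, 5, 29, 20], [6, 26, 22, 20, 6, 24, 10, 5, 10], [7, 27, 6, 30, 25, 1, 16, 22, 11]],
    [[24, 28, 17, 7, 22, 8, 9, 21, 26], [18, 12, 6, 6, 15, 28, 15, 2, 1, 14, 29, 4, 28, 26, 19], [13, 3, 28, 25, 12, 15, 23, 29, 20], [23, 12, 4, 20, 28, 29, 19, 5, 10], [1, 15, 13, 2, 15, 26, 29, 22, 11]],
    [[2, 0, 12, 24, 12, 24, 6, 3, 26], [27, 5, 16, 1, 28, 4, 15, 25, 10], [15, 4, 30, 22, 5, 9, 4, 0, 10, 9, 28, 15, 3, 24, 29], [20, 19, 22, 18, 10, 6, 2, 10, 10], [13, 30, 0, 3, 12, 9, 17, 12, 11]],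
    [[20, 30, 0, 17, 22, 23, 21, 1, 26], [22, 21, 10, 12, 20, 23, 16, 29, 10], [16, 13, 29, 7, 12, 14, 24, 16, 20], [24, 22, 3, 18, 0, 8, 14, 4, 28, 8, 5, 20, 11, 14], [6, 30, 11, 28, 8, 27, 15, 4, 11]],
    [[17, 24, 14, 18, 4, 30, 29, 18, 1, 26], [28, 10, 0, 5, 18, 14, 11, 22, 29, 10], [26, 30, 8, 10, 25, 17, 2, 5, 16, 20], [15, 14, 0, 1, 5, 5, 3, 3, 14, 10], [28, 4, 15, 16, 19, 24, 25, 6, 15, 26, 20, 11, 30, 8, 28, 30]]]

/-- data -/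
def du : List (List ℕ) :=
  [[30, 15, 9, 29, 8, 7, 19, 28, 30, 22, 10, 7, 20, 20, 1],
    [23, 0, 8, 30, 29, 9, 27, 17, 27, 5, 4, 24, 20, 20, 19, 21],
    [4, 23, 29, 20, 6, 13, 23, 12, 12, 18, 3, 15, 26, 16, 5, 19],
    [27, 19, 28, 10, 5, 3, 8, 10, 21, 9, 24, 13, 25, 13, 9, 22],
    [3, 22, 13, 28, 1, 10, 24, 28, 26, 12, 15, 7, 30, 26, 1, 19],
    [26, 26, 0, 16, 23, 4, 2, 24, 15, 10, 17, 11, 8, 28, 4, 15],
    [18, 5, 9, 5, 22, 17, 2, 17, 30, 5, 26, 24, 0, 5, 11, 3],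
    [19, 19, 21, 26, 20, 26, 3, 29, 2, 16, 25, 10, 1, 1, 26],
    [23, 24, 26, 2, 12, 25, 12, 1, 14, 5, 17, 14, 10, 13, 30, 10]]

/-- data -/
def dv : List (List ℕ) :=
  [[24],
    [9, 21],
    [22, 9],
    [29, 5],
    [5, 22],
    [6, 22],
    [23, 14],
    [10, 24],
    [21]]

/-- data -/
def dRd0 : List (List (List ℕ)) :=
  [[[0, 23], [9, 1], [30, 16], [27, 22], [8], [17, 27], [0, 26], [4, 6], []],
    [[16, 26], [19, 13], [14, 27], [4, 18], [18, 27], [30, 16], [4, 25], [28, 25], []],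
    [[18, 16], [14, 25], [17, 22], [25, 16], [11, 11], [28, 23], [20, 15], [11, 9], []],
    [[8, 19], [26, 29], [0, 17], [5, 8], [2, 29], [10, 11], [2, 24], [11, 8], []],
    [[28, 1], [0, 7], [17, 20], [8, 26], [22, 24], [25, 29], [7, 14], [17, 19], []],
    [[12, 27], [0, 3], [25, 13], [30, 20], [14, 29], [24, 8], [3, 6], [25, 17], []]]

/-- data -/
def dRd1 : List (List (List ℕ)) :=
  [[[12, 14], [14, 8], [13, 18], [22, 26], [4, 4], [14, 2], [15, 17], [13, 14], []],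
    [[29, 25], [11, 24], [17], [20, 5], [27, 15], [23, 14], [5, 12], [10, 10], []],
    [[3, 11], [3, 15], [19, 4], [5, 17], [5, 7], [30, 5], [18, 19], [15, 29], []],
    [[11, 30], [11, 24], [18, 25], [8, 21], [8, 5], [20, 8], [4, 18], [24, 3], []],
    [[23, 14], [27, 11], [30, 14], [1, 5], [27, 16], [5, 23], [24, 7], [21, 8], []],
    [[3, 18], [17, 23], [12, 18], [19, 2], [17, 25], [26, 4], [22, 9], [27, 28], []]]

/-- data -/
def dRd2 : List (List (List ℕ)) :=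
  [[[28, 2], [2], [16, 25], [3, 20], [27, 16], [28, 12], [15, 11], [17, 19], []],
    [[1], [18, 20], [7, 3], [26, 12], [27, 30], [27, 11], [2, 10], [25, 14], []],
    [[12, 5], [15, 18], [6, 28], [3, 5], [5, 5], [23, 12], [8, 21], [3, 26], []],
    [[30, 13], [5, 29], [1, 1], [20, 11], [24, 8], [15, 18], [10, 24], [15, 26], []],
    [[18, 21], [13, 29], [3, 8], [1, 29], [8, 10], [3, 4], [16, 6], [21, 9], []],
    [[26, 8], [10, 16], [20, 28], [8, 9], [18, 26], [22, 1], [29, 22], [26, 19], []]]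

/-- data -/
def dRd3 : List (List (List ℕ)) :=
  [[[30, 15], [9, 27], [19, 17], [12, 11], [1, 28], [21, 11], [19, 15], [25, 10], []],
    [[24, 27], [27, 25], [10, 19], [1, 23], [26, 15], [], [22, 9], [21, 30], []],
    [[4, 1], [2, 12], [23, 24], [14, 15], [20, 10], [17, 11], [25, 4], [27, 11], []],
    [[10, 22], [9, 23], [17, 18], [7, 7], [26, 11], [5, 10], [4, 23], [3, 14], []],
    [[23, 9], [2, 24], [5, 23], [29, 29], [21, 19], [21, 18], [2, 13], [22, 18], []],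
    [[26, 7], [9, 11], [7, 10], [10, 26], [17, 30], [12, 19], [19, 11], [27, 25], []]]

/-- data -/
def dRd4 : List (List (List ℕ)) :=
  [[[14, 20], [24, 11], [28, 15], [18, 7], [23, 17], [14, 14], [8, 17], [22, 24], []],
    [[1, 15], [28, 23], [7, 6], [28, 10], [17, 4], [10, 7], [14, 22], [25, 13], []],
    [[15, 6], [22, 11], [18, 20], [25, 24], [15, 21], [14, 16], [24, 6], [14, 10], []],
    [[26, 9], [3, 14], [11, 4], [16, 3], [0, 22], [15, 5], [24, 30], [16, 30], []],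
    [[16, 7], [18, 18], [8, 18], [13, 16], [17, 26], [11, 9], [1, 14], [9, 21], []],
    [[4, 28], [5, 10], [13, 10], [21, 20], [12, 13], [14, 25], [24, 1], [16, 8], []]]

/-- data -/
def dRd : List (List (List (List ℕ))) :=
  [dRd0, dRd1, dRd2, dRd3, dRd4]

/-- data -/
def dhd0 : List (List (List ℕ)) :=
  [[[7, 25], [13, 10], [5, 14], [12, 11], [5, 21], [27, 23], [20, 15], [], []],
    [[1, 28], [18, 24], [11, 18], [30, 10], [26, 21], [24, 29], [22, 20], [], []],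
    [[4, 8], [4, 30], [10, 26], [11, 13], [14, 22], [1], [23, 27], [], []],
    [[3, 3], [7, 20], [25, 14], [6, 20], [22, 11], [15, 5], [27, 22], [], []],
    [[0, 4], [5, 24], [18, 28], [3, 7], [17, 3], [12, 14], [18, 8], [], []],
    [[0, 15], [11, 28], [21, 12], [19, 3], [13, 10], [14, 6], [21, 30], [], []]]

/-- data -/
def dhd1 : List (List (List ℕ)) :=
  [[[1, 4], [6, 2], [17, 27], [21, 5], [13, 6], [19, 27], [5, 12], [], []],
    [[29, 18], [21, 4], [26, 28], [3, 29], [13, 7], [10, 19], [27, 7], [], []],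
    [[4, 22], [3, 17], [27, 22], [30, 29], [30, 26], [26, 13], [19, 17], [], []],
    [[25, 29], [11, 21], [6, 29], [17, 3], [17, 23], [11, 4], [18, 21], [], []],
    [[11, 11], [11, 19], [25, 26], [1, 21], [16, 24], [2, 2], [14, 8], [], []],
    [[23, 23], [23, 20], [10, 29], [19, 27], [25, 22], [14, 6], [18, 28], [], []]]

/-- data -/
def dhd2 : List (List (List ℕ)) :=
  [[[18, 12], [23, 13], [22, 17], [22, 30], [9, 30], [3, 22], [12, 5], [], []],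
    [[28, 5], [8, 29], [11, 21], [15, 9], [15, 30], [30, 10], [10, 13], [], []],
    [[2, 19], [12, 9], [6, 18], [22, 18], [5, 9], [19, 2], [26, 7], [], []],
    [[15], [3, 1], [21, 3], [2, 5], [26, 6], [1, 18], [29, 17], [], []],
    [[25, 17], [2, 22], [16, 9], [28, 1], [0, 2], [13, 13], [10, 25], [], []],
    [[20, 21], [24, 7], [10, 29], [7, 28], [17, 20], [5, 3], [13, 7], [], []]]

/-- data -/
def dhd3 : List (List (List ℕ)) :=
  [[[8, 24], [17, 26], [23, 30], [23, 21], [1, 5], [0, 16], [9, 20], [], []],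
    [[1, 25], [11, 6], [0, 20], [20, 9], [6], [11, 25], [9, 3], [], []],
    [[10, 11], [20, 20], [9, 9], [16, 9], [2, 3], [22, 14], [13, 11], [], []],
    [[11, 26], [26], [13, 6], [4, 1], [9, 3], [3, 3], [12, 7], [], []],
    [[23, 29], [30, 11], [6, 16], [16, 15], [20, 3], [0, 15], [22, 4], [], []],
    [[8, 16], [18, 26], [29], [3, 6], [16, 10], [9, 9], [27, 6], [], []]]

/-- data -/
def dhd4 : List (List (List ℕ)) :=
  [[[13, 12], [8, 9], [2, 11], [10, 17], [7, 7], [29, 30], [14, 25], [], []],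
    [[16, 29], [22, 6], [26, 4], [16, 1], [3, 8], [22, 27], [20, 3], [], []],
    [[0, 12], [18, 4], [7, 4], [24, 7], [24, 9], [10, 8], [24, 5], [], []],
    [[26, 25], [1, 11], [28, 28], [27, 20], [9, 8], [11], [10, 13], [], []],
    [[21, 29], [19, 26], [1, 18], [30, 2], [4, 29], [22, 3], [30, 25], [], []],
    [[30, 25], [10, 5], [28], [18, 16], [12, 1], [0, 10], [21, 30], [], []]]

/-- data -/
def dhd : List (List (List (List ℕ))) :=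
  [dhd0, dhd1, dhd2, dhd3, dhd4]

/-- data -/
def dB1 : List (List (List ℕ)) :=
  [[[0, 21, 13, 7, 2], [0, 0, 12, 15, 24], [0, 0, 0, 17, 0], [0, 0, 0, 0, 0], [0, 0, 0, 0, 0]],
    [[0, 2, 9, 4, 13], [0, 0, 10, 2, 7], [0, 0, 0, 11, 0], [0, 0, 0, 0, 0], [0, 0, 0, 0, 0]],
    [[0, 21, 2, 23, 26], [0, 0, 30, 11, 10], [0, 0, 0, 20, 0], [0, 0, 0, 0, 0], [0, 0, 0, 0, 0]],
    [[0, 18, 18, 21, 2], [0, 0, 11, 8, 5], [0, 0, 0, 0, 0], [0, 0, 0, 0, 0], [0, 0, 0, 0, 0]],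
    [[1, 20, 18, 5, 29], [0, 0, 4, 30, 2], [0, 0, 0, 3, 0], [0, 0, 0, 0, 0], [0, 0, 0, 0, 0]],
    [[0, 16, 22, 6, 17], [0, 1, 26, 25, 28], [0, 0, 0, 28, 0], [0, 0, 0, 0, 0], [0, 0, 0, 0, 0]],
    [[0, 22, 12, 9, 26], [0, 0, 28, 14, 12], [0, 0, 1, 30, 0], [0, 0, 0, 0, 0], [0, 0, 0, 0, 0]],
    [[0, 4, 21, 1, 29], [0, 0, 23, 14, 4], [0, 0, 0, 25, 0], [0, 0, 0, 1, 0], [0, 0, 0, 0, 0]],
    [[0, 4, 17, 20, 12], [0, 0, 16, 17, 7], [0, 0, 0, 20, 0], [0, 0, 0, 0, 0], [0, 0, 0, 0, 1]]]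

/-- data -/
def dB2 : List (List (List ℕ)) :=
  [[[0, 15, 18, 21, 15], [0, 0, 9, 29, 24], [0, 0, 0, 11, 0], [0, 0, 0, 0, 0], [0, 0, 0, 0, 0]],
    [[0, 30, 27, 0, 0], [0, 0, 12, 16, 3], [0, 0, 0, 4, 0], [0, 0, 0, 0, 0], [0, 0, 0, 0, 0]],
    [[0, 19, 25, 16, 16], [0, 0, 21, 14, 6], [0, 0, 0, 30, 0], [0, 0, 0, 0, 0], [0, 0, 0, 0, 0]],
    [[0, 29, 17, 22, 10], [0, 0, 7, 10, 17], [0, 0, 0, 18, 0], [0, 0, 0, 0, 0], [0, 0, 0, 0, 0]]]

/-- the certificate -/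
def Z : Cert where
  μ := g1 dmu
  p i := g1 (gl dp i)
  R := gl dR
  h := gl dh
  H := dH
  Hc := gl dHc
  f := gl df
  G i := gl (gl dG i)
  u := gl du
  v := gl dv
  Rd k d := gl (gl (gl dRd k) d)
  hd k d := gl (gl (gl dhd k) d)
  B1 i k := g1 (gl (gl dB1 i) k)
  B2 i k := g1 (gl (gl dB2 i) k)

lemma h1 : Z.c1 9 5 10 = true := by decide +kernel

lemma h2_0 : Z.c2 9 5 10 6 0 = true := by decide +kernel

lemma h2_1 : Z.c2 9 5 10 6 1 = true := by decide +kernel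

lemma h2_2 : Z.c2 9 5 10 6 2 = true := by decide +kernel

lemma h2_3 : Z.c2 9 5 10 6 3 = true := by decide +kernel

lemma h2_4 : Z.c2 9 5 10 6 4 = true := by decide +kernel

lemma h2 : ∀ k : Fin 5, Z.c2 9 5 10 6 k = true := by
  intro k
  fin_cases k
  exacts [h2_0, h2_1, h2_2, h2_3, h2_4]

lemma h3 : Z.c3 9 5 17 3 = true := by decide +kernel

lemma h4 : Z.c4 9 10 3 (g1 [18, 7, 0, 23, 6, 13, 8, 5, 29]) [12, 23, 26] [16, 14, 12, 1] [10, 5, 14] [10, 8] = true := by decide +kernel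

lemma h5 : Z.c4 9 10 3 (g1 [27, 24, 12, 5, 24, 25, 2, 4, 19]) [16, 12, 23] [3, 15, 6, 1] [23, 23, 7] [12, 25] = true := by decide +kernel

lemma h6 : bezL [1, 15, 4] [26, 23, 27] [16, 14, 12, 1] [3, 15, 6, 1] = true := by decide +kernel

theorem general (j : ℕ) :
    GeneralBlowupHas (j + 4) (j + 9) (((10 + j * 3 : ℕ) : ℤ), fun i =>
      ((Sum.elim (fun _ : Fin j => 3) (fun i : Fin 9 => g1 dmu i) (finSumFinEquiv.symm i) : ℕ) : ℤ)) :=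
  Z.general 7 3 10 3 3 h1 h2 h3 h4 h5 h6 (by decide) (by norm_num) (by norm_num) (by norm_num)
    (by decide) (by norm_num) (by norm_num) j

end Pool.Agent.H265Z.CaseB
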