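import Pool.Agent.H265Z.Poly

/-!
# Rational curves with prescribed multiple points, via partial fractions
-/

set_option autoImplicit false

namespace Pool.Agent.H265Z

open Polynomial

section ring

variable {A : Type} [CommRing A] {ι κ : Type} [Fintype ι] [DecidableEq ι]

/-- product of all `h j`, `j ≠ i` -/
noncomputable def Hi (h : ι → A[X]) (i : ι) : A[X] := ∏ j, if j = i then 1 else h j

/-- product of all `h l`, `l ≠ i, j` -/
noncomputable def Hij (h : ι → A[X]) (i j : ι) : A[X] := ∏ l, if l = i ∨ l = j then 1 else h l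

/-- the curve `∑ p_i R_i H / h_i` -/
noncomputable def ff (p : ι → κ → A) (R h : ι → A[X]) (k : κ) : A[X] :=
  ∑ i, C (p i k) * (R i * Hi h i)

/-- the derivative of `ff` with respect to `h j` -/
noncomputable def GG (p : ι → κ → A) (R h : ι → A[X]) (j : ι) (k : κ) : A[X] :=
  ∑ i, if i = j then 0 else C (p i k) * (R i * Hij h i j)

/-- the differential of `ff` with respect to `(R, h)` -/
noncomputable def DD (p : ι → κ → A) (R h Rd hd : ι → A[X]) (k : κ) : A[X] :=
  ff p Rd h k + ∑ j, hd j * GG p R h j k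

lemma prod_ite_mul (h : ι → A[X]) (P : ι → Prop) [DecidablePred P] (j : ι) (hj : ¬ P j) :
    h j * ∏ l, (if P l ∨ l = j then 1 else h l) = ∏ l, if P l then 1 else h l := by
  rw [← Finset.mul_prod_erase Finset.univ (fun l => if P l then 1 else h l) (Finset.mem_univ j),
    ← Finset.mul_prod_erase Finset.univ (fun l => if P l ∨ l = j then 1 else h l)
      (Finset.mem_univ j)]
  simp only [hj, or_true, if_true, if_false, one_mul]
  congr 1
  refine Finset.prod_congr rfl fun l hl => ?_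
  simp [Finset.ne_of_mem_erase hl]

lemma mul_Hi (h : ι → A[X]) (i : ι) : h i * Hi h i = ∏ j, h j := by
  simpa [Hi] using prod_ite_mul h (fun _ => False) i (by simp)

lemma mul_Hij (h : ι → A[X]) {i j : ι} (hij : i ≠ j) : h j * Hij h i j = Hi h i :=
  prod_ite_mul h (fun l => l = i) j hij.symm

lemma dvd_Hi (h : ι → A[X]) {i j : ι} (hij : i ≠ j) : h j ∣ Hi h i := ⟨_, (mul_Hij h hij).symm⟩

lemma dvd_Hij (h : ι → A[X]) {i j l : ι} (hi : l ≠ i) (hj : l ≠ j) : h l ∣ Hij h i j := by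
  have := prod_ite_mul h (fun x => x = i ∨ x = j) l (by simp [hi, hj])
  exact ⟨_, this.symm⟩

lemma ff_eq (p : ι → κ → A) (R h : ι → A[X]) (j : ι) (k : κ) :
    ff p R h k = h j * GG p R h j k + C (p j k) * (R j * Hi h j) := by
  unfold ff GG
  rw [Finset.mul_sum, ← Finset.add_sum_erase Finset.univ _ (Finset.mem_univ j),
    ← Finset.add_sum_erase Finset.univ (fun i => h j * if i = j then 0 else
      C (p i k) * (R i * Hij h i j)) (Finset.mem_univ j)]
  simp only [if_true, mul_zero, zero_add]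
  rw [add_comm]
  congr 1
  refine Finset.sum_congr rfl fun i hi => ?_
  have := Finset.ne_of_mem_erase hi
  rw [if_neg this, ← mul_Hij h this]; ring

/-- modulo `h i` and `p i`, `GG j` vanishes for `j ≠ i` -/
lemma GG_mod (p : ι → κ → A) (R h : ι → A[X]) {i j : ι} (hij : i ≠ j) (k : κ) :
    h i ∣ GG p R h j k - C (p i k) * (R i * Hij h i j) := by
  unfold GG
  rw [← Finset.add_sum_erase Finset.univ _ (Finset.mem_univ i), if_neg hij, add_sub_cancel_left]
  refine Finset.dvd_sum fun l hl => ?_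
  have := Finset.ne_of_mem_erase hl
  split_ifs with h1
  · exact dvd_zero _
  · exact ((dvd_Hij h this.symm hij).mul_left _).mul_left _

lemma DD_mod (p : ι → κ → A) (R h Rd hd : ι → A[X]) (i : ι) :
    ∃ c : A[X], ∀ k, h i ∣ DD p R h Rd hd k - hd i * GG p R h i k
      - (Rd i * Hi h i + c) * C (p i k) ∧ ((∀ j, hd j = 0) → c = 0) := by
  refine ⟨∑ j ∈ Finset.univ.erase i, hd j * (R i * Hij h i j), fun k => ⟨?_, fun h0 => ?_⟩⟩
  · unfold DD
    rw [ff_eq p Rd h i k, ← Finset.add_sum_erase Finset.univ _ (Finset.mem_univ i)]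
    have : h i * GG p Rd h i k + C (p i k) * (Rd i * Hi h i) +
        (hd i * GG p R h i k + ∑ x ∈ Finset.univ.erase i, hd x * GG p R h x k) -
        hd i * GG p R h i k -
        (Rd i * Hi h i + ∑ j ∈ Finset.univ.erase i, hd j * (R i * Hij h i j)) * C (p i k)
        = h i * GG p Rd h i k + ∑ x ∈ Finset.univ.erase i,
          hd x * (GG p R h x k - C (p i k) * (R i * Hij h i x)) := by
      simp only [mul_sub, Finset.sum_sub_distrib, add_mul, Finset.sum_mul]
      have : ∑ x ∈ Finset.univ.erase i, hd x * (R i * Hij h i x) * C (p i k) =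
          ∑ x ∈ Finset.univ.erase i, hd x * (C (p i k) * (R i * Hij h i x)) :=
        Finset.sum_congr rfl fun x _ => by ring
      rw [this]; ring
    rw [this]
    exact dvd_add (dvd_mul_right _ _) (Finset.dvd_sum fun j hj =>
      (GG_mod p R h (Finset.ne_of_mem_erase hj).symm k).mul_left _)
  · simp [h0]

lemma prod_add_sq_zero {α B : Type} [CommRing B] [DecidableEq α] (s : Finset α) (a b : α → B)
    (hb : ∀ i j, b i * b j = 0) :
    ∏ j ∈ s, (a j + b j) = ∏ j ∈ s, a j + ∑ j ∈ s, b j * ∏ l ∈ s.erase j, a l := by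
  induction s using Finset.induction_on with
  | empty => simp
  | insert x s hx ih =>
    rw [Finset.prod_insert hx, Finset.prod_insert hx, Finset.sum_insert hx, ih,
      Finset.erase_insert hx]
    have h1 : ∑ j ∈ s, b j * ∏ l ∈ (insert x s).erase j, a l
        = a x * ∑ j ∈ s, b j * ∏ l ∈ s.erase j, a l := by
      rw [Finset.mul_sum]
      refine Finset.sum_congr rfl fun j hj => ?_
      rw [Finset.erase_insert_of_ne (fun h : x = j => hx (h ▸ hj)),
        Finset.prod_insert (fun h => hx (Finset.mem_of_mem_erase h))]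
      ring
    have h2 : b x * ∑ j ∈ s, b j * ∏ l ∈ s.erase j, a l = 0 := by
      rw [Finset.mul_sum]
      exact Finset.sum_eq_zero fun j _ => by rw [← mul_assoc, hb, zero_mul]
    rw [h1]; linear_combination h2

lemma Hi_add (h hd : ι → A[X]) (hb : ∀ i j, hd i * hd j = 0) (i : ι) :
    Hi (h + hd) i = Hi h i + ∑ j, if j = i then 0 else hd j * Hij h i j := by
  have := prod_add_sq_zero Finset.univ (fun j => if j = i then 1 else h j)
    (fun j => if j = i then 0 else hd j) (by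
      intro j l; split_ifs <;> simp [hb])
  unfold Hi
  rw [← Finset.prod_congr rfl (fun j _ => show ((if j = i then 1 else h j) +
    (if j = i then 0 else hd j)) = if j = i then 1 else (h + hd) j by split_ifs <;> simp), this]
  congr 1
  refine Finset.sum_congr rfl fun j _ => ?_
  split_ifs with hj
  · simp
  · congr 1
    unfold Hij
    rw [← Finset.mul_prod_erase Finset.univ _ (Finset.mem_univ j)]
    simp only [or_true, if_true, one_mul]
    refine Finset.prod_congr rfl fun l hl => ?_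
    simp [Finset.ne_of_mem_erase hl]

lemma ff_taylor (p : ι → κ → A) (R h Rd hd : ι → A[X]) (hb : ∀ i j, hd i * hd j = 0)
    (hb' : ∀ i j, Rd i * hd j = 0) (k : κ) :
    ff p (R + Rd) (h + hd) k = ff p R h k + DD p R h Rd hd k := by
  unfold DD GG ff
  simp only [Hi_add h hd hb, Finset.mul_sum, Pi.add_apply]
  rw [Finset.sum_comm (s := Finset.univ) (t := Finset.univ)
    (f := fun j i => hd j * if i = j then 0 else C (p i k) * (R i * Hij h i j)),
    ← Finset.sum_add_distrib, ← Finset.sum_add_distrib]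
  refine Finset.sum_congr rfl fun i _ => ?_
  have h1 : Rd i * ∑ j, (if j = i then 0 else hd j * Hij h i j) = 0 := by
    rw [Finset.mul_sum]
    refine Finset.sum_eq_zero fun j _ => ?_
    split_ifs
    · simp
    · rw [← mul_assoc, hb', zero_mul]
  have h2 : ∑ j, hd j * (if i = j then 0 else C (p i k) * (R i * Hij h i j)) =
      C (p i k) * (R i * ∑ j, (if j = i then 0 else hd j * Hij h i j)) := by
    rw [Finset.mul_sum, Finset.mul_sum]
    refine Finset.sum_congr rfl fun j _ => ?_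
    by_cases hj : j = i
    · simp [hj]
    · rw [if_neg hj, if_neg (Ne.symm hj)]; ring
  rw [h2]
  linear_combination C (p i k) * h1

lemma ff_add (p : ι → κ → A) (R R' h : ι → A[X]) (k : κ) :
    ff p (R + R') h k = ff p R h k + ff p R' h k := by
  simp [ff, add_mul, mul_add, Finset.sum_add_distrib]

lemma ff_C_mul (p : ι → κ → A) (c : A[X]) (R h : ι → A[X]) (k : κ) :
    ff p (fun i => c * R i) h k = c * ff p R h k := by
  simp only [ff, Finset.mul_sum]
  exact Finset.sum_congr rfl fun i _ => by ring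

lemma DD_add (p : ι → κ → A) (R h Rd hd Rd' hd' : ι → A[X]) (k : κ) :
    DD p R h (Rd + Rd') (hd + hd') k = DD p R h Rd hd k + DD p R h Rd' hd' k := by
  simp only [DD, ff_add, Pi.add_apply, add_mul, Finset.sum_add_distrib]; ring

lemma DD_C_mul (p : ι → κ → A) (c : A[X]) (R h Rd hd : ι → A[X]) (k : κ) :
    DD p R h (fun i => c * Rd i) (fun i => c * hd i) k = c * DD p R h Rd hd k := by
  simp only [DD, ff_C_mul, mul_add, Finset.mul_sum, mul_assoc]

section map

variable {B : Type} [CommRing B] (φ : A →+* B)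

lemma Hi_map (h : ι → A[X]) (i : ι) : (Hi h i).map φ = Hi (fun j => (h j).map φ) i := by
  simp only [Hi, Polynomial.map_prod]
  exact Finset.prod_congr rfl fun j _ => by split_ifs <;> simp

lemma Hij_map (h : ι → A[X]) (i j : ι) : (Hij h i j).map φ = Hij (fun j => (h j).map φ) i j := by
  simp only [Hij, Polynomial.map_prod]
  exact Finset.prod_congr rfl fun j _ => by split_ifs <;> simp

lemma ff_map (p : ι → κ → A) (R h : ι → A[X]) (k : κ) :
    (ff p R h k).map φ =
      ff (fun i k => φ (p i k)) (fun j => (R j).map φ) (fun j => (h j).map φ) k := by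
  simp [ff, Polynomial.map_sum, Hi_map]

lemma GG_map (p : ι → κ → A) (R h : ι → A[X]) (j : ι) (k : κ) :
    (GG p R h j k).map φ =
      GG (fun i k => φ (p i k)) (fun j => (R j).map φ) (fun j => (h j).map φ) j k := by
  simp only [GG, Polynomial.map_sum]
  exact Finset.sum_congr rfl fun i _ => by split_ifs <;> simp [Hij_map]

lemma DD_map (p : ι → κ → A) (R h Rd hd : ι → A[X]) (k : κ) :
    (DD p R h Rd hd k).map φ =
      DD (fun i k => φ (p i k)) (fun j => (R j).map φ) (fun j => (h j).map φ)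
        (fun j => (Rd j).map φ) (fun j => (hd j).map φ) k := by
  simp [DD, Polynomial.map_sum, ff_map, GG_map]

end map

section degrees

variable {μ : ι → ℕ} {h : ι → A[X]}

lemma Mon_Hi (hm : ∀ i, Mon (h i) (μ i)) (i : ι) :
    ∃ m, Mon (Hi h i) m ∧ μ i + m = ∑ j, μ j := by
  refine ⟨∑ j, if j = i then 0 else μ j, Mon.prod fun j _ => ?_, ?_⟩
  · split_ifs
    · exact Mon_one
    · exact hm j
  · rw [← Finset.add_sum_erase Finset.univ μ (Finset.mem_univ i),
      ← Finset.add_sum_erase Finset.univ _ (Finset.mem_univ i)]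
    simp only [if_true, zero_add]
    congr 1
    exact Finset.sum_congr rfl fun j hj => if_neg (Finset.ne_of_mem_erase hj)

lemma DL_mul_Hi (hm : ∀ i, Mon (h i) (μ i)) {i : ι} {P : A[X]} (hP : DL P (μ i)) :
    DL (P * Hi h i) (∑ j, μ j) := by
  obtain ⟨m, h1, h2⟩ := Mon_Hi hm i
  exact hP.mul h1.dl (by omega)

lemma DL_ff (hm : ∀ i, Mon (h i) (μ i)) (p : ι → κ → A) {R : ι → A[X]}
    (hR : ∀ i, DL (R i) (μ i)) (k : κ) : DL (ff p R h k) (∑ j, μ j) :=
  DL.sum fun i _ => (DL_mul_Hi hm (hR i)).C_mul _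

lemma DL_mul_GG (hm : ∀ i, Mon (h i) (μ i)) (p : ι → κ → A) {R : ι → A[X]}
    (hR : ∀ i, DL (R i) (μ i)) (j : ι) (k : κ) {P : A[X]} (hP : DL P (μ j)) :
    DL (P * GG p R h j k) (∑ j, μ j) := by
  obtain ⟨m, h1, h2⟩ := Mon_Hi hm j
  have : DL (GG p R h j k) m := by
    apply (hm j).cancel
    have : h j * GG p R h j k = ff p R h k - C (p j k) * (R j * Hi h j) := by
      rw [ff_eq p R h j k]; ring
    rw [this, h2]
    exact (DL_ff hm p hR k).sub ((DL_mul_Hi hm (hR j)).C_mul _)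
  exact hP.mul this (by omega)

lemma DL_DD (hm : ∀ i, Mon (h i) (μ i)) (p : ι → κ → A) {R Rd hd : ι → A[X]}
    (hR : ∀ i, DL (R i) (μ i)) (hRd : ∀ i, DL (Rd i) (μ i)) (hhd : ∀ i, DL (hd i) (μ i)) (k : κ) :
    DL (DD p R h Rd hd k) (∑ j, μ j) :=
  (DL_ff hm p hRd k).add (DL.sum fun j _ => DL_mul_GG hm p hR j k (hhd j))

end degrees

/-- the algebraic conditions -/
structure Alg (μ : ι → ℕ) (δ : ℕ) (p : ι → κ → A) (R h : ι → A[X]) : Prop where
  mon : ∀ i, Mon (h i) (μ i)
  degR : ∀ i, DL (R i) (μ i)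
  degf : ∀ k, DL (ff p R h k) (δ + 1)
  rigid : ∀ y : κ → A[X], (∀ k, DL (y k) (∑ i, μ i)) → ∃ Rd hd : ι → A[X],
    (∀ i, DL (Rd i) (μ i)) ∧ (∀ i, DL (hd i) (μ i)) ∧ ∀ k, DL (y k - DD p R h Rd hd k) (δ + 1)
  cop : ∀ i j, i ≠ j → IsCoprime (h i) (h j)
  copR : ∀ i, IsCoprime (R i) (h i)
  indep : ∀ i j, i ≠ j → ∃ k l, p i k * p j l - p i l * p j k ≠ 0

/-- the condition on quadrics -/
def Quad {ι₀ κ₀ : Type} [Fintype κ₀] (P : ι₀ → κ₀ → A) (g : κ₀ → A[X]) (δ N : ℕ) : Prop :=
  ∀ (a : ι₀ → A) (y : A[X]), DL y (2 * δ + 1) → ∃ B : κ₀ → κ₀ → A,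
    (∀ i, ∑ k, ∑ l, B k l * (P i k * P i l) = a i) ∧
      DL (y - ∑ k, ∑ l, C (B k l) * (g k * g l)) N

/-- unknowns -/
abbrev Unk (μ : ι → ℕ) : Type := (Σ i, Fin (μ i)) ⊕ (Σ i, Fin (μ i))

/-- the polynomials `R` attached to a vector of unknowns -/
noncomputable def uR {μ : ι → ℕ} (b : Unk μ → A) (i : ι) : A[X] :=
  pol fun a : Fin (μ i) => b (Sum.inl ⟨i, a⟩)

/-- the lower part of the polynomials `h` attached to a vector of unknowns -/
noncomputable def uh {μ : ι → ℕ} (b : Unk μ → A) (i : ι) : A[X] :=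
  pol fun a : Fin (μ i) => b (Sum.inr ⟨i, a⟩)

omit [Fintype ι] [DecidableEq ι] in
lemma exists_unk {μ : ι → ℕ} {Rd hd : ι → A[X]} (h1 : ∀ i, DL (Rd i) (μ i))
    (h2 : ∀ i, DL (hd i) (μ i)) : ∃ b : Unk μ → A, uR b = Rd ∧ uh b = hd :=
  ⟨Sum.elim (fun x => (Rd x.1).coeff x.2) (fun x => (hd x.1).coeff x.2),
    funext fun i => pol_coeff (h1 i), funext fun i => pol_coeff (h2 i)⟩

/-- `DD` as a linear map in the unknowns -/
noncomputable def DDl (μ : ι → ℕ) (p : ι → κ → A) (R h : ι → A[X]) :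
    (Unk μ → A) →ₗ[A] (κ → A[X]) where
  toFun b := DD p R h (uR b) (uh b)
  map_add' b b' := by
    funext k
    rw [Pi.add_apply, ← DD_add]
    congr 1 <;> funext i <;> exact pol_add _ _
  map_smul' c b := by
    funext k
    rw [RingHom.id_apply, Pi.smul_apply, smul_eq_C_mul, ← DD_C_mul]
    congr 1 <;> funext i <;> exact pol_smul _ _

/-- the coefficients `a, …, a + e - 1` -/
noncomputable def hiCoeff (κ : Type) (a e : ℕ) : (κ → A[X]) →ₗ[A] (κ × Fin e → A) where
  toFun y kd := (y kd.1).coeff (a + kd.2)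
  map_add' y y' := by funext kd; simp
  map_smul' c y := by funext kd; simp

lemma hiCoeff_eq_zero {a e : ℕ} {y : κ → A[X]} (hy : ∀ k, DL (y k) (a + e)) :
    hiCoeff κ a e y = 0 ↔ ∀ k, DL (y k) a := by
  constructor
  · intro h k m hm
    by_cases h1 : m < a + e
    · have := congrFun h (k, ⟨m - a, by omega⟩)
      simp only [hiCoeff, LinearMap.coe_mk, AddHom.coe_mk, Pi.zero_apply] at this
      rwa [Nat.add_sub_cancel' hm] at this
    · exact hy k m (not_lt.1 h1)
  · intro h
    funext kd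
    exact h kd.1 _ (Nat.le_add_right _ _)

lemma hiCoeff_surj (a e : ℕ) (v : κ × Fin e → A) :
    ∃ y : κ → A[X], (∀ k, DL (y k) (a + e)) ∧ hiCoeff κ a e y = v := by
  refine ⟨fun k => X ^ a * pol fun d => v (k, d), fun k =>
    (DL_X_pow a).mul (DL_pol _) (by omega), ?_⟩
  funext kd
  simp only [hiCoeff, LinearMap.coe_mk, AddHom.coe_mk]
  rw [add_comm, coeff_X_pow_mul]
  exact coeff_pol (fun d => v (kd.1, d)) kd.2

lemma rigid_iff {μ : ι → ℕ} {δ e : ℕ} (hM : ∑ i, μ i = δ + 1 + e) {p : ι → κ → A}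
    {R h : ι → A[X]} (hm : ∀ i, Mon (h i) (μ i)) (hR : ∀ i, DL (R i) (μ i)) :
    (∀ y : κ → A[X], (∀ k, DL (y k) (∑ i, μ i)) → ∃ Rd hd : ι → A[X],
      (∀ i, DL (Rd i) (μ i)) ∧ (∀ i, DL (hd i) (μ i)) ∧
        ∀ k, DL (y k - DD p R h Rd hd k) (δ + 1)) ↔
    Function.Surjective ((hiCoeff κ (δ + 1) e).comp (DDl μ p R h)) := by
  have hD : ∀ (b : Unk μ → A) k, DL (DDl μ p R h b k) (δ + 1 + e) := fun b k =>
    hM ▸ DL_DD hm p hR (fun i => DL_pol _) (fun i => DL_pol _) k
  constructor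
  · intro H v
    obtain ⟨y, hy1, rfl⟩ := hiCoeff_surj (δ + 1) e v
    obtain ⟨Rd, hd, h1, h2, h3⟩ := H y (hM ▸ hy1)
    obtain ⟨b, rfl, rfl⟩ := exists_unk h1 h2
    refine ⟨b, ?_⟩
    rw [LinearMap.comp_apply, eq_comm, ← sub_eq_zero, ← map_sub,
      hiCoeff_eq_zero (y := y - DDl μ p R h b) fun k => (hy1 k).sub (hD b k)]
    exact h3
  · intro H y hy
    obtain ⟨b, hb⟩ := H (hiCoeff κ (δ + 1) e y)
    rw [LinearMap.comp_apply, eq_comm, ← sub_eq_zero, ← map_sub,
      hiCoeff_eq_zero (y := y - DDl μ p R h b)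
        fun k => (hM ▸ hy k : DL (y k) _).sub (hD b k)] at hb
    exact ⟨uR b, uh b, fun i => DL_pol _, fun i => DL_pol _, hb⟩

end ring

end Pool.Agent.H265Z
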