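import Pool.Agent.H265Z.Core

/-!
# The data used in the geometric argument
-/

set_option autoImplicit false
set_option linter.unusedSectionVars false

namespace Pool.Agent.H265Z

open Polynomial

section bil

variable {K S : Type} [Field K] [CommRing S] [Algebra K S] {ι κ : Type} [Fintype κ]

/-- bilinear form with matrix `B` -/
noncomputable def BB (B : κ → κ → K) (x y : κ → S) : S :=
  ∑ k, ∑ l, algebraMap K S (B k l) * (x k * y l)

lemma BB_left (B : κ → κ → K) (a b : S) (x x' y : κ → S) :
    BB B (fun k => a * x k + b * x' k) y = a * BB B x y + b * BB B x' y := by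
  simp only [BB, Finset.mul_sum, ← Finset.sum_add_distrib]
  exact Finset.sum_congr rfl fun k _ => Finset.sum_congr rfl fun l _ => by ring

lemma BB_right (B : κ → κ → K) (a b : S) (x y y' : κ → S) :
    BB B x (fun k => a * y k + b * y' k) = a * BB B x y + b * BB B x y' := by
  simp only [BB, Finset.mul_sum, ← Finset.sum_add_distrib]
  exact Finset.sum_congr rfl fun k _ => Finset.sum_congr rfl fun l _ => by ring

lemma BB_expand (B : κ → κ → K) (a b : S) (x y : κ → S) :
    BB B (fun k => a * x k + b * y k) (fun k => a * x k + b * y k) =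
      a ^ 2 * BB B x x + a * b * (BB B x y + BB B y x) + b ^ 2 * BB B y y := by
  rw [BB_left, BB_right, BB_right]; ring

lemma BB_algebraMap (B : κ → κ → K) (x y : κ → K) :
    BB B (fun k => algebraMap K S (x k)) (fun k => algebraMap K S (y k)) =
      algebraMap K S (BB B x y) := by
  simp [BB]

lemma BB_zero_right (B : κ → κ → K) (q : κ → K) (hq : ∀ k, ∑ l, B k l * q l = 0) (x : κ → S) :
    BB B x (fun k => algebraMap K S (q k)) = 0 := by
  refine Finset.sum_eq_zero fun k _ => ?_
  have : ∑ l, algebraMap K S (B k l) * (x k * algebraMap K S (q l)) =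
      x k * algebraMap K S (∑ l, B k l * q l) := by
    rw [map_sum, Finset.mul_sum]
    exact Finset.sum_congr rfl fun l _ => by rw [map_mul]; ring
  rw [this, hq, map_zero, mul_zero]

lemma BB_zero_left (B : κ → κ → K) (q : κ → K) (hq : ∀ l, ∑ k, B k l * q k = 0) (x : κ → S) :
    BB B (fun k => algebraMap K S (q k)) x = 0 := by
  unfold BB
  rw [Finset.sum_comm]
  refine Finset.sum_eq_zero fun l _ => ?_
  have : ∑ k, algebraMap K S (B k l) * (algebraMap K S (q k) * x l) =
      x l * algebraMap K S (∑ k, B k l * q k) := by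
    rw [map_sum, Finset.mul_sum]
    exact Finset.sum_congr rfl fun l _ => by rw [map_mul]; ring
  rw [this, hq, map_zero, mul_zero]

lemma map_BB {T : Type} [CommRing T] [Algebra K T] (φ : S →ₐ[K] T) (B : κ → κ → K)
    (x y : κ → S) : φ (BB B x y) = BB B (fun k => φ (x k)) (fun k => φ (y k)) := by
  simp [BB]

variable [Fintype ι] [DecidableEq ι]

/-- `B` vanishes at all points and is singular at the points in `ext` -/
def Adm (ext : ι → Prop) (p : ι → κ → K) (B : κ → κ → K) : Prop :=
  (∀ i, BB B (p i) (p i) = 0) ∧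
    ∀ i, ext i → (∀ k, ∑ l, B k l * p i l = 0) ∧ ∀ l, ∑ k, B k l * p i k = 0

/-- the divisor `∑ E_i + ∑_{ext} E_i` -/
noncomputable def Tot (ext : ι → Prop) [DecidablePred ext] (h : ι → S) : S :=
  (∏ j, h j) * ∏ j, if ext j then h j else 1

/-- the part of `Tot` prime to `h i` -/
noncomputable def Cof (ext : ι → Prop) [DecidablePred ext] (h : ι → S) (i : ι) : S :=
  (∏ j, if j = i then 1 else h j) * ∏ j, if j = i then 1 else if ext j then h j else 1

lemma prod_eq_mul_ite (h : ι → S) (i : ι) :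
    ∏ j, h j = h i * ∏ j, if j = i then 1 else h j := by
  rw [← Finset.mul_prod_erase Finset.univ h (Finset.mem_univ i),
    ← Finset.mul_prod_erase Finset.univ (fun j => if j = i then 1 else h j) (Finset.mem_univ i)]
  simp only [if_true, one_mul]
  congr 1
  exact Finset.prod_congr rfl fun l hl => (if_neg (Finset.ne_of_mem_erase hl)).symm

lemma Tot_eq (ext : ι → Prop) [DecidablePred ext] (h : ι → S) (i : ι) :
    Tot ext h = h i * (if ext i then h i else 1) * Cof ext h i := by
  unfold Tot Cof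
  rw [prod_eq_mul_ite h i, prod_eq_mul_ite (fun j => if ext j then h j else 1) i]
  ring

lemma map_Tot {T : Type} [CommRing T] (φ : S →+* T) (ext : ι → Prop) [DecidablePred ext]
    (h : ι → S) : φ (Tot ext h) = Tot ext fun j => φ (h j) := by
  simp only [Tot, map_mul, map_prod, apply_ite φ, map_one]

lemma map_Cof {T : Type} [CommRing T] (φ : S →+* T) (ext : ι → Prop) [DecidablePred ext]
    (h : ι → S) (i : ι) : φ (Cof ext h i) = Cof ext (fun j => φ (h j)) i := by
  simp only [Cof, map_mul, map_prod, apply_ite φ, map_one]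

lemma isUnit_Tot (ext : ι → Prop) [DecidablePred ext] {h : ι → S} (hu : ∀ j, IsUnit (h j)) :
    IsUnit (Tot ext h) := by
  refine IsUnit.mul (IsUnit.prod_univ_iff.2 hu) (IsUnit.prod_univ_iff.2 fun j => ?_)
  split_ifs
  · exact hu j
  · exact isUnit_one

lemma isUnit_Cof (ext : ι → Prop) [DecidablePred ext] {h : ι → S} {i : ι}
    (hu : ∀ j, j ≠ i → IsUnit (h j)) : IsUnit (Cof ext h i) := by
  refine IsUnit.mul (IsUnit.prod_univ_iff.2 fun j => ?_) (IsUnit.prod_univ_iff.2 fun j => ?_)
  · split_ifs with h1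
    · exact isUnit_one
    · exact hu j h1
  · split_ifs with h1
    · exact isUnit_one
    · exact hu j h1
    · exact isUnit_one

lemma isCoprime_Cof (ext : ι → Prop) [DecidablePred ext] {h : ι → S} {i : ι}
    (hu : ∀ j, j ≠ i → IsCoprime (h j) (h i)) : IsCoprime (Cof ext h i) (h i) := by
  refine IsCoprime.mul_left (IsCoprime.prod_left fun j _ => ?_) (IsCoprime.prod_left fun j _ => ?_)
  · split_ifs with h1
    · exact isCoprime_one_left
    · exact hu j h1
  · split_ifs with h1
    · exact isCoprime_one_left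
    · exact hu j h1
    · exact isCoprime_one_left

/-- the identity obtained after dividing by the power of `h i` -/
lemma quad_div {ext : ι → Prop} [DecidablePred ext] {p : ι → κ → K} {B : κ → κ → K}
    (hB : Adm ext p B) {h : ι → S} {i : ι} (hreg : ∀ a b : S, h i * a = h i * b → a = b)
    {f Γ : κ → S} {ρ w : S} (hf : ∀ k, f k = h i * Γ k + ρ * algebraMap K S (p i k))
    (hw : BB B f f = Tot ext h * w) :
    (if ext i then BB B Γ Γ else h i * BB B Γ Γ + ρ * (BB B Γ (fun k => algebraMap K S (p i k)) +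
      BB B (fun k => algebraMap K S (p i k)) Γ)) = Cof ext h i * w := by
  rw [funext hf, BB_expand, BB_algebraMap, hB.1 i, map_zero, Tot_eq ext h i] at hw
  split_ifs with hi
  · rw [BB_zero_right B _ (hB.2 i hi).1, BB_zero_left B _ (hB.2 i hi).2, if_pos hi] at hw
    apply hreg; apply hreg
    linear_combination hw
  · rw [if_neg hi] at hw
    apply hreg
    linear_combination hw

end bil

section data

variable {K : Type} [Field K] {ι κ : Type} [Fintype ι] [DecidableEq ι] [Fintype κ]

/-- first part of the data -/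
structure Pre (μ : ι → ℕ) (δ D : ℕ) (ext : ι → Prop) [DecidablePred ext] (p : ι → κ → K)
    (h ρ : ι → K[X]) (Γ : ι → κ → K[X]) (f : κ → K[X]) : Prop where
  mon : ∀ i, Mon (h i) (μ i)
  lt : ∀ i, μ i < δ
  degf : ∀ k, DL (f k) (δ + 1)
  degρ : ∀ i, DL (ρ i) (μ i)
  eq : ∀ i k, f k = h i * Γ i k + ρ i * C (p i k)
  cop : ∀ i j, i ≠ j → IsCoprime (h i) (h j)
  copρ : ∀ i, IsCoprime (ρ i) (h i)
  indep : ∀ i j, i ≠ j → ∃ k l, p i k * p j l - p i l * p j k ≠ 0
  ne : ∀ i, p i ≠ 0
  Dpos : 1 ≤ D
  hD : 2 * δ = ∑ i, μ i + ∑ i, (if ext i then μ i else 0) + D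
  quad : ∀ w, DL w (D + 1) → ∃ B : κ → κ → K, Adm ext p B ∧ BB B f f = Tot ext h * w

/-- first order deformations keeping the multiple points -/
def InE (p : ι → κ → K) (h : ι → K[X]) (Γ : ι → κ → K[X]) (x : κ → K[X]) : Prop :=
  ∀ i, ∃ a c : K[X], ∀ k, h i ∣ x k - a * Γ i k - c * C (p i k)

/-- all the data -/
structure GeomData (μ : ι → ℕ) (δ D : ℕ) (ext : ι → Prop) [DecidablePred ext] (p : ι → κ → K)
    (h ρ : ι → K[X]) (Γ : ι → κ → K[X]) (f : κ → K[X]) : Prop
    extends Pre μ δ D ext p h ρ Γ f where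
  E0 : ∃ L : (Fin 4 → K) →ₗ[K] (κ → K[X]),
    ∀ x, InE p h Γ x → (∀ k, DL (x k) (δ + 1)) → x ∈ LinearMap.range L
  E1 : ∃ L : (Fin (Fintype.card κ + 4) → K) →ₗ[K] (κ → K[X]), Function.Injective L ∧
    ∀ v, InE p h Γ (L v) ∧ ∀ k, DL (L v k) (δ + 2)

variable {μ : ι → ℕ} {δ D : ℕ} {ext : ι → Prop} [DecidablePred ext] {p : ι → κ → K}
  {h ρ : ι → K[X]} {Γ : ι → κ → K[X]} {f : κ → K[X]}

lemma Pre.unimod (H : Pre μ δ D ext p h ρ Γ f) (i : ι) {a c : K[X]}
    (hd : ∀ k, h i ∣ a * Γ i k + c * C (p i k)) : h i ∣ a := by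
  obtain ⟨B, hB, hw⟩ := H.quad 1 (DL_one.mono (by omega))
  have key := quad_div hB (h := h) (i := i) (fun a b => (H.mon i).mul_left_cancel) (H.eq i) hw
  have hc : IsCoprime (Cof ext h i) (h i) := isCoprime_Cof ext fun j hj => H.cop j i hj
  have hdl : ∀ y : κ → K[X], h i ∣ BB B (fun k => a * Γ i k + c * C (p i k)) y := fun y =>
    Finset.dvd_sum fun k _ => Finset.dvd_sum fun l _ => ((hd k).mul_right _).mul_left _
  have hdr : ∀ y : κ → K[X], h i ∣ BB B y (fun k => a * Γ i k + c * C (p i k)) := fun y =>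
    Finset.dvd_sum fun k _ => Finset.dvd_sum fun l _ => ((hd l).mul_left _).mul_left _
  apply hc.symm.dvd_of_dvd_mul_right
  rw [mul_one] at key
  rw [← key]
  split_ifs with hi
  · have := hdl (Γ i)
    rw [BB_left] at this
    have h0 := BB_zero_left (S := K[X]) B _ (hB.2 i hi).2 (Γ i)
    simp only [algebraMap_eq] at h0
    rwa [h0, mul_zero, add_zero] at this
  · have h1 := hdl fun k => C (p i k)
    have h2 := hdr fun k => C (p i k)
    have h0 := BB_algebraMap (S := K[X]) B (p i) (p i)
    rw [hB.1 i, map_zero] at h0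
    simp only [algebraMap_eq] at h0 ⊢
    rw [BB_left, h0] at h1
    rw [BB_right, h0] at h2
    have : a * (h i * BB B (Γ i) (Γ i) + ρ i * (BB B (Γ i) (fun k => C (p i k)) +
        BB B (fun k => C (p i k)) (Γ i))) = h i * (a * BB B (Γ i) (Γ i)) +
        ρ i * (a * BB B (Γ i) (fun k => C (p i k)) + c * 0) +
        ρ i * (a * BB B (fun k => C (p i k)) (Γ i) + c * 0) := by ring
    rw [this]
    exact dvd_add (dvd_add (dvd_mul_right _ _) (h1.mul_left _)) (h2.mul_left _)

omit [Fintype κ] in
lemma isCoprime_Hi (hc : ∀ i j, i ≠ j → IsCoprime (h i) (h j)) (i : ι) :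
    IsCoprime (Hi h i) (h i) := by
  refine IsCoprime.prod_left fun j _ => ?_
  split_ifs with h1
  · exact isCoprime_one_left
  · exact hc j i h1

theorem Alg.geomData {R : ι → K[X]} {e : ℕ} (H : Alg μ δ p R h) (hM : ∑ i, μ i = δ + 1 + e)
    (hM' : 2 * ∑ i, μ i = Fintype.card κ * e + 4) (he : 1 ≤ e) (lt : ∀ i, μ i < δ)
    (ne : ∀ i, p i ≠ 0) (Dpos : 1 ≤ D)
    (hD : 2 * δ = ∑ i, μ i + ∑ i, (if ext i then μ i else 0) + D)
    (quad : ∀ w, DL w (D + 1) → ∃ B : κ → κ → K, Adm ext p B ∧
      BB B (ff p R h) (ff p R h) = Tot ext h * w) :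
    ∃ ρ Γ, GeomData μ δ D ext p h ρ Γ (ff p R h) := by
  classical
  choose q ρ hq hρ using fun i => (H.mon i).div' (R i * Hi h i)
  let Γ : ι → κ → K[X] := fun i k => GG p R h i k + q i * C (p i k)
  have hpre : Pre μ δ D ext p h ρ Γ (ff p R h) :=
    { mon := H.mon, lt := lt, degf := H.degf, degρ := hρ
      eq := fun i k => by rw [ff_eq p R h i k, hq i]; ring
      cop := H.cop
      copρ := fun i => by
        have h1 : IsCoprime (R i * Hi h i) (h i) := (H.copR i).mul_left (isCoprime_Hi H.cop i)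
        rw [hq i, add_comm] at h1
        exact h1.of_add_mul_left_left
      indep := H.indep, ne := ne, Dpos := Dpos, hD := hD, quad := quad }
  have hcard : Fintype.card (Unk μ) = 2 * ∑ i, μ i := by
    simp [Fintype.card_sigma, two_mul]
  have hDL : ∀ (b : Unk μ → K) k, DL (DDl μ p R h b k) (δ + 1 + e) := fun b k =>
    hM ▸ DL_DD H.mon p H.degR (fun i => DL_pol _) (fun i => DL_pol _) k
  refine ⟨ρ, Γ, hpre, ?_, ?_⟩
  · have hs := (rigid_iff hM H.mon H.degR).1 H.rigid
    set L0 := (hiCoeff κ (δ + 1) e).comp (DDl μ p R h) with hL0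
    have hk : Module.finrank K (LinearMap.ker L0) = 4 := by
      have := LinearMap.finrank_range_add_finrank_ker L0
      rw [LinearMap.range_eq_top.2 hs, finrank_top, Module.finrank_fintype_fun_eq_card,
        Module.finrank_fintype_fun_eq_card, hcard, hM', Fintype.card_prod, Fintype.card_fin] at this
      omega
    let E : (Fin 4 → K) ≃ₗ[K] LinearMap.ker L0 := LinearEquiv.ofFinrankEq _ _ (by simp [hk])
    refine ⟨(DDl μ p R h).comp ((LinearMap.ker L0).subtype.comp E.toLinearMap), fun x hx hxd => ?_⟩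
    choose a c hac using hx
    choose a' hd ha hhd using fun i => (H.mon i).div' (a i)
    choose c' hc' using fun i => DD_mod p R h 0 hd i
    choose u v huv using fun i => isCoprime_Hi H.cop i
    choose r' Rd hr hRd using fun i => (H.mon i).div' (u i * (c i + a i * q i - c' i))
    obtain ⟨b, hb1, hb2⟩ := exists_unk hRd hhd
    have hxb : DDl μ p R h b = x := by
      funext k
      show DD p R h (uR b) (uh b) k = x k
      rw [hb1, hb2, eq_comm, ← sub_eq_zero]
      refine (Mon.prod (s := Finset.univ) fun i _ => H.mon i).eq_zero_of_dvd ?_ ?_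
      · refine Fintype.prod_dvd_of_coprime (fun i j hij => H.cop i j hij) fun i => ?_
        have e1 : DD p R h Rd hd k = ff p Rd h k + DD p R h 0 hd k := by
          simp [DD, ff]
        obtain ⟨s1, hs1⟩ := hac i k
        obtain ⟨s2, hs2⟩ := (hc' i k).1
        refine ⟨s1 - s2 - GG p Rd h i k + a' i * GG p R h i k + C (p i k) * (r' i * Hi h i +
          v i * (c i + a i * q i - c' i)), ?_⟩
        rw [e1, ff_eq p Rd h i k]
        have hRd' : Rd i = u i * (c i + a i * q i - c' i) - h i * r' i := by rw [hr i]; ring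
        have hhd' : hd i = a i - h i * a' i := by rw [ha i]; ring
        simp only [Γ, Pi.zero_apply, zero_mul, zero_add] at hs1 hs2
        rw [hhd'] at hs2
        rw [hRd']
        linear_combination hs1 - hs2 - C (p i k) * (c i + a i * q i - c' i) * huv i
      · exact ((hxd k).mono (by omega)).sub (DL_DD H.mon p H.degR hRd hhd k)
    have hb : b ∈ LinearMap.ker L0 := by
      rw [LinearMap.mem_ker, hL0, LinearMap.comp_apply, hiCoeff_eq_zero (hDL b), hxb]
      exact hxd
    exact ⟨E.symm ⟨b, hb⟩, by simp [hxb]⟩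
  · obtain ⟨e', rfl⟩ : ∃ e', e = e' + 1 := ⟨e - 1, by omega⟩
    set L1 := (hiCoeff κ (δ + 2) e').comp (DDl μ p R h) with hL1
    have hk : Fintype.card κ + 4 ≤ Module.finrank K (LinearMap.ker L1) := by
      have h1 := LinearMap.finrank_range_add_finrank_ker L1
      have h2 := Submodule.finrank_le (LinearMap.range L1)
      rw [Module.finrank_fintype_fun_eq_card, hcard, hM'] at h1
      rw [Module.finrank_fintype_fun_eq_card, Fintype.card_prod, Fintype.card_fin] at h2
      rw [mul_add] at h1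
      omega
    obtain ⟨w, hw⟩ := exists_linearIndependent_of_le_finrank hk
    have hinj : Function.Injective (DDl μ p R h) := by
      rw [← LinearMap.ker_eq_bot, LinearMap.ker_eq_bot']
      intro b hb
      choose c' hc' using fun i => DD_mod p R h (uR b) (uh b) i
      have hb' : ∀ k, DD p R h (uR b) (uh b) k = 0 := fun k => congrFun hb k
      have h1 : ∀ i, uh b i = 0 := by
        intro i
        refine (H.mon i).eq_zero_of_dvd ?_ (DL_pol _)
        refine hpre.unimod i (c := uR b i * Hi h i + c' i - uh b i * q i) fun k => ?_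
        have := (hc' i k).1
        rw [hb' k, ← dvd_neg] at this
        convert this using 1
        simp only [Γ]; ring
      have h2 : ∀ i, uR b i = 0 := by
        intro i
        refine (H.mon i).eq_zero_of_dvd ?_ (DL_pol _)
        obtain ⟨k, hk⟩ : ∃ k, p i k ≠ 0 := Function.ne_iff.1 (ne i)
        have := (hc' i k).1
        rw [hb' k, (hc' i k).2 h1, h1 i, ← dvd_neg] at this
        apply (isCoprime_Hi H.cop i).symm.dvd_of_dvd_mul_right
        have h3 := this.mul_right (C (p i k)⁻¹)
        convert h3 using 1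
        have : C (p i k) * C (p i k)⁻¹ = 1 := by rw [← C_mul, mul_inv_cancel₀ hk, C_1]
        linear_combination (-(uR b i * Hi h i)) * this
      funext x
      rcases x with ⟨i, a⟩ | ⟨i, a⟩
      · exact congrFun (pol_eq_zero (h2 i)) a
      · exact congrFun (pol_eq_zero (h1 i)) a
    refine ⟨(DDl μ p R h).comp ((LinearMap.ker L1).subtype.comp (Fintype.linearCombination K w)),
      hinj.comp ((LinearMap.ker L1).injective_subtype.comp
        (linearIndependent_iff_injective_fintypeLinearCombination.1 hw)), fun v => ?_⟩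
    set b := Fintype.linearCombination K w v
    constructor
    · intro i
      obtain ⟨c', hc'⟩ := DD_mod p R h (uR b.1) (uh b.1) i
      refine ⟨uh b.1 i, uR b.1 i * Hi h i + c' - uh b.1 i * q i, fun k => ?_⟩
      convert (hc' k).1 using 1
      show DD p R h (uR b.1) (uh b.1) k - _ - _ = _
      simp only [Γ]; ring
    · have hb : hiCoeff κ (δ + 2) e' (DDl μ p R h b.1) = 0 := b.2
      rw [hiCoeff_eq_zero fun k => (hDL b.1 k).mono (by omega)] at hb
      exact hb

theorem GeomData.reindex {ι' κ' : Type} [Fintype ι'] [DecidableEq ι'] [Fintype κ']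
    (H : GeomData μ δ D ext p h ρ Γ f) (eι : ι' ≃ ι) (eκ : κ' ≃ κ) :
    GeomData (μ ∘ eι) δ D (fun i => ext (eι i)) (fun i k => p (eι i) (eκ k)) (h ∘ eι) (ρ ∘ eι)
      (fun i k => Γ (eι i) (eκ k)) (f ∘ eκ) := by
  have hBB : ∀ {S : Type} [CommRing S] [Algebra K S] (B : κ → κ → K) (x y : κ → S),
      BB (fun k l => B (eκ k) (eκ l)) (fun k => x (eκ k)) (fun k => y (eκ k)) = BB B x y := by
    intro S _ _ B x y
    unfold BB
    rw [← eκ.sum_comp]
    refine Finset.sum_congr rfl fun k _ => ?_
    rw [← eκ.sum_comp]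
  let T : (κ → K[X]) ≃ₗ[K] (κ' → K[X]) := LinearEquiv.funCongrLeft K K[X] eκ
  refine { mon := fun i => H.mon _, lt := fun i => H.lt _, degf := fun k => H.degf _
           degρ := fun i => H.degρ _, eq := fun i k => H.eq _ _
           cop := fun i j hij => H.cop _ _ (eι.injective.ne hij), copρ := fun i => H.copρ _
           indep := fun i j hij => ?_, ne := fun i => ?_, Dpos := H.Dpos, hD := ?_
           quad := fun w hw => ?_, E0 := ?_, E1 := ?_ }
  · obtain ⟨k, l, hkl⟩ := H.indep _ _ (eι.injective.ne hij)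
    exact ⟨eκ.symm k, eκ.symm l, by simpa using hkl⟩
  · obtain ⟨k, hk⟩ : ∃ k, p (eι i) k ≠ 0 := Function.ne_iff.1 (H.ne _)
    exact Function.ne_iff.2 ⟨eκ.symm k, by simpa using hk⟩
  · rw [H.hD, ← eι.sum_comp μ, ← eι.sum_comp fun i => if ext i then μ i else 0]
    rfl
  · obtain ⟨B, hB, hw⟩ := H.quad w hw
    refine ⟨fun k l => B (eκ k) (eκ l), ⟨fun i => ?_, fun i hi => ⟨fun k => ?_, fun l => ?_⟩⟩, ?_⟩
    · rw [hBB B (p (eι i)) (p (eι i)), hB.1]
    · rw [eκ.sum_comp fun l => B (eκ k) l * p (eι i) l, (hB.2 _ hi).1]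
    · rw [eκ.sum_comp fun k => B k (eκ l) * p (eι i) k, (hB.2 _ hi).2]
    · refine (hBB B f f).trans (hw.trans ?_)
      unfold Tot
      rw [← eι.prod_comp h, ← eι.prod_comp fun j => if ext j then h j else 1]
      rfl
  · obtain ⟨L, hL⟩ := H.E0
    refine ⟨T.toLinearMap.comp L, fun x hx hxd => ?_⟩
    obtain ⟨v, hv⟩ := hL (fun k => x (eκ.symm k)) (fun i => by
      obtain ⟨a, c, hac⟩ := hx (eι.symm i)
      exact ⟨a, c, fun k => by simpa using hac (eκ.symm k)⟩) (fun k => hxd _)
    refine ⟨v, ?_⟩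
    funext k
    show L v (eκ k) = x k
    rw [hv]; simp
  · obtain ⟨L, hL, hL'⟩ := H.E1
    rw [Fintype.card_congr eκ]
    refine ⟨T.toLinearMap.comp L, T.injective.comp hL, fun v => ⟨fun i => ?_, fun k => ?_⟩⟩
    · obtain ⟨a, c, hac⟩ := (hL' v).1 (eι i)
      exact ⟨a, c, fun k => hac (eκ k)⟩
    · exact (hL' v).2 (eκ k)

end data

end Pool.Agent.H265Z
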