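import Mathlib

/-!
# `(-1)`-curves and `(-1)`-Weyl lines on blow-ups of projective space at points

Everything is written in homogeneous coordinates.

* The blow-up `X` of `ℙⁿ` at distinct points `p_1, …, p_s` is the closure of the graph of the
  linear projections `π_i : ℙⁿ ⇢ ℙⁿ⁻¹` from the points, that is
  `X = {(x, y_1, …, y_s) ∈ ℙⁿ × (ℙⁿ⁻¹)^s | π_i x ∧ y_i = 0 for all i}`.
  It is the quotient of its multi-cone `cone ⊆ ℂⁿ⁺¹ × (ℂⁿ)^s` by the free action of the torus
  `(ℂˣ)^{1+s}`.  The `2 × 2` minors of `(π_i x, y_i)` define `X` as a scheme, so the tangent space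
  of the cone at `q` is the kernel `tangent q` of their differentials, and
  `T_{[q]} X = tangent q / torusDir q`.
* A morphism `φ : ℙ¹ → X` is given by binary forms `f` of degree `d` and `g_i` of degree `e_i`
  with `(f, g)(z) ∈ cone` for all `z ≠ 0`.  Since `H` is the pull-back of `O(1)` from `ℙⁿ` and
  `H - E_i` is the pull-back of `O(1)` from the `i`-th factor `ℙⁿ⁻¹`, the class `δ h - ∑ μ_i e_i` of
  the curve has `δ = d` and `δ - μ_i = e_i`.
* The fibre of the normal bundle `N = φ^* T_X / T_{ℙ¹}` over `[z]` is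
  `tangent (φ z) / (torusDir (φ z) + dφ_z (ℂ²))`.  A tuple of forms of degrees `d + 1`, `e_i + 1`
  whose values are tangent to the cone is a global section of `N(1)` (and every global section of
  `N(1)` arises in this way), and `N ≅ O(-1)^{n-1}` means that `N(1)` has `n - 1` global sections
  which form a basis of every fibre.
-/

set_option autoImplicit false

namespace Pool.Agent.H265Z

open MvPolynomial

/-- The ambient space `ℂⁿ⁺¹ × (ℂⁿ)^s` of homogeneous coordinates of `ℙⁿ × (ℙⁿ⁻¹)^s`. -/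
abbrev Amb (n s : ℕ) : Type := (Fin (n + 1) → ℂ) × (Fin s → Fin n → ℂ)

/-- The family `π` of linear maps `ℂⁿ⁺¹ → ℂⁿ` consists of projections from the points `p i`. -/
def IsProjFrom {n s : ℕ} (p : Fin s → Fin (n + 1) → ℂ)
    (π : Fin s → (Fin (n + 1) → ℂ) →ₗ[ℂ] (Fin n → ℂ)) : Prop :=
  ∀ i, Function.Surjective (π i) ∧ LinearMap.ker (π i) = Submodule.span ℂ {p i}

section blowup

variable {n s : ℕ} (π : Fin s → (Fin (n + 1) → ℂ) →ₗ[ℂ] (Fin n → ℂ))

/-- The multi-cone over the blow-up `X ⊆ ℙⁿ × (ℙⁿ⁻¹)^s`. -/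
def cone : Set (Amb n s) :=
  {q | q.1 ≠ 0 ∧ ∀ i, q.2 i ≠ 0 ∧ ∀ a b, π i q.1 a * q.2 i b - π i q.1 b * q.2 i a = 0}

/-- The tangent space of the multi-cone at `q`: the kernel of the differentials at `q` of the
defining equations `π_i(x)_a y_{i,b} - π_i(x)_b y_{i,a}`. -/
def tangent (q : Amb n s) : Set (Amb n s) :=
  {v | ∀ i a b, π i v.1 a * q.2 i b + π i q.1 a * v.2 i b
    - (π i v.1 b * q.2 i a + π i q.1 b * v.2 i a) = 0}

end blowup

/-- The action of a tuple of scalars `(c, d_1, …, d_s)` on homogeneous coordinates. -/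
def scale {n s : ℕ} (c : ℂ) (d : Fin s → ℂ) (q : Amb n s) : Amb n s :=
  (c • q.1, fun i => d i • q.2 i)

/-- `q` and `q'` are coordinates of the same point of `ℙⁿ × (ℙⁿ⁻¹)^s`. -/
def SamePoint {n s : ℕ} (q q' : Amb n s) : Prop :=
  ∃ (c : ℂ) (d : Fin s → ℂ), c ≠ 0 ∧ (∀ i, d i ≠ 0) ∧ q' = scale c d q

/-- The tangent space at `q` of the torus orbit of `q`. -/
def torusDir {n s : ℕ} (q : Amb n s) : Set (Amb n s) :=
  {v | ∃ (c : ℂ) (d : Fin s → ℂ), v = scale c d q}

/-- Tuples `(f, g_1, …, g_s)` of vectors of polynomials in two variables. -/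
abbrev Forms (n s : ℕ) : Type :=
  (Fin (n + 1) → MvPolynomial (Fin 2) ℂ) × (Fin s → Fin n → MvPolynomial (Fin 2) ℂ)

/-- The entries of `f` are binary forms of degree `d`, those of `g_i` of degree `e i`. -/
def HasDegrees {n s : ℕ} (F : Forms n s) (d : ℕ) (e : Fin s → ℕ) : Prop :=
  (∀ k, (F.1 k).IsHomogeneous d) ∧ ∀ i a, (F.2 i a).IsHomogeneous (e i)

/-- The value of `F` at `z ∈ ℂ²`. -/
noncomputable def value {n s : ℕ} (F : Forms n s) (z : Fin 2 → ℂ) : Amb n s :=
  (fun k => eval z (F.1 k), fun i a => eval z (F.2 i a))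

/-- The differential of `F` at `z ∈ ℂ²` applied to `w ∈ ℂ²`. -/
noncomputable def diff {n s : ℕ} (F : Forms n s) (z w : Fin 2 → ℂ) : Amb n s :=
  (fun k => ∑ j, w j * eval z (pderiv j (F.1 k)),
    fun i a => ∑ j, w j * eval z (pderiv j (F.2 i a)))

/-- The vectors that vanish in the fibre over `[z]` of the normal bundle: torus directions plus
the image of the differential of `F` at `z`. -/
def trivialDir {n s : ℕ} (F : Forms n s) (z : Fin 2 → ℂ) : Set (Amb n s) :=
  {v | ∃ t ∈ torusDir (value F z), ∃ w : Fin 2 → ℂ, v = t + diff F z w}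

/-- Curve classes: `(δ, μ)` stands for `δ h - ∑ μ_i e_i`. -/
abbrev CurveClass (s : ℕ) : Type := ℤ × (Fin s → ℤ)

/-- `X` (given by the projections `π`) contains a `(-1)`-curve of class `c`: the image of a closed
embedding `φ : ℙ¹ → X` (a morphism that is injective and an immersion) of class `c` whose normal
bundle is `O(-1)^{n-1}`. -/
def HasMinusOneCurve {n s : ℕ} (π : Fin s → (Fin (n + 1) → ℂ) →ₗ[ℂ] (Fin n → ℂ))
    (c : CurveClass s) : Prop :=
  ∃ (F : Forms n s) (d : ℕ) (e : Fin s → ℕ), HasDegrees F d e ∧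
    c = ((d : ℤ), fun i => (d : ℤ) - e i) ∧
    (∀ z, z ≠ 0 → value F z ∈ cone π) ∧
    (∀ z z', z ≠ 0 → z' ≠ 0 → SamePoint (value F z) (value F z') → ∃ a : ℂ, z' = a • z) ∧
    (∀ z w, z ≠ 0 → diff F z w ∈ torusDir (value F z) → ∃ a : ℂ, w = a • z) ∧
    ∃ σ : Fin (n - 1) → Forms n s, (∀ j, HasDegrees (σ j) (d + 1) fun i => e i + 1) ∧
      ∀ z, z ≠ 0 →
        (∀ j, value (σ j) z ∈ tangent π (value F z)) ∧
        (∀ a : Fin (n - 1) → ℂ, ∑ j, a j • value (σ j) z ∈ trivialDir F z → a = 0) ∧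
        ∀ v ∈ tangent π (value F z), ∃ a : Fin (n - 1) → ℂ,
          v - ∑ j, a j • value (σ j) z ∈ trivialDir F z

/-- The action on curve classes of the standard Cremona transformation based at `Γ`. -/
def cremona (n : ℕ) {s : ℕ} (Γ : Finset (Fin s)) (c : CurveClass s) : CurveClass s :=
  (c.1 + ((n : ℤ) - 1) * (c.1 - ∑ i ∈ Γ, c.2 i),
    fun i => if i ∈ Γ then c.2 i + (c.1 - ∑ i ∈ Γ, c.2 i) else c.2 i)

/-- `c` and `c'` lie in the same orbit of the Weyl group `W^n_s`, the group generated by the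
Cremona maps based at the `(n+1)`-element subsets `Γ`. -/
def SameWeylOrbit (n : ℕ) {s : ℕ} (c c' : CurveClass s) : Prop :=
  Relation.EqvGen (fun a b => ∃ Γ : Finset (Fin s), Γ.card = n + 1 ∧ b = cremona n Γ a) c c'

/-- `c` lies in the Weyl orbit of the class `h - e_i - e_j` of a line through two of the points.
(The `(-1)`-Weyl lines are the effective classes with this property.) -/
def InWeylLineOrbit (n : ℕ) {s : ℕ} (c : CurveClass s) : Prop :=
  ∃ i j : Fin s, i ≠ j ∧
    SameWeylOrbit n ((1 : ℤ), fun k => if k = i ∨ k = j then (1 : ℤ) else 0) c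

/-- For `s` points of `ℙⁿ` in general position (outside a hypersurface `Q = 0` of the space of
`s`-tuples of vectors), the points are distinct and the blow-up `X^n_s` contains a `(-1)`-curve of
class `c`. -/
def GeneralBlowupHas (n s : ℕ) (c : CurveClass s) : Prop :=
  ∃ Q : MvPolynomial (Fin s × Fin (n + 1)) ℂ, Q ≠ 0 ∧
    ∀ p : Fin s → Fin (n + 1) → ℂ, eval (fun ik => p ik.1 ik.2) Q ≠ 0 →
      (∀ i j, i ≠ j → LinearIndependent ℂ ![p i, p j]) ∧
      ∀ π, IsProjFrom p π → HasMinusOneCurve π c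

end Pool.Agent.H265Z
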