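import Pool.Agent.H265Z.Data

/-!
# The curve is embedded in the blow-up
-/

set_option autoImplicit false
set_option linter.unusedSectionVars false

namespace Pool.Agent.H265Z

open Polynomial

section homog

variable {K : Type} [Field K]

/-- binary forms -/
abbrev BF (K : Type) [Field K] : Type := MvPolynomial (Fin 2) K

lemma homog_ext {Φ Ψ : BF K} {n : ℕ} (h1 : Φ.IsHomogeneous n) (h2 : Ψ.IsHomogeneous n)
    (h : MvPolynomial.aeval ![X, (1 : K[X])] Φ = MvPolynomial.aeval ![X, (1 : K[X])] Ψ) :
    Φ = Ψ := by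
  rw [← homogenize_eq_of_isHomogeneous h1 rfl, ← homogenize_eq_of_isHomogeneous h2 rfl, h]

lemma dehom {P : K[X]} {n : ℕ} (h : DL P (n + 1)) :
    MvPolynomial.aeval ![X, (1 : K[X])] (P.homogenize n) = P :=
  aeval_homogenize_X_one P h.natDegree_le

lemma eval_fin {P : K[X]} {n : ℕ} (h : DL P (n + 1)) {z : Fin 2 → K} (hz : z 1 ≠ 0) :
    MvPolynomial.eval z (P.homogenize n) = P.eval (z 0 / z 1) * z 1 ^ n :=
  eval_homogenize h.natDegree_le z hz

lemma eval_inf (P : K[X]) (n : ℕ) {z : Fin 2 → K} (hz : z 1 = 0) :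
    MvPolynomial.eval z (P.homogenize n) = P.coeff n * z 0 ^ n := by
  simp only [homogenize, Finset.Nat.sum_antidiagonal_eq_sum_range_succ_mk, MvPolynomial.eval_sum]
  rw [Finset.sum_range_succ, Finset.sum_eq_zero, zero_add]
  · rw [MvPolynomial.eval_monomial, Finsupp.update_eq_add_single, Finsupp.prod_add_index',
      Finsupp.prod_single_index, Finsupp.prod_single_index]
    all_goals simp_all [pow_add]
  · intro k hk
    have : n - k ≠ 0 := by have := Finset.mem_range.1 hk; omega
    rw [MvPolynomial.eval_monomial, Finsupp.update_eq_add_single, Finsupp.prod_add_index',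
      Finsupp.prod_single_index, Finsupp.prod_single_index]
    all_goals simp_all [pow_add]

lemma ne_zero_cases {z : Fin 2 → K} (hz : z ≠ 0) (h1 : z 1 = 0) : z 0 ≠ 0 := by
  intro h0
  apply hz
  funext j
  fin_cases j
  · exact h0
  · exact h1

lemma Mon.fin_of_eval {h : K[X]} {m : ℕ} (H : Mon h m) {z : Fin 2 → K} (hz : z ≠ 0)
    (h0 : MvPolynomial.eval z (h.homogenize m) = 0) : z 1 ≠ 0 := by
  intro h1
  rw [eval_inf _ _ h1, H.coeff, one_mul] at h0
  exact pow_ne_zero _ (ne_zero_cases hz h1) h0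

lemma Mon.eval_ne {h P : K[X]} {m d : ℕ} (H : Mon h m) (hP : DL P (d + 1)) (hc : IsCoprime P h)
    {z : Fin 2 → K} (hz : z ≠ 0) (h0 : MvPolynomial.eval z (h.homogenize m) = 0) :
    MvPolynomial.eval z (P.homogenize d) ≠ 0 := by
  have h1 := H.fin_of_eval hz h0
  rw [eval_fin H.dl h1] at h0
  rw [eval_fin hP h1]
  intro h2
  have e1 := (mul_eq_zero.1 h0).resolve_right (pow_ne_zero _ h1)
  have e2 := (mul_eq_zero.1 h2).resolve_right (pow_ne_zero _ h1)
  have := hc.map (evalRingHom (z 0 / z 1))
  simp only [coe_evalRingHom, e1, e2] at this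
  exact not_isCoprime_zero_zero this

lemma Mon.homog_ne_zero {h : K[X]} {m : ℕ} (H : Mon h m) : h.homogenize m ≠ 0 := by
  rw [Ne, homogenize_eq_zero_iff H.dl.natDegree_le]
  exact H.monic.ne_zero

lemma exists_form_ne {z : Fin 2 → K} (hz : z ≠ 0) (D : ℕ) :
    ∃ w : K[X], DL w (D + 1) ∧ MvPolynomial.eval z (w.homogenize D) ≠ 0 := by
  by_cases h1 : z 1 = 0
  · refine ⟨X ^ D, DL_X_pow D, ?_⟩
    rw [eval_inf _ _ h1]
    simpa using pow_ne_zero D (ne_zero_cases hz h1)
  · exact ⟨1, DL_one.mono (by omega), by simpa using fun h => absurd h h1⟩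

end homog

/-- matrices of a projection `P` from `q`, a section `σ` and a coordinate `θ` along `q` -/
structure ProjData {K κ κ' : Type} [Field K] [Fintype κ] [DecidableEq κ] [Fintype κ']
    (q : κ → K) (P : κ' → κ → K) (σ : κ → κ' → K) (θ : κ → K) : Prop where
  kill : ∀ a, ∑ k, P a k * q k = 0
  dec : ∀ k l, (if k = l then 1 else 0) = ∑ a, σ k a * P a l + q k * θ l
  one : ∑ l, θ l * q l = 1

section

variable {K ι κ κ' : Type} [Field K] [Fintype ι] [DecidableEq ι] [Fintype κ] [DecidableEq κ]
  [Fintype κ']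

/-- apply a matrix over `K` to a vector over a `K`-algebra -/
noncomputable def app {S α β : Type} [CommRing S] [Algebra K S] [Fintype β] (P : α → β → K)
    (x : β → S) (a : α) : S := ∑ k, algebraMap K S (P a k) * x k

lemma map_app {S T α β : Type} [CommRing S] [Algebra K S] [CommRing T] [Algebra K T] [Fintype β]
    (φ : S →ₐ[K] T) (P : α → β → K) (x : β → S) (a : α) :
    φ (app P x a) = app P (fun k => φ (x k)) a := by
  simp [app]

lemma app_lin {S α β : Type} [CommRing S] [Algebra K S] [Fintype β] (P : α → β → K)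
    (u v : S) (x y : β → S) (a : α) :
    app P (fun k => u * x k + v * y k) a = u * app P x a + v * app P y a := by
  simp only [app, Finset.mul_sum, ← Finset.sum_add_distrib]
  exact Finset.sum_congr rfl fun k _ => by ring

lemma app_mul {S α β : Type} [CommRing S] [Algebra K S] [Fintype β] (P : α → β → K)
    (u : S) (x : β → S) (a : α) : app P (fun k => u * x k) a = u * app P x a := by
  simpa using app_lin P u 0 x x a

lemma app_algebraMap {S α β : Type} [CommRing S] [Algebra K S] [Fintype β] (P : α → β → K)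
    (x : β → K) (a : α) :
    app P (fun k => algebraMap K S (x k)) a = algebraMap K S (app P x a) := by
  simp [app]

lemma ProjData.app_q {q : κ → K} {P : κ' → κ → K} {σ : κ → κ' → K} {θ : κ → K}
    (H : ProjData q P σ θ) (S : Type) [CommRing S] [Algebra K S] (a : κ') :
    app P (fun k => algebraMap K S (q k)) a = 0 := by
  rw [app_algebraMap]
  have : app P q a = 0 := by simpa [app] using H.kill a
  rw [this, map_zero]

lemma ProjData.decomp {q : κ → K} {P : κ' → κ → K} {σ : κ → κ' → K} {θ : κ → K}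
    (H : ProjData q P σ θ) {S : Type} [CommRing S] [Algebra K S] (x : κ → S) (k : κ) :
    x k = app σ (app P x) k + (∑ l, algebraMap K S (θ l) * x l) * algebraMap K S (q k) := by
  have : x k = ∑ l, algebraMap K S (if k = l then 1 else 0) * x l := by
    simp [apply_ite (algebraMap K S)]
  rw [this]
  simp only [H.dec, map_add, map_sum, map_mul, add_mul, Finset.sum_add_distrib, app,
    Finset.sum_mul, Finset.mul_sum]
  congr 1
  · rw [Finset.sum_comm]
    exact Finset.sum_congr rfl fun a _ => Finset.sum_congr rfl fun l _ => by ring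
  · exact Finset.sum_congr rfl fun l _ => by ring

variable {μ : ι → ℕ} {δ D : ℕ} {ext : ι → Prop} [DecidablePred ext] {p : ι → κ → K}
  {h ρ : ι → K[X]} {Γ : ι → κ → K[X]} {f : κ → K[X]}

lemma Pre.degΓ (H : Pre μ δ D ext p h ρ Γ f) (i : ι) (k : κ) : DL (Γ i k) (δ - μ i + 1) := by
  apply (H.mon i).cancel
  have : h i * Γ i k = f k - ρ i * C (p i k) := by rw [H.eq i k]; ring
  have hl := H.lt i
  rw [this]
  exact ((H.degf k).mono (by omega)).sub (((H.degρ i).mul_C _).mono (by omega))

lemma Pre.degρ' (H : Pre μ δ D ext p h ρ Γ f) (i : ι) : DL (ρ i) (δ + 1) :=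
  (H.degρ i).mono (by have := H.lt i; omega)

lemma Pre.eqH (H : Pre μ δ D ext p h ρ Γ f) (i : ι) (k : κ) :
    (f k).homogenize δ = (h i).homogenize (μ i) * (Γ i k).homogenize (δ - μ i) +
      (ρ i).homogenize δ * algebraMap K (BF K) (p i k) := by
  have hl := H.lt i
  rw [← homogenize_mul _ _ (H.mon i).dl.natDegree_le (H.degΓ i k).natDegree_le,
    show μ i + (δ - μ i) = δ by omega, H.eq i k, homogenize_add, mul_comm (ρ i),
    homogenize_C_mul, mul_comm (MvPolynomial.C _)]
  rfl

lemma Pre.quadH (H : Pre μ δ D ext p h ρ Γ f) {w : K[X]} (hw : DL w (D + 1)) :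
    ∃ B : κ → κ → K, Adm ext p B ∧
      BB B (fun k => (f k).homogenize δ) (fun k => (f k).homogenize δ) =
        Tot ext (fun i => (h i).homogenize (μ i)) * w.homogenize D := by
  obtain ⟨B, hB, hq⟩ := H.quad w hw
  refine ⟨B, hB, homog_ext (n := 2 * δ) ?_ ?_ ?_⟩
  · refine MvPolynomial.IsHomogeneous.sum _ _ _ fun k _ =>
      MvPolynomial.IsHomogeneous.sum _ _ _ fun l _ => ?_
    rw [two_mul]
    exact ((isHomogeneous_homogenize _).mul (isHomogeneous_homogenize _)).C_mul _
  · rw [H.hD]
    refine MvPolynomial.IsHomogeneous.mul (MvPolynomial.IsHomogeneous.mul ?_ ?_)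
      (isHomogeneous_homogenize _)
    · exact MvPolynomial.IsHomogeneous.prod _ _ _ fun i _ => isHomogeneous_homogenize _
    · refine MvPolynomial.IsHomogeneous.prod _ _ _ fun i _ => ?_
      split_ifs
      · exact isHomogeneous_homogenize _
      · exact MvPolynomial.isHomogeneous_one _ _
  · rw [map_BB, map_mul, dehom hw]
    have := map_Tot (MvPolynomial.aeval (R := K) ![X, (1 : K[X])]).toRingHom ext
      (fun i => (h i).homogenize (μ i))
    simp only [AlgHom.toRingHom_eq_coe, RingHom.coe_coe] at this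
    rw [this]
    simp only [dehom (H.degf _), dehom (H.mon _).dl]
    exact hq

/-- the basic identities after applying an algebra homomorphism -/
lemma Pre.quadA (H : Pre μ δ D ext p h ρ Γ f) {w : K[X]} (hw : DL w (D + 1)) :
    ∃ B : κ → κ → K, Adm ext p B ∧ ∀ {A : Type} [CommRing A] [Algebra K A] (φ : BF K →ₐ[K] A),
      BB B (fun k => φ ((f k).homogenize δ)) (fun k => φ ((f k).homogenize δ)) =
        Tot ext (fun i => φ ((h i).homogenize (μ i))) * φ (w.homogenize D) ∧
      ∀ i, φ ((h i).homogenize (μ i)) = 0 → ∀ (d t : A) (y : κ → K),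
        (∀ k, φ ((Γ i k).homogenize (δ - μ i)) =
          d * algebraMap K A (y k) + t * algebraMap K A (p i k)) →
        (if ext i then d ^ 2 * algebraMap K A (BB B y y) else
          φ ((ρ i).homogenize δ) * d * algebraMap K A (BB B y (p i) + BB B (p i) y)) =
        Cof ext (fun i => φ ((h i).homogenize (μ i))) i * φ (w.homogenize D) := by
  obtain ⟨B, hB, hq⟩ := H.quadH hw
  refine ⟨B, hB, fun {A} _ _ φ => ⟨?_, fun i hi d t y hy => ?_⟩⟩
  · have := congrArg φ hq
    rw [map_BB, map_mul] at this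
    exact this.trans (congrArg (· * _) (map_Tot φ.toRingHom ext _))
  · have key := quad_div hB (h := fun i => (h i).homogenize (μ i)) (i := i)
      (fun a b => mul_left_cancel₀ (H.mon i).homog_ne_zero) (H.eqH i) hq
    have key2 := congrArg φ key
    rw [map_mul] at key2
    refine Eq.trans ?_ (key2.trans (congrArg (· * _) (map_Cof φ.toRingHom ext _ i)))
    have h0 : BB B (fun k => algebraMap K A (p i k)) (fun k => algebraMap K A (p i k)) = 0 := by
      rw [BB_algebraMap, hB.1 i, map_zero]
    split_ifs with he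
    · rw [map_BB, funext hy, BB_expand, BB_zero_right B _ (hB.2 i he).1,
        BB_zero_left B _ (hB.2 i he).2, h0, BB_algebraMap]
      ring
    · simp only [map_add, map_mul, map_BB, AlgHom.commutes, hi, funext hy, BB_left, BB_right, h0,
        BB_algebraMap]
      ring

variable {P : ι → κ' → κ → K} {σ : ι → κ → κ' → K} {θ : ι → κ → K}

lemma Pre.f_ne (H : Pre μ δ D ext p h ρ Γ f) {z : Fin 2 → K} (hz : z ≠ 0) :
    (fun k => MvPolynomial.eval z ((f k).homogenize δ)) ≠ 0 := by
  intro h0
  by_cases hη : ∃ i, MvPolynomial.eval z ((h i).homogenize (μ i)) = 0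
  · obtain ⟨i, hi⟩ := hη
    obtain ⟨k, hk⟩ : ∃ k, p i k ≠ 0 := Function.ne_iff.1 (H.ne i)
    have h1 : MvPolynomial.eval z ((f k).homogenize δ) = 0 := congrFun h0 k
    rw [H.eqH i k, map_add, map_mul, map_mul, hi, zero_mul, zero_add] at h1
    exact mul_ne_zero ((H.mon i).eval_ne (H.degρ' i) (H.copρ i) hz hi) (by simpa using hk) h1
  · push Not at hη
    obtain ⟨w, hw, hw0⟩ := exists_form_ne hz D
    obtain ⟨B, -, hB⟩ := H.quadA hw
    have := (hB (MvPolynomial.aeval z)).1
    simp only [MvPolynomial.aeval_eq_eval] at this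
    rw [h0] at this
    have hu := isUnit_Tot ext (h := fun i => MvPolynomial.eval z ((h i).homogenize (μ i)))
      fun i => (hη i).isUnit
    exact mul_ne_zero hu.ne_zero hw0 (by rw [← this]; simp [BB])

lemma Pre.eta_ne (H : Pre μ δ D ext p h ρ Γ f) {z : Fin 2 → K} (hz : z ≠ 0) {i j : ι}
    (hij : j ≠ i) (hi : MvPolynomial.eval z ((h i).homogenize (μ i)) = 0) :
    MvPolynomial.eval z ((h j).homogenize (μ j)) ≠ 0 :=
  (H.mon i).eval_ne (H.mon j).dl (H.cop j i hij) hz hi

lemma Pre.g_ne (H : Pre μ δ D ext p h ρ Γ f) (PD : ∀ i, ProjData (p i) (P i) (σ i) (θ i))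
    {z : Fin 2 → K} (hz : z ≠ 0) (i : ι) :
    app (P i) (fun k => MvPolynomial.eval z ((Γ i k).homogenize (δ - μ i))) ≠ 0 := by
  intro h0
  obtain ⟨w, hw, hw0⟩ := exists_form_ne hz D
  obtain ⟨B, hB0, hB⟩ := H.quadA hw
  obtain ⟨t, ht⟩ : ∃ t : K, ∀ k, MvPolynomial.eval z ((Γ i k).homogenize (δ - μ i)) =
      t * p i k := by
    refine ⟨∑ l, algebraMap K K (θ i l) * MvPolynomial.eval z ((Γ i l).homogenize (δ - μ i)),
      fun k => ((PD i).decomp (S := K)
        (fun k => MvPolynomial.eval z ((Γ i k).homogenize (δ - μ i))) k).trans ?_⟩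
    rw [h0]
    simp only [app, Pi.zero_apply, mul_zero, Finset.sum_const_zero, zero_add]
    rfl
  obtain ⟨h1, h2⟩ := hB (MvPolynomial.aeval z)
  simp only [MvPolynomial.aeval_eq_eval] at h1 h2
  by_cases hi : MvPolynomial.eval z ((h i).homogenize (μ i)) = 0
  · have := h2 i hi 0 t 0 (by simpa using ht)
    have hu := isUnit_Cof ext (h := fun i => MvPolynomial.eval z ((h i).homogenize (μ i)))
      (i := i) fun j hj => (H.eta_ne hz hj hi).isUnit
    exact mul_ne_zero hu.ne_zero hw0 (by rw [← this]; simp)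
  · obtain ⟨r, hr⟩ : ∃ r : K, ∀ k, MvPolynomial.eval z ((f k).homogenize δ) = r * p i k := by
      refine ⟨MvPolynomial.eval z ((h i).homogenize (μ i)) * t +
        MvPolynomial.eval z ((ρ i).homogenize δ), fun k => ?_⟩
      rw [H.eqH i k, map_add, map_mul, map_mul, ht]
      simp; ring
    by_cases hη : ∃ j, MvPolynomial.eval z ((h j).homogenize (μ j)) = 0
    · obtain ⟨j, hj⟩ := hη
      have hij : i ≠ j := fun e => hi (e ▸ hj)
      obtain ⟨k, l, hkl⟩ := H.indep i j hij
      have e : ∀ k, r * p i k = MvPolynomial.eval z ((ρ j).homogenize δ) * p j k := by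
        intro k
        rw [← hr, H.eqH j k, map_add, map_mul, map_mul, hj]
        simp
      have hρ := (H.mon j).eval_ne (H.degρ' j) (H.copρ j) hz hj
      apply mul_ne_zero hρ hkl
      linear_combination p i l * e k - p i k * e l
    · push Not at hη
      have hu := isUnit_Tot ext (h := fun i => MvPolynomial.eval z ((h i).homogenize (μ i)))
        fun i => (hη i).isUnit
      apply mul_ne_zero hu.ne_zero hw0
      rw [← h1, funext hr]
      have := BB_expand (S := K) B r 0 (p i) (p i)
      simp only [zero_mul, add_zero, hB0.1 i, mul_zero] at this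
      exact this

theorem Pre.emb (H : Pre μ δ D ext p h ρ Γ f) (PD : ∀ i, ProjData (p i) (P i) (σ i) (θ i))
    {A : Type} [CommRing A] [Algebra K A] (φ : BF K →ₐ[K] A) (χ : A →ₐ[K] K) {z : Fin 2 → K}
    (hz : z ≠ 0) (hχ : ∀ Φ, χ (φ Φ) = MvPolynomial.eval z Φ) {c : A} (hc : IsUnit c)
    {x : κ → K} (hx : ∀ k, φ ((f k).homogenize δ) = c * algebraMap K A (x k))
    {d : ι → A} (hd : ∀ i, IsUnit (d i)) {y : ι → κ' → K}
    (hy : ∀ i a, app (P i) (fun k => φ ((Γ i k).homogenize (δ - μ i))) a =
      d i * algebraMap K A (y i a)) :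
    ∃ (a : A) (z₀ : Fin 2 → K), ∀ j, φ (MvPolynomial.X j) = a * algebraMap K A (z₀ j) := by
  have hη : ∀ i, φ ((h i).homogenize (μ i)) = 0 ∨ IsUnit (φ ((h i).homogenize (μ i))) := by
    intro i
    obtain ⟨a, ha⟩ : ∃ a, y i a ≠ 0 := by
      by_contra hcon
      push Not at hcon
      apply H.g_ne PD hz i
      funext a
      have := congrArg χ (hy i a)
      rw [map_app, hcon a] at this
      simpa [hχ] using this
    have e1 : app (P i) (fun k => φ ((f k).homogenize δ)) a =
        φ ((h i).homogenize (μ i)) * (d i * algebraMap K A (y i a)) := by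
      simp only [H.eqH i, map_add, map_mul, AlgHom.commutes, app_lin, (PD i).app_q, hy]
      ring
    rw [funext hx, app_mul, app_algebraMap] at e1
    have hu : IsUnit (d i * algebraMap K A (y i a)) := (hd i).mul (ha.isUnit.map _)
    by_cases h0 : app (P i) x a = 0
    · left
      rw [h0, map_zero, mul_zero] at e1
      exact (hu.mul_left_eq_zero).1 e1.symm
    · right
      have : IsUnit (c * algebraMap K A (app (P i) x a)) := hc.mul ((Ne.isUnit h0).map _)
      rw [e1] at this
      exact isUnit_of_mul_isUnit_left this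
  haveI : Nontrivial A := χ.toRingHom.domain_nontrivial
  obtain ⟨U, γ, hU, hγ, key⟩ : ∃ U γ : A, IsUnit U ∧ IsUnit γ ∧ ∀ w, DL w (D + 1) →
      ∃ ω : K, U * φ (w.homogenize D) = γ * algebraMap K A ω := by
    by_cases h0 : ∃ i, φ ((h i).homogenize (μ i)) = 0
    · obtain ⟨i, hi⟩ := h0
      have hU := isUnit_Cof ext (h := fun i => φ ((h i).homogenize (μ i))) (i := i) (by
        intro j hj
        refine (hη j).resolve_left fun h1 => ?_
        exact H.eta_ne hz hj (by rw [← hχ, hi, map_zero]) (by rw [← hχ, h1, map_zero]))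
      have hΓ : ∀ k, φ ((Γ i k).homogenize (δ - μ i)) = d i * algebraMap K A (app (σ i) (y i) k) +
          (∑ l, algebraMap K A (θ i l) * φ ((Γ i l).homogenize (δ - μ i))) *
            algebraMap K A (p i k) := by
        intro k
        refine ((PD i).decomp (S := A) (fun k => φ ((Γ i k).homogenize (δ - μ i))) k).trans ?_
        rw [funext (hy i), app_mul, app_algebraMap]
      have hρ : φ ((ρ i).homogenize δ) = c * algebraMap K A (∑ l, θ i l * x l) := by
        have e : ∀ l, c * algebraMap K A (x l) =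
            φ ((ρ i).homogenize δ) * algebraMap K A (p i l) := by
          intro l
          rw [← hx, H.eqH i l, map_add, map_mul, map_mul, hi, AlgHom.commutes]; ring
        rw [map_sum, Finset.mul_sum, Finset.sum_congr rfl fun l _ =>
          show c * algebraMap K A (θ i l * x l) =
            φ ((ρ i).homogenize δ) * algebraMap K A (θ i l * p i l) by
              rw [map_mul, map_mul]; linear_combination algebraMap K A (θ i l) * e l,
          ← Finset.mul_sum, ← map_sum, (PD i).one, map_one, mul_one]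
      refine ⟨_, if ext i then d i ^ 2 else c * d i, hU, ?_, fun w hw => ?_⟩
      · split_ifs
        · exact (hd i).pow 2
        · exact hc.mul (hd i)
      · obtain ⟨B, -, hB⟩ := H.quadA hw
        have := (hB φ).2 i hi _ _ _ hΓ
        rw [← this]
        split_ifs
        · exact ⟨_, rfl⟩
        · refine ⟨(∑ l, θ i l * x l) * (BB B (app (σ i) (y i)) (p i) +
            BB B (p i) (app (σ i) (y i))), ?_⟩
          rw [hρ, map_mul]; ring
    · push Not at h0
      refine ⟨_, c ^ 2, isUnit_Tot ext (h := fun i => φ ((h i).homogenize (μ i)))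
        fun i => (hη i).resolve_left (h0 i), hc.pow 2, fun w hw => ?_⟩
      obtain ⟨B, -, hB⟩ := H.quadA hw
      refine ⟨BB B x x, ?_⟩
      rw [← (hB φ).1, funext hx, ← BB_algebraMap]
      have := BB_expand (S := A) B c 0 (fun k => algebraMap K A (x k)) 0
      simp only [zero_mul, add_zero, mul_zero, ne_eq, OfNat.ofNat_ne_zero, not_false_eq_true,
        zero_pow] at this
      exact this
  obtain ⟨D', rfl⟩ : ∃ D', D = D' + 1 := ⟨D - 1, by have := H.Dpos; omega⟩
  have fin : ∀ (u v : BF K) (ω₀ ω₁ : K), MvPolynomial.eval z v ≠ 0 →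
      U * φ (v ^ (D' + 1)) = γ * algebraMap K A ω₀ → U * φ (u * v ^ D') = γ * algebraMap K A ω₁ →
      φ u = φ v * algebraMap K A (ω₁ / ω₀) := by
    intro u v ω₀ ω₁ hv e0 e1
    have h0 : ω₀ ≠ 0 := by
      intro h0
      rw [h0, map_zero, mul_zero, hU.mul_right_eq_zero] at e0
      have := hχ (v ^ (D' + 1))
      rw [e0, map_zero, map_pow] at this
      exact pow_ne_zero _ hv this.symm
    apply (hγ.mul (h0.isUnit.map (algebraMap K A))).mul_left_cancel
    have : algebraMap K A ω₀ * algebraMap K A (ω₁ / ω₀) = algebraMap K A ω₁ := by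
      rw [← map_mul, mul_div_cancel₀ _ h0]
    rw [map_pow] at e0
    rw [map_mul, map_pow] at e1
    linear_combination (-φ u) * e0 + φ v * e1 - γ * φ v * this
  by_cases h1 : z 1 = 0
  · obtain ⟨ω₀, e0⟩ := key (X ^ (D' + 1)) (DL_X_pow _)
    obtain ⟨ω₁, e1⟩ := key (X ^ D') ((DL_X_pow _).mono (by omega))
    rw [homogenize_X_pow le_rfl, Nat.sub_self, pow_zero, mul_one] at e0
    rw [homogenize_X_pow (Nat.le_add_right D' 1), Nat.add_sub_cancel_left, pow_one,
      mul_comm (MvPolynomial.X 0 ^ D')] at e1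
    have := fin _ _ _ _ (by simpa using ne_zero_cases hz h1) e0 e1
    refine ⟨φ (MvPolynomial.X 0), ![1, ω₁ / ω₀], fun j => ?_⟩
    fin_cases j
    · simp
    · exact this
  · obtain ⟨ω₀, e0⟩ := key 1 (DL_one.mono (by omega))
    obtain ⟨ω₁, e1⟩ := key X (DL_X.mono (by omega))
    rw [homogenize_one] at e0
    rw [homogenize_X (by omega), Nat.add_sub_cancel] at e1
    have := fin _ _ _ _ (by simpa using h1) e0 e1
    refine ⟨φ (MvPolynomial.X 1), ![ω₁ / ω₀, 1], fun j => ?_⟩
    fin_cases j
    · exact this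
    · simp

end

end Pool.Agent.H265Z
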