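import Pool.Agent.H265Z.Poly

/-!
# A pencil of Pade approximants
-/

set_option autoImplicit false

namespace Pool.Agent.H265Z

open Polynomial

variable {K : Type} [Field K]

lemma finite_bad {m : ℕ} (A B : (Fin m → K) →ₗ[K] (Fin m → K))
    (h : Function.Injective A ∨ Function.Injective B) :
    {τ : K | ¬ Function.Injective (A + τ • B)}.Finite := by
  classical
  have key : ∀ T : (Fin m → K) →ₗ[K] (Fin m → K),
      Function.Injective T ↔ (LinearMap.toMatrix' T).det ≠ 0 := by
    intro T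
    rw [← isUnit_iff_ne_zero, ← Matrix.isUnit_iff_isUnit_det, ← Matrix.mulVec_injective_iff_isUnit]
    have : (LinearMap.toMatrix' T).mulVec = T := by
      funext v
      rw [← Matrix.toLin'_apply, Matrix.toLin'_toMatrix']
    rw [this]
  set P : K[X] := Matrix.det ((X : K[X]) • (LinearMap.toMatrix' B).map C +
    (LinearMap.toMatrix' A).map C) with hP
  have hP0 : P ≠ 0 := by
    intro h0
    rcases h with h | h
    · apply (key A).1 h
      rw [← Polynomial.coeff_det_X_add_C_zero (LinearMap.toMatrix' B), ← hP, h0, coeff_zero]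
    · apply (key B).1 h
      rw [← Polynomial.coeff_det_X_add_C_card _ (LinearMap.toMatrix' A), ← hP, h0, coeff_zero]
  refine (P.roots.toFinset.finite_toSet).subset fun τ hτ => ?_
  simp only [Set.mem_ofPred_eq, key, not_not] at hτ
  simp only [Finset.mem_coe, Multiset.mem_toFinset, mem_roots hP0, IsRoot.def]
  rw [← hτ, hP, ← coe_evalRingHom, RingHom.map_det]
  congr 1
  ext i j
  simp only [RingHom.mapMatrix_apply, Matrix.map_apply, Matrix.add_apply, Matrix.smul_apply,
    smul_eq_mul, coe_evalRingHom, eval_add, eval_mul, eval_X, eval_C, map_add, map_smul]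
  ring

/-- the top part of the remainder -/
noncomputable def Tmap (m : ℕ) (G φ N : K[X]) : (Fin m → K) →ₗ[K] (Fin m → K) where
  toFun v d := ((φ * pol v * N) %ₘ G).coeff (m + d)
  map_add' v w := by
    funext d
    simp [pol_add, mul_add, add_mul, add_modByMonic]
  map_smul' c v := by
    funext d
    have : φ * (C c * pol v) * N = c • (φ * pol v * N) := by rw [smul_eq_C_mul]; ring
    simp [pol_smul, this, smul_modByMonic]

lemma Tmap_add (m : ℕ) (G φ N N' : K[X]) (τ : K) :
    Tmap m G φ (N + C τ * N') = Tmap m G φ N + τ • Tmap m G φ N' := by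
  refine LinearMap.ext fun v => funext fun d => ?_
  have : φ * pol v * (N + C τ * N') = φ * pol v * N + τ • (φ * pol v * N') := by
    rw [smul_eq_C_mul]; ring
  simp [Tmap, this, smul_modByMonic, add_modByMonic]

lemma DL_mod {G : K[X]} {n : ℕ} (hG : Mon G n) (y : K[X]) : DL (y %ₘ G) n := by
  rw [DL_iff_degree, ← hG.natDegree, ← degree_eq_natDegree hG.monic.ne_zero]
  exact degree_modByMonic_lt y hG.monic

lemma DL_of_top {r : K[X]} {m : ℕ} (hr : DL r (m + m)) (h : ∀ d : Fin m, r.coeff (m + d) = 0) :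
    DL r m := by
  intro k hk
  by_cases h1 : k < m + m
  · have := h ⟨k - m, by omega⟩
    rwa [Nat.add_sub_cancel' hk] at this
  · exact hr k (not_lt.1 h1)

lemma Tmap_inj_iff {m : ℕ} {G : K[X]} (hG : Mon G (m + m)) (φ N : K[X]) :
    Function.Injective (Tmap m G φ N) ↔
      ∀ h' Q : K[X], DL h' m → DL (φ * h' * N - G * Q) m → h' = 0 := by
  rw [injective_iff_map_eq_zero]
  constructor
  · intro H h' Q h1 h2
    rw [← pol_coeff h1] at h2 ⊢
    rw [H (fun a => h'.coeff a) (funext fun d => ?_)]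
    · simp [pol]
    · have : (φ * pol (fun a : Fin m => h'.coeff a) * N) %ₘ G =
          φ * pol (fun a : Fin m => h'.coeff a) * N - G * Q := by
        rw [← sub_eq_zero]
        refine hG.eq_zero_of_dvd ?_ ((DL_mod hG _).sub (h2.mono (by omega)))
        rw [modByMonic_eq_sub_mul_div]
        exact ⟨Q - (φ * pol (fun a : Fin m => h'.coeff a) * N) /ₘ G, by ring⟩
      simp only [Tmap, LinearMap.coe_mk, AddHom.coe_mk, this, Pi.zero_apply]
      exact h2 _ (Nat.le_add_right _ _)
  · intro H v hv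
    apply pol_eq_zero
    refine H _ ((φ * pol v * N) /ₘ G) (DL_pol v) ?_
    rw [← modByMonic_eq_sub_mul_div]
    exact DL_of_top (DL_mod hG _) fun d => congrFun hv d

lemma Mon_X_sub_C (α : K) : Mon (X - C α) 1 := by
  unfold Mon
  simpa using (DL_C α).neg

lemma seed_inj {m : ℕ} {ha hb Ra φ : K[X]} (h1 : Mon ha m) (h2 : Mon hb m)
    (c1 : IsCoprime Ra ha) (c2 : IsCoprime φ ha) (h' Q : K[X]) (hh : DL h' m)
    (H : DL (φ * h' * (Ra * hb) - ha * hb * Q) m) : h' = 0 := by
  have e1 : φ * h' * (Ra * hb) - ha * hb * Q = hb * (φ * Ra * h' - ha * Q) := by ring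
  rw [e1] at H
  have e2 := (h2.cancel (a := 0) H).eq_zero
  refine h1.eq_zero_of_dvd ((c2.mul_left c1).symm.dvd_of_dvd_mul_left ⟨Q, ?_⟩) hh
  linear_combination e2

theorem pencil [IsAlgClosed K] {m : ℕ} {ha hb Ra Rb : K[X]} (h1 : Mon ha m) (h2 : Mon hb m)
    (d1 : DL Ra m) (d2 : DL Rb m) (c1 : IsCoprime Ra ha) (c2 : IsCoprime Rb hb)
    (c3 : IsCoprime ha hb) {W : K[X]} (hW : W ≠ 0) :
    ∃ (τ : K) (R h : K[X]), Mon h m ∧ DL R m ∧ IsCoprime R h ∧ IsCoprime h W ∧
      DL (h * (Ra * hb + C τ * (Rb * ha)) - ha * hb * R) m := by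
  classical
  have hG := h1.mul h2
  have fin : ∀ φ : K[X], IsCoprime φ ha ∨ IsCoprime φ hb → {τ : K | ¬ Function.Injective
      (Tmap m (ha * hb) φ (Ra * hb + C τ * (Rb * ha)))}.Finite := by
    intro φ hφ
    simp only [Tmap_add]
    refine finite_bad _ _ (hφ.imp (fun h => ?_) fun h => ?_)
    · exact (Tmap_inj_iff hG _ _).2 (seed_inj h1 h2 c1 h)
    · rw [Tmap_inj_iff hG, mul_comm ha hb]
      exact seed_inj h2 h1 c2 h
  have fin2 : ∀ α : K, IsCoprime (X - C α) ha ∨ IsCoprime (X - C α) hb := by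
    intro α
    simp only [(irreducible_X_sub_C α).coprime_iff_not_dvd]
    by_contra hc
    push Not at hc
    exact (irreducible_X_sub_C α).not_isUnit (c3.isUnit_of_dvd' hc.1 hc.2)
  obtain ⟨τ, hτ⟩ := ((fin 1 (Or.inl isCoprime_one_left)).union
    (W.roots.toFinset.finite_toSet.biUnion fun α _ => fin _ (fin2 α))).exists_notMem
  simp only [Set.mem_union, Set.mem_iUnion, Set.mem_ofPred_eq, not_or, not_not, not_exists,
    Finset.mem_coe, Multiset.mem_toFinset, mem_roots hW] at hτ
  obtain ⟨t1, t2⟩ := hτ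
  set N := Ra * hb + C τ * (Rb * ha) with hN
  have dN : DL N (m + m) := (d1.mul h2.dl (by omega)).add ((d2.mul h1.dl (by omega)).C_mul _)
  obtain ⟨v, hv⟩ := LinearMap.surjective_of_injective t1
    fun d => -((X ^ m * N) %ₘ (ha * hb)).coeff (m + d)
  have hm := Mon_add_pol v
  set h := X ^ m + pol v with hh
  have hr : DL (h * N - ha * hb * ((h * N) /ₘ (ha * hb))) m := by
    rw [← modByMonic_eq_sub_mul_div]
    refine DL_of_top (DL_mod hG _) fun d => ?_
    have := congrFun hv d
    simp only [Tmap, LinearMap.coe_mk, AddHom.coe_mk, one_mul] at this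
    rw [hh, add_mul, add_modByMonic, coeff_add, this, add_neg_cancel]
  set R := (h * N) /ₘ (ha * hb)
  have hdiv : ∀ α : K, aeval α h = 0 → ∃ h', h = (X - C α) * h' ∧ DL h' m ∧ h' ≠ 0 := by
    intro α hα
    obtain ⟨h', e⟩ := (dvd_iff_isRoot (p := h) (a := α)).2 (by simpa using hα)
    refine ⟨h', e, (Mon_X_sub_C α).cancel ?_, ?_⟩
    · rw [← e, add_comm]; exact hm.dl
    · rintro rfl
      exact hm.monic.ne_zero (by rw [e, mul_zero])
  refine ⟨τ, R, h, hm, hG.cancel ?_, ?_, ?_, hr⟩
  · have : ha * hb * R = h * N - (h * N - ha * hb * R) := by ring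
    rw [this]
    exact (hm.dl.mul dN (by omega)).sub (hr.mono (by omega))
  · rw [Polynomial.isCoprime_iff_aeval_ne_zero_of_isAlgClosed K K]
    intro α
    by_contra hc
    push Not at hc
    obtain ⟨h', e, e1, e2⟩ := hdiv α hc.2
    obtain ⟨R', e'⟩ := (dvd_iff_isRoot (p := R) (a := α)).2 (by simpa using hc.1)
    refine e2 ((Tmap_inj_iff hG _ _).1 t1 h' R' e1 ((Mon_X_sub_C α).cancel ?_))
    have : (X - C α) * (1 * h' * N - ha * hb * R') = h * N - ha * hb * R := by
      rw [e', e]; ring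
    rw [this]
    exact hr.mono (by omega)
  · rw [Polynomial.isCoprime_iff_aeval_ne_zero_of_isAlgClosed K K]
    intro α
    by_contra hc
    push Not at hc
    obtain ⟨h', e, e1, e2⟩ := hdiv α hc.1
    refine e2 ((Tmap_inj_iff hG _ _).1 (t2 α (by simpa using hc.2)) h' R e1 ?_)
    rw [← e]
    exact hr

end Pool.Agent.H265Z
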