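import Pool.Agent.H265Z.Generic
import Pool.Agent.H265Z.Pencil

/-!
# Adding extra points
-/

set_option autoImplicit false
set_option linter.unusedSectionVars false

namespace Pool.Agent.H265Z

open Polynomial

variable {K : Type} [Field K] {J ι₀ κ₀ : Type} [Fintype J] [DecidableEq J] [Fintype ι₀]
  [DecidableEq ι₀] [Fintype κ₀] [DecidableEq κ₀]

/-- one more coordinate -/
noncomputable def NN (c : ι₀ → K) (R h : ι₀ → K[X]) : K[X] := ∑ i, C (c i) * (R i * Hi h i)

/-- the data of one extra point -/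
structure Seed (R h : ι₀ → K[X]) (δ m : ℕ) (c : ι₀ → K) (Ra ha : K[X]) : Prop where
  mon : Mon ha m
  deg : DL Ra m
  cop : IsCoprime Ra ha
  pade : DL (ha * NN c R h + Ra * ∏ i, h i) (δ + m + 1)

lemma seed_exists [IsAlgClosed K] {R h : ι₀ → K[X]} {δ m : ℕ} {ca cb : ι₀ → K}
    {Ra ha Rb hb : K[X]} (Sa : Seed R h δ m ca Ra ha) (Sb : Seed R h δ m cb Rb hb)
    (cop : IsCoprime ha hb) (hH : Mon (∏ i, h i) (δ + 1 + (m + m))) {W : K[X]} (hW : W ≠ 0) :
    ∃ c R' h', Seed R h δ m c R' h' ∧ IsCoprime h' W := by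
  obtain ⟨τ, R', h', h1, h2, h3, h4, h5⟩ := pencil Sa.mon Sb.mon Sa.deg Sb.deg Sa.cop Sb.cop cop hW
  refine ⟨fun i => ca i + τ * cb i, R', h', ⟨h1, h2, h3, (Sa.mon.mul Sb.mon).cancel ?_⟩, h4⟩
  have e1 : NN (fun i => ca i + τ * cb i) R h = NN ca R h + C τ * NN cb R h := by
    simp only [NN, map_add, map_mul, add_mul, Finset.sum_add_distrib, Finset.mul_sum, mul_assoc]
  have e2 : ha * hb * (h' * (NN ca R h + C τ * NN cb R h) + R' * ∏ i, h i) =
      h' * (hb * (ha * NN ca R h + Ra * ∏ i, h i) +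
        C τ * (ha * (hb * NN cb R h + Rb * ∏ i, h i))) -
      (∏ i, h i) * (h' * (Ra * hb + C τ * (Rb * ha)) - ha * hb * R') := by ring
  rw [e1, e2]
  refine (h1.dl.mul (b := δ + m + m + 1) ((Sb.mon.dl.mul Sa.pade (by omega)).add
    ((Sa.mon.dl.mul Sb.pade (by omega)).C_mul _)) (by omega)).sub (hH.dl.mul h5 (by omega))

lemma seeds_exist [IsAlgClosed K] {R h : ι₀ → K[X]} {δ m : ℕ} {ca cb : ι₀ → K}
    {Ra ha Rb hb : K[X]} (Sa : Seed R h δ m ca Ra ha) (Sb : Seed R h δ m cb Rb hb)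
    (cop : IsCoprime ha hb) (hH : Mon (∏ i, h i) (δ + 1 + (m + m))) (j : ℕ) :
    ∃ (c : Fin j → ι₀ → K) (RE hE : Fin j → K[X]), (∀ k, Seed R h δ m (c k) (RE k) (hE k)) ∧
      (∀ k, IsCoprime (hE k) (∏ i, h i)) ∧ Pairwise fun k l => IsCoprime (hE k) (hE l) := by
  induction j with
  | zero => exact ⟨Fin.elim0, Fin.elim0, Fin.elim0, fun k => k.elim0, fun k => k.elim0,
      fun k => k.elim0⟩
  | succ j ih =>
    obtain ⟨c, RE, hE, h1, h2, h3⟩ := ih
    obtain ⟨c', R', h', h4, h5⟩ := seed_exists Sa Sb cop hH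
      (W := (∏ i, h i) * ∏ k, hE k) (mul_ne_zero hH.monic.ne_zero
        (Finset.prod_ne_zero_iff.2 fun k _ => (h1 k).mon.monic.ne_zero))
    have h6 : ∀ k, IsCoprime h' (hE k) := fun k =>
      h5.of_mul_right_right.of_prod_right k (Finset.mem_univ k)
    refine ⟨Fin.cons c' c, Fin.cons R' RE, Fin.cons h' hE, ?_, ?_, ?_⟩
    · exact Fin.cases h4 h1
    · exact Fin.cases h5.of_mul_right_left h2
    · rw [pairwise_fin_succ_iff]
      exact ⟨fun k => (h6 k).symm, h6, h3⟩

/-- the special configuration of points -/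
def pE (p : ι₀ → κ₀ → K) (c : J → ι₀ → K) : J ⊕ ι₀ → J ⊕ κ₀ → K :=
  Sum.elim (fun k => Sum.elim (fun l => if k = l then 1 else 0) fun _ => 0)
    fun i => Sum.elim (fun l => c l i) (p i)

lemma Hi_inl (hE : J → K[X]) (h : ι₀ → K[X]) (k : J) :
    Hi (Sum.elim hE h) (.inl k) = Hi hE k * ∏ i, h i := by
  simp [Hi, Fintype.prod_sum_type]

lemma Hi_inr (hE : J → K[X]) (h : ι₀ → K[X]) (i : ι₀) :
    Hi (Sum.elim hE h) (.inr i) = (∏ k, hE k) * Hi h i := by
  simp [Hi, Fintype.prod_sum_type]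

lemma ff_inr (p : ι₀ → κ₀ → K) (c : J → ι₀ → K) (RE hE : J → K[X]) (R h : ι₀ → K[X]) (a : κ₀) :
    ff (pE p c) (Sum.elim RE R) (Sum.elim hE h) (.inr a) = (∏ k, hE k) * ff p R h a := by
  simp only [ff, pE, Fintype.sum_sum_type, Sum.elim_inl, Sum.elim_inr, map_zero, zero_mul,
    Finset.sum_const_zero, zero_add, Hi_inr, Finset.mul_sum]
  exact Finset.sum_congr rfl fun i _ => by ring

lemma ff_inl (p : ι₀ → κ₀ → K) (c : J → ι₀ → K) (RE hE : J → K[X]) (R h : ι₀ → K[X]) (k : J) :
    ff (pE p c) (Sum.elim RE R) (Sum.elim hE h) (.inl k) =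
      Hi hE k * (hE k * NN (c k) R h + RE k * ∏ i, h i) := by
  have e : ∀ i, C (c k i) * (R i * ((∏ l, hE l) * Hi h i)) =
      Hi hE k * (hE k * (C (c k i) * (R i * Hi h i))) := fun i => by
    rw [← mul_Hi hE k]; ring
  simp only [ff, pE, Fintype.sum_sum_type, Sum.elim_inl, Sum.elim_inr, Hi_inr, Hi_inl, NN,
    apply_ite C, map_one, map_zero, ite_mul, one_mul, zero_mul, Finset.sum_ite_eq',
    Finset.mem_univ, if_true, e, ← Finset.mul_sum]
  ring

lemma lam_pE (p : ι₀ → κ₀ → K) (c : J → ι₀ → K) (a : κ₀) :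
    lam (pE p c) a = Sum.elim (fun _ => 0) fun b => if a = b then 1 else 0 := by
  have : E0 (pE p c) = 1 := by
    ext l k
    simp [E0, pE, Matrix.one_apply, eq_comm]
  funext m
  cases m <;> simp only [lam, this] <;> simp [pE]

theorem good_ext [Nontrivial ι₀] {μ : ι₀ → ℕ} {δ m : ℕ} {p : ι₀ → κ₀ → K} {R h : ι₀ → K[X]}
    (H : Alg μ δ p R h) (Q : Quad p (ff p R h) δ (∑ i, μ i)) (hM : ∑ i, μ i = δ + 1 + (m + m))
    {c : J → ι₀ → K} {RE hE : J → K[X]} (S : ∀ k, Seed R h δ m (c k) (RE k) (hE k))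
    (cop1 : ∀ k, IsCoprime (hE k) (∏ i, h i)) (cop2 : Pairwise fun k l => IsCoprime (hE k) (hE l)) :
    Good (Sum.elim (fun _ => m) μ) (δ + Fintype.card J * m)
      (∑ i, μ i + 2 * (Fintype.card J * m)) (pE p c) := by
  set j := Fintype.card J * m with hj
  have hE1 : Mon (∏ k, hE k) j := by
    simpa using Mon.prod (s := Finset.univ) fun k _ => (S k).mon
  have hsum : ∑ i, Sum.elim (fun _ : J => m) μ i = δ + j + 1 + (m + m) := by
    simp only [Fintype.sum_sum_type, Sum.elim_inl, Sum.elim_inr, Finset.sum_const,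
      Finset.card_univ, smul_eq_mul, hM]
    omega
  have mon : ∀ i, Mon (Sum.elim hE h i) (Sum.elim (fun _ : J => m) μ i) :=
    fun i => by cases i; exacts [(S _).mon, H.mon _]
  have degR : ∀ i, DL (Sum.elim RE R i) (Sum.elim (fun _ : J => m) μ i) :=
    fun i => by cases i; exacts [(S _).deg, H.degR _]
  have degf : ∀ k, DL (ff (pE p c) (Sum.elim RE R) (Sum.elim hE h) k) (δ + j + 1) := by
    intro k
    cases k with
    | inl k =>
      obtain ⟨m', h1, h2⟩ := Mon_Hi (μ := fun _ => m) (fun k => (S k).mon) k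
      simp only [Finset.sum_const, Finset.card_univ, smul_eq_mul] at h2
      rw [ff_inl]
      exact h1.dl.mul (S k).pade (by omega)
    | inr a =>
      rw [ff_inr]
      exact hE1.dl.mul (H.degf a) (by omega)
  have ne : ∀ i, ∃ a, p i a ≠ 0 := by
    intro i
    obtain ⟨i', hi'⟩ := exists_ne i
    obtain ⟨k, l, hkl⟩ := H.indep i i' hi'.symm
    by_contra hc
    push Not at hc
    simp [hc] at hkl
  refine ⟨Sum.elim RE R, Sum.elim hE h, ⟨mon, degR, degf, ?_, ?_, ?_, ?_⟩, ?_⟩
  · intro y hy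
    rw [hsum] at hy
    have small : ∀ (l : J) (κ : J ⊕ κ₀), κ ≠ .inl l → ∀ P, DL P m →
        DL (P * GG (pE p c) (Sum.elim RE R) (Sum.elim hE h) (.inl l) κ) (δ + j + 1) := by
      intro l κ hκ P hP
      refine (S l).mon.cancel ?_
      have e := ff_eq (pE p c) (Sum.elim RE R) (Sum.elim hE h) (.inl l) κ
      have e0 : pE p c (.inl l) κ = 0 := by
        cases κ with
        | inl k => exact if_neg fun h => hκ (by rw [h])
        | inr a => rfl
      rw [e0, map_zero, zero_mul, add_zero, Sum.elim_inl] at e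
      rw [mul_left_comm, ← e]
      exact hP.mul (degf κ) (by omega)
    choose q r e1 e2 e3 using fun a => hE1.div (a := ∑ i, μ i)
      ((hy (.inr a)).mono (by omega))
    obtain ⟨Rd, hd, d1, d2, d3⟩ := H.rigid q e2
    have dR : ∀ i, DL (Sum.elim (0 : J → K[X]) Rd i) (Sum.elim (fun _ : J => m) μ i) :=
      fun i => by cases i; exacts [DL_zero _, d1 _]
    have dh : ∀ i, DL (Sum.elim (0 : J → K[X]) hd i) (Sum.elim (fun _ : J => m) μ i) :=
      fun i => by cases i; exacts [DL_zero _, d2 _]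
    have dD := DL_DD mon (pE p c) degR dR dh
    rw [hsum] at dD
    set D0 := DD (pE p c) (Sum.elim RE R) (Sum.elim hE h) (Sum.elim 0 Rd) (Sum.elim 0 hd)
      with hD0
    have key : ∀ k : J, ∃ a b : K[X], DL a m ∧ DL b m ∧ DL (y (.inl k) - D0 (.inl k) -
        (a * Hi (Sum.elim hE h) (.inl k) +
          b * GG (pE p c) (Sum.elim RE R) (Sum.elim hE h) (.inl k) (.inl k))) (δ + j + 1) := by
      intro k
      obtain ⟨m', h1, h2⟩ := Mon_Hi mon (.inl k)
      rw [hsum, Sum.elim_inl] at h2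
      obtain ⟨q', r', f1, f2, f3⟩ := h1.div (a := m + m) (y := hE k * (y (.inl k) - D0 (.inl k)))
        ((S k).mon.dl.mul ((hy _).sub (dD _)) (by omega))
      obtain ⟨a, b, f4, f5, f6⟩ := (S k).mon.bezout (S k).deg (S k).cop f2
      refine ⟨a, b, f4, f5, (S k).mon.cancel ?_⟩
      have e := ff_eq (pE p c) (Sum.elim RE R) (Sum.elim hE h) (.inl k) (.inl k)
      have e0 : pE p c (.inl k) (.inl k) = 1 := if_pos rfl
      rw [e0, map_one, one_mul, Sum.elim_inl, Sum.elim_inl] at e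
      have : hE k * (y (.inl k) - D0 (.inl k) - (a * Hi (Sum.elim hE h) (.inl k) +
          b * GG (pE p c) (Sum.elim RE R) (Sum.elim hE h) (.inl k) (.inl k))) =
          r' - b * ff (pE p c) (Sum.elim RE R) (Sum.elim hE h) (.inl k) := by
        rw [e]
        linear_combination f1 - Hi (Sum.elim hE h) (.inl k) * f6
      rw [this]
      exact (f3.mono (by omega)).sub (f5.mul (degf _) (by omega))
    choose a b k1 k2 k3 using key
    have split : ∀ κ, DD (pE p c) (Sum.elim RE R) (Sum.elim hE h) (Sum.elim a Rd)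
        (Sum.elim b hd) κ = D0 κ + ∑ l, (C (pE p c (.inl l) κ) *
          (a l * Hi (Sum.elim hE h) (.inl l)) +
          b l * GG (pE p c) (Sum.elim RE R) (Sum.elim hE h) (.inl l) κ) := by
      intro κ
      simp only [hD0, DD, ff, Fintype.sum_sum_type, Sum.elim_inl, Sum.elim_inr, Pi.zero_apply,
        zero_mul, mul_zero, Finset.sum_const_zero, Finset.sum_add_distrib]
      ring
    refine ⟨Sum.elim a Rd, Sum.elim b hd, fun i => by cases i; exacts [k1 _, d1 _],
      fun i => by cases i; exacts [k2 _, d2 _], fun κ => ?_⟩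
    rw [split]
    cases κ with
    | inl k =>
      rw [← Finset.add_sum_erase Finset.univ _ (Finset.mem_univ k), ← add_assoc, ← sub_sub,
        ← sub_sub]
      refine DL.sub ?_ (DL.sum fun l hl => ?_)
      · have e0 : pE p c (.inl k) (.inl k) = 1 := if_pos rfl
        rw [e0, map_one, one_mul]
        exact k3 k
      · have hl' := Finset.ne_of_mem_erase hl
        have e0 : pE p c (.inl l) (.inl k) = 0 := if_neg hl'
        rw [e0, map_zero, zero_mul, zero_add]
        exact small l _ (by simpa using hl'.symm) _ (k2 l)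
    | inr x =>
      have eG : ∀ i, GG (pE p c) (Sum.elim RE R) (Sum.elim hE h) (.inr i) (.inr x) =
          (∏ k, hE k) * GG p R h i x := by
        intro i
        apply (H.mon i).mul_left_cancel
        have e := ff_eq (pE p c) (Sum.elim RE R) (Sum.elim hE h) (.inr i) (.inr x)
        have e0 : pE p c (.inr i) (.inr x) = p i x := rfl
        rw [ff_inr, Hi_inr, e0, ff_eq p R h i x, Sum.elim_inr, Sum.elim_inr] at e
        linear_combination -e
      have eD : D0 (.inr x) = (∏ k, hE k) * DD p R h Rd hd x := by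
        simp only [hD0, DD, ff_inr, Fintype.sum_sum_type, Sum.elim_inl, Sum.elim_inr,
          Pi.zero_apply, zero_mul, Finset.sum_const_zero, zero_add, eG, mul_add, Finset.mul_sum]
        congr 1
        exact Finset.sum_congr rfl fun i _ => by ring
      rw [← sub_sub, eD, e1 x]
      refine DL.sub ?_ (DL.sum fun l _ => ?_)
      · have : (∏ k, hE k) * q x + r x - (∏ k, hE k) * DD p R h Rd hd x =
            (∏ k, hE k) * (q x - DD p R h Rd hd x) + r x := by ring
        rw [this]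
        exact (hE1.dl.mul (d3 x) (by omega)).add ((e3 x).mono (by omega))
      · have e0 : pE p c (.inl l) (.inr x) = 0 := rfl
        rw [e0, map_zero, zero_mul, zero_add]
        exact small l _ (by simp) _ (k2 l)
  · rintro (k | i) (l | i') hne
    · exact cop2 (by simpa using hne)
    · exact (cop1 k).of_prod_right i' (Finset.mem_univ _)
    · exact ((cop1 l).of_prod_right i (Finset.mem_univ _)).symm
    · exact H.cop i i' (by simpa using hne)
  · rintro (k | i)
    exacts [(S k).cop, H.copR i]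
  · rintro (k | i) (l | i') hne
    · have : k ≠ l := by simpa using hne
      exact ⟨.inl k, .inl l, by simp [pE, this]⟩
    · obtain ⟨x, hx⟩ := ne i'
      exact ⟨.inl k, .inr x, by simpa [pE] using hx⟩
    · obtain ⟨x, hx⟩ := ne i
      exact ⟨.inr x, .inl l, by simpa [pE] using hx⟩
    · obtain ⟨x, z, hx⟩ := H.indep i i' (by simpa using hne)
      exact ⟨.inr x, .inr z, hx⟩
  · have e1 : lamP (pE p c) = p := by
      funext i a
      simp only [lamP, lam_pE]
      simp [Fintype.sum_sum_type, pE]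
    have e2 : lamf (pE p c) (ff (pE p c) (Sum.elim RE R) (Sum.elim hE h)) =
        fun a => (∏ k, hE k) * ff p R h a := by
      funext a
      simp [lamf, lam_pE, Fintype.sum_sum_type, ff_inr, apply_ite C]
    rw [e1, e2]
    intro a y hy
    obtain ⟨q, r, f1, f2, f3⟩ := (hE1.mul hE1).div (a := 2 * δ + 1) (hy.mono (by omega))
    obtain ⟨B, b1, b2⟩ := Q a q f2
    refine ⟨B, b1, ?_⟩
    have : y - ∑ k, ∑ l, C (B k l) * ((∏ k, hE k) * ff p R h k * ((∏ k, hE k) * ff p R h l)) =
        (∏ k, hE k) * (∏ k, hE k) * (q - ∑ k, ∑ l, C (B k l) * (ff p R h k * ff p R h l)) + r := by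
      rw [f1, mul_sub, Finset.mul_sum]
      simp only [Finset.mul_sum]
      have : ∀ k l, C (B k l) * ((∏ k, hE k) * ff p R h k * ((∏ k, hE k) * ff p R h l)) =
        (∏ k, hE k) * (∏ k, hE k) * (C (B k l) * (ff p R h k * ff p R h l)) := fun k l => by ring
      simp only [this]
      ring
    rw [this]
    exact ((hE1.mul hE1).dl.mul b2 (by omega)).add (f3.mono (by omega))

/-- the conclusion for all numbers of extra points -/
theorem general_of_seeds [IsAlgClosed K] {a b : ℕ} {μ : Fin (a + 2) → ℕ} {δ m D : ℕ}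
    {p : Fin (a + 2) → Fin (b + 2) → K} {R h : Fin (a + 2) → K[X]}
    (H : Alg μ δ p R h) (Q : Quad p (ff p R h) δ (∑ i, μ i)) (hM : ∑ i, μ i = δ + 1 + (m + m))
    (hM' : 2 * ∑ i, μ i = (b + 2) * (m + m) + 4) (hm : 1 ≤ m) (hmδ : m < δ) (lt : ∀ i, μ i < δ)
    (hD : 2 * δ = ∑ i, μ i + D) (Dpos : 1 ≤ D) {ca cb : Fin (a + 2) → K}
    {Ra ha Rb hb : K[X]} (Sa : Seed R h δ m ca Ra ha) (Sb : Seed R h δ m cb Rb hb)
    (cop : IsCoprime ha hb) (j : ℕ) :
    GeneralBlowupHas (j + (b + 1)) (j + (a + 2)) (((δ + j * m : ℕ) : ℤ),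
      fun i => ((Sum.elim (fun _ : Fin j => m) μ (finSumFinEquiv.symm i) : ℕ) : ℤ)) := by
  obtain ⟨c, RE, hE, h1, h2, h3⟩ := seeds_exist Sa Sb cop
    (hM ▸ Mon.prod (s := Finset.univ) fun i _ => H.mon i) j
  have G := good_ext H Q hM h1 h2 h3
  rw [Fintype.card_fin] at G
  have hs : ∑ i, Sum.elim (fun _ : Fin j => m) μ i = j * m + ∑ i, μ i := by
    simp [Fintype.sum_sum_type]
  refine generalBlowupHas_of_good (D := D) (e := m + m) G (by rw [hs]; omega) ?_ (by omega) ?_
    (by omega) ?_ Dpos (by omega) (by omega) finSumFinEquiv.symm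
    (finSumFinEquiv (m := j) (n := b + 2)).symm
  · rw [hs, Fintype.card_sum, Fintype.card_fin, Fintype.card_fin, mul_add, hM']
    ring
  · rintro (k | i)
    · show m < _
      omega
    · exact (lt i).trans_le (Nat.le_add_right _ _)
  · rw [hs]
    simp only [Sum.elim_inl, Finset.sum_const, Finset.card_univ, Fintype.card_fin, smul_eq_mul]
    omega

end Pool.Agent.H265Z
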