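import Mathlib

/-!
# Zariski open predicates and smooth families of solutions
-/

set_option autoImplicit false

namespace Pool.Agent.H265Z

open MvPolynomial TensorProduct

/-- evaluation of integer polynomials -/
noncomputable def ev {σ C : Type} [CommRing C] (x : σ → C) : MvPolynomial σ ℤ →+* C :=
  eval₂Hom (Int.castRingHom C) x

@[simp] lemma ev_X {σ C : Type} [CommRing C] (x : σ → C) (i : σ) : ev x (X i) = x i := by
  simp [ev]

lemma map_ev {σ C D : Type} [CommRing C] [CommRing D] (φ : C →+* D) (x : σ → C)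
    (G : MvPolynomial σ ℤ) : φ (ev x G) = ev (φ ∘ x) G := by
  have : φ.comp (ev x) = ev (φ ∘ x) := by
    apply MvPolynomial.ringHom_ext
    · intro r; simp
    · intro i; simp
  exact DFunLike.congr_fun this G

/-- `P` is (uniformly in the field) a Zariski open condition. -/
def IsOpenPred {σ : Type} (P : ∀ (K : Type) [Field K], (σ → K) → Prop) : Prop :=
  ∀ (K : Type) [Field K] (x : σ → K), P K x →
    ∃ G : MvPolynomial σ ℤ, ev x G ≠ 0 ∧
      ∀ (L : Type) [Field L] [IsAlgClosed L] (y : σ → L), ev y G ≠ 0 → P L y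

section basic

variable {σ : Type}

lemma IsOpenPred.congr {P Q : ∀ (K : Type) [Field K], (σ → K) → Prop} (h : IsOpenPred P)
    (hPQ : ∀ (K : Type) [Field K] (x : σ → K), P K x ↔ Q K x) : IsOpenPred Q := by
  intro K _ x hx
  obtain ⟨G, h1, h2⟩ := h K x ((hPQ K x).2 hx)
  exact ⟨G, h1, fun L _ _ y hy => (hPQ L y).1 (h2 L y hy)⟩

lemma isOpenPred_true : IsOpenPred (σ := σ) fun _ _ _ => True :=
  fun _ _ _ _ => ⟨1, by simp, fun _ _ _ _ _ => trivial⟩

lemma IsOpenPred.and {P Q : ∀ (K : Type) [Field K], (σ → K) → Prop} (hP : IsOpenPred P)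
    (hQ : IsOpenPred Q) : IsOpenPred fun K _ x => P K x ∧ Q K x := by
  rintro K _ x ⟨h1, h2⟩
  obtain ⟨G, g1, g2⟩ := hP K x h1
  obtain ⟨G', g1', g2'⟩ := hQ K x h2
  refine ⟨G * G', by rw [map_mul]; exact mul_ne_zero g1 g1', fun L _ _ y hy => ?_⟩
  rw [map_mul] at hy
  exact ⟨g2 L y (left_ne_zero_of_mul hy), g2' L y (right_ne_zero_of_mul hy)⟩

lemma IsOpenPred.forall {α : Type} [Fintype α] {P : α → ∀ (K : Type) [Field K], (σ → K) → Prop}
    (hP : ∀ a, IsOpenPred (P a)) : IsOpenPred fun K _ x => ∀ a, P a K x := by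
  intro K _ x h
  choose G g1 g2 using fun a => hP a K x (h a)
  refine ⟨∏ a, G a, by rw [map_prod]; exact Finset.prod_ne_zero_iff.2 fun a _ => g1 a,
    fun L _ _ y hy a => ?_⟩
  rw [map_prod] at hy
  exact g2 a L y (Finset.prod_ne_zero_iff.1 hy a (Finset.mem_univ a))

lemma IsOpenPred.exists {α : Type} {P : α → ∀ (K : Type) [Field K], (σ → K) → Prop}
    (hP : ∀ a, IsOpenPred (P a)) : IsOpenPred fun K _ x => ∃ a, P a K x := by
  rintro K _ x ⟨a, h⟩
  obtain ⟨G, g1, g2⟩ := hP a K x h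
  exact ⟨G, g1, fun L _ _ y hy => ⟨a, g2 L y hy⟩⟩

lemma IsOpenPred.imp (p : Prop) {P : ∀ (K : Type) [Field K], (σ → K) → Prop}
    (hP : p → IsOpenPred P) : IsOpenPred fun K _ x => p → P K x := by
  by_cases hp : p
  · exact (hP hp).congr fun K _ x => by simp [hp]
  · exact isOpenPred_true.congr fun K _ x => by simp [hp]

lemma isOpenPred_ne (Φ : ∀ (C : Type) [CommRing C], (σ → C) → C)
    (hΦ : ∀ (C D : Type) [CommRing C] [CommRing D] (φ : C →+* D) (x : σ → C),
      φ (Φ C x) = Φ D (φ ∘ x)) : IsOpenPred fun K _ x => Φ K x ≠ 0 := by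
  have key : ∀ (C : Type) [CommRing C] (x : σ → C), ev x (Φ _ X) = Φ C x := by
    intro C _ x
    rw [hΦ]; congr 1; ext i; simp
  intro K _ x hx
  exact ⟨Φ _ X, by rw [key]; exact hx, fun L _ _ y hy => by rwa [key] at hy⟩

end basic

/-- Lifting points along a flat finitely presented algebra. -/
lemma exists_open_of_smooth {B A K : Type} [CommRing B] [CommRing A] [Algebra B A]
    [Algebra.Smooth B A] [Field K] (ψ : A →+* K) :
    ∃ Q : B, ψ (algebraMap B A Q) ≠ 0 ∧ ∀ (L : Type) [Field L] [IsAlgClosed L] (χ : B →+* L),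
      χ Q ≠ 0 → ∃ χ' : A →+* L, χ'.comp (algebraMap B A) = χ := by
  have hopen : IsOpen (Set.range (PrimeSpectrum.comap (algebraMap B A))) :=
    (PrimeSpectrum.isOpenMap_comap_of_hasGoingDown_of_finitePresentation (R := B) (S := A)).isOpen_range
  let q : PrimeSpectrum A := ⟨RingHom.ker ψ, RingHom.ker_isPrime ψ⟩
  obtain ⟨U, ⟨Q, rfl⟩, hU1, hU2⟩ :=
    PrimeSpectrum.isTopologicalBasis_basic_opens.exists_subset_of_mem_open
      (Set.mem_range_self (f := PrimeSpectrum.comap (algebraMap B A)) q) hopen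
  refine ⟨Q, ?_, fun L _ _ χ hχ => ?_⟩
  · simpa [q] using hU1
  · let p : PrimeSpectrum B := ⟨RingHom.ker χ, RingHom.ker_isPrime χ⟩
    have hp : p ∈ Set.range (PrimeSpectrum.comap (algebraMap B A)) := hU2 (by simpa [p] using hχ)
    rw [← PrimeSpectrum.nontrivial_iff_mem_rangeComap] at hp
    haveI : p.asIdeal.IsPrime := p.isPrime
    let k := p.asIdeal.ResidueField
    let j : k →+* L := Ideal.ResidueField.lift p.asIdeal χ le_rfl (by
      intro x hx
      have : χ x ≠ 0 := hx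
      exact this.isUnit)
    letI : Algebra k L := j.toAlgebra
    obtain ⟨m, hm⟩ := Ideal.exists_maximal (k ⊗[B] A)
    letI : Field ((k ⊗[B] A) ⧸ m) := Ideal.Quotient.field m
    haveI : Module.Finite k ((k ⊗[B] A) ⧸ m) := finite_of_finite_type_of_isJacobsonRing _ _
    haveI : Module.Free k ((k ⊗[B] A) ⧸ m) := Module.Free.of_divisionRing _ _
    haveI : Module.IsTorsionFree k ((k ⊗[B] A) ⧸ m) := Module.Free.instIsTorsionFree _ _
    let l : ((k ⊗[B] A) ⧸ m) →ₐ[k] L := IsAlgClosed.lift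
    refine ⟨(l.toRingHom.comp (Ideal.Quotient.mk m)).comp
      (Algebra.TensorProduct.includeRight (R := B) (A := k) (B := A)).toRingHom, ?_⟩
    ext r
    have h1 : (Algebra.TensorProduct.includeRight (R := B) (A := k) (B := A)) (algebraMap B A r)
        = algebraMap k (k ⊗[B] A) (algebraMap B k r) := by
      rw [AlgHom.commutes, ← IsScalarTower.algebraMap_apply]
    have h2 : Ideal.Quotient.mk m (algebraMap k (k ⊗[B] A) (algebraMap B k r))
        = algebraMap k _ (algebraMap B k r) := rfl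
    simp only [RingHom.comp_apply, AlgHom.toRingHom_eq_coe, RingHom.coe_coe, h1, h2,
      AlgHom.commutes]
    exact Ideal.ResidueField.lift_algebraMap _ _ _ _ r

theorem isOpenPred_smooth {ι κ ρ : Type} [Fintype κ] [DecidableEq κ] [Fintype ρ] [DecidableEq ρ]
    (F : ∀ (C : Type) [CommRing C], (ι → C) → (κ → C) → ρ → C)
    (J : ∀ (C : Type) [CommRing C], (ι → C) → (κ → C) → Matrix ρ κ C)
    (hF : ∀ (C D : Type) [CommRing C] [CommRing D] (φ : C →+* D) (a : ι → C) (b : κ → C) (r : ρ),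
      φ (F C a b r) = F D (φ ∘ a) (φ ∘ b) r)
    (hJ : ∀ (C D : Type) [CommRing C] [CommRing D] (φ : C →+* D) (a : ι → C) (b : κ → C),
      (J C a b).map φ = J D (φ ∘ a) (φ ∘ b))
    (hT : ∀ (C : Type) [CommRing C] (a : ι → C) (b β : κ → C), (∀ k k', β k * β k' = 0) →
      F C a (b + β) = F C a b + (J C a b).mulVec β)
    {P : ∀ (K : Type) [Field K], (ι ⊕ κ → K) → Prop} (hP : IsOpenPred P) :
    IsOpenPred fun K _ a => ∃ b : κ → K, F K a b = 0 ∧
      Function.Surjective (J K a b).mulVec ∧ P K (Sum.elim a b) := by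
  rintro K _ a ⟨b, h0, hs, hp⟩
  obtain ⟨G, g1, g2⟩ := hP K _ hp
  -- the function `Δ`
  let τ := κ ⊕ κ × ρ
  let Δ : ∀ (C : Type) [CommRing C], (ι → C) → (τ → C) → C := fun C _ a x =>
    (J C a (x ∘ Sum.inl) * Matrix.of fun k r => x (Sum.inr (k, r))).det *
      ev (Sum.elim a (x ∘ Sum.inl)) G
  have hΔ : ∀ (C D : Type) [CommRing C] [CommRing D] (φ : C →+* D) (a : ι → C) (x : τ → C),
      φ (Δ C a x) = Δ D (φ ∘ a) (φ ∘ x) := by
    intro C D _ _ φ a x
    simp only [Δ, map_mul, RingHom.map_det, map_ev, RingHom.mapMatrix_apply, Matrix.map_mul, hJ]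
    have : φ ∘ Sum.elim a (x ∘ Sum.inl) = Sum.elim (φ ∘ a) ((φ ∘ x) ∘ Sum.inl) := by
      ext i; cases i <;> rfl
    rw [this]
    rfl
  let B := MvPolynomial ι ℤ
  let R := MvPolynomial (Option τ) B
  let aU : ι → R := fun i => C (X i)
  let xU : τ → R := fun t => X (some t)
  let rel : Option ρ → R := fun r => r.elim (X none * Δ R aU xU - 1) (F R aU (xU ∘ Sum.inl))
  let I : Ideal R := Ideal.span (Set.range rel)
  have hrel : ∀ (C : Type) [CommRing C] (φ : R →+* C), (∀ r, φ (rel r) = 0) ↔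
      (φ (X none) * Δ C (φ ∘ aU) (φ ∘ xU) = 1 ∧ F C (φ ∘ aU) (φ ∘ xU ∘ Sum.inl) = 0) := by
    intro C _ φ
    rw [Option.forall]
    simp only [rel, Option.elim_none, Option.elim_some, map_sub, map_mul, map_one, hΔ, hF,
      sub_eq_zero, _root_.funext_iff, Pi.zero_apply]
  have hI : ∀ (C : Type) [CommRing C] (φ : R →+* C), (∀ r, φ (rel r) = 0) → ∀ x ∈ I, φ x = 0 := by
    intro C _ φ h x hx
    have : I ≤ RingHom.ker φ := by
      rw [Ideal.span_le]
      rintro _ ⟨r, rfl⟩
      exact h r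
    exact this hx
  have hI' : ∀ r, Ideal.Quotient.mk I (rel r) = 0 := fun r =>
    Ideal.Quotient.eq_zero_iff_mem.2 (Ideal.subset_span ⟨r, rfl⟩)
  haveI hfp : Algebra.FinitePresentation B (R ⧸ I) :=
    Algebra.FinitePresentation.quotient (Submodule.fg_span (Set.finite_range rel))
  haveI hfs : Algebra.FormallySmooth B (R ⧸ I) := by
    apply Algebra.FormallySmooth.of_comp_surjective
    intro C _ _ N hN f
    let fb : R →+* C ⧸ N := f.toRingHom.comp (Ideal.Quotient.mk I)
    obtain ⟨e1, e2⟩ := (hrel _ fb).1 fun r => by simp [fb, hI' r]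
    choose x hx using fun t : τ => Ideal.Quotient.mk_surjective (I := N) (fb (xU t))
    let aC : ι → C := fun i => algebraMap B C (X i)
    have haC : Ideal.Quotient.mk N ∘ aC = fb ∘ aU := by
      ext i
      have : Ideal.Quotient.mk I (aU i) = algebraMap B (R ⧸ I) (X i) := rfl
      simp only [Function.comp, aC, fb, RingHom.comp_apply, this, AlgHom.toRingHom_eq_coe,
        RingHom.coe_coe, AlgHom.commutes]
      rfl
    have hxC : Ideal.Quotient.mk N ∘ x = fb ∘ xU := funext hx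
    have hnil : IsNilpotent N := ⟨2, hN⟩
    have hu : ∀ x' : τ → C, Ideal.Quotient.mk N ∘ x' = fb ∘ xU → IsUnit (Δ C aC x') := by
      intro x' hx'
      rw [← hnil.isUnit_quotient_mk_iff, hΔ, haC, hx']
      exact IsUnit.of_mul_eq_one_right _ e1
    let S : Matrix κ ρ C := Matrix.of fun k r => x (Sum.inr (k, r))
    let Jx := J C aC (x ∘ Sum.inl)
    have hdet : IsUnit (Jx * S).det := isUnit_of_mul_isUnit_left (hu x hxC)
    let F0 := F C aC (x ∘ Sum.inl)
    have hF0 : ∀ r, F0 r ∈ N := by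
      intro r
      rw [← Ideal.Quotient.eq_zero_iff_mem, hF, haC, ← Function.comp_assoc, hxC,
        Function.comp_assoc, e2]
      rfl
    let β : κ → C := -(S * (Jx * S)⁻¹).mulVec F0
    have hβ : ∀ k, β k ∈ N := by
      intro k
      simp only [β, Pi.neg_apply, Matrix.mulVec, dotProduct]
      exact N.neg_mem (N.sum_mem fun r _ => N.mul_mem_left _ (hF0 r))
    have hββ : ∀ k k', β k * β k' = 0 := by
      intro k k'
      have : β k * β k' ∈ N ^ 2 := by rw [sq]; exact Ideal.mul_mem_mul (hβ k) (hβ k')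
      rwa [hN] at this
    let x' : τ → C := Sum.elim (x ∘ Sum.inl + β) (x ∘ Sum.inr)
    have hx' : Ideal.Quotient.mk N ∘ x' = fb ∘ xU := by
      rw [← hxC]
      ext t
      cases t with
      | inl k =>
        simp [x', Ideal.Quotient.eq_zero_iff_mem.2 (hβ k)]
      | inr k => rfl
    have hF' : F C aC (x' ∘ Sum.inl) = 0 := by
      have : x' ∘ Sum.inl = x ∘ Sum.inl + β := rfl
      rw [this, hT C aC _ β hββ]
      show F0 + Jx.mulVec (-(S * (Jx * S)⁻¹).mulVec F0) = 0
      rw [Matrix.mulVec_neg, Matrix.mulVec_mulVec, ← Matrix.mul_assoc,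
        Matrix.mul_nonsing_inv _ hdet, Matrix.one_mulVec, add_neg_cancel]
    obtain ⟨T, hT'⟩ := (hu x' hx').exists_left_inv
    let g : R →ₐ[B] C := aeval fun o => o.elim T x'
    have hgX : ∀ o, g (X o) = o.elim T x' := fun o => aeval_X _ o
    have hga : g.toRingHom ∘ aU = aC := by
      ext i; exact aeval_C _ _
    have hgx : g.toRingHom ∘ xU = x' := by
      ext t; exact hgX (some t)
    have hg : ∀ r, g.toRingHom (rel r) = 0 := by
      rw [hrel, ← Function.comp_assoc, hga, hgx]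
      refine ⟨?_, hF'⟩
      show g (X none) * _ = 1
      rw [hgX]; exact hT'
    refine ⟨Ideal.Quotient.liftₐ I g (hI C g.toRingHom hg), ?_⟩
    apply Ideal.Quotient.algHom_ext
    apply MvPolynomial.algHom_ext
    intro o
    cases o with
    | none =>
      have h1 : Ideal.Quotient.mk N T * Δ _ (fb ∘ aU) (fb ∘ xU) = 1 := by
        rw [← haC, ← hx', ← hΔ, ← map_mul, hT', map_one]
      have h2 : Ideal.Quotient.mk N T = fb (X none) := by
        calc Ideal.Quotient.mk N T = Ideal.Quotient.mk N T * (fb (X none) *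
              Δ _ (fb ∘ aU) (fb ∘ xU)) := by rw [e1, mul_one]
          _ = fb (X none) * (Ideal.Quotient.mk N T * Δ _ (fb ∘ aU) (fb ∘ xU)) := by ring
          _ = fb (X none) := by rw [h1, mul_one]
      show Ideal.Quotient.mk N (g (X none)) = fb (X none)
      rw [hgX]; exact h2
    | some t =>
      show Ideal.Quotient.mk N (g (X (some t))) = fb (X (some t))
      rw [hgX]; exact congrFun hx' t
  haveI : Algebra.Smooth B (R ⧸ I) := ⟨hfs, hfp⟩
  -- the given point
  choose S hS using fun r : ρ => hs (Pi.single r 1)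
  let x0 : τ → K := Sum.elim b fun kr => S kr.2 kr.1
  have hx0 : Δ K a x0 ≠ 0 := by
    have : (J K a b * Matrix.of fun k r => S r k) = 1 := by
      ext r r'
      have := congrFun (hS r') r
      simp only [Matrix.mulVec, dotProduct] at this
      simp only [Matrix.mul_apply, Matrix.of_apply, this, Matrix.one_apply, Pi.single_apply]
    show (J K a b * Matrix.of fun k r => S r k).det * ev (Sum.elim a b) G ≠ 0
    rw [this, Matrix.det_one, one_mul]; exact g1
  let ψ : R →+* K := eval₂Hom (ev a) fun o => o.elim (Δ K a x0)⁻¹ x0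
  have hψX : ∀ o, ψ (X o) = o.elim (Δ K a x0)⁻¹ x0 := fun o => eval₂Hom_X' _ _ o
  have hψC : ∀ Q : B, ψ (C Q) = ev a Q := fun Q => eval₂Hom_C _ _ Q
  have hψa : ψ ∘ aU = a := by ext i; exact (hψC _).trans (ev_X _ _)
  have hψx : ψ ∘ xU = x0 := by ext t; exact hψX (some t)
  have hψ : ∀ r, ψ (rel r) = 0 := by
    rw [hrel, ← Function.comp_assoc, hψa, hψx]
    exact ⟨by rw [hψX]; exact inv_mul_cancel₀ hx0, h0⟩
  obtain ⟨Q, q1, q2⟩ := exists_open_of_smooth (B := B) (A := R ⧸ I) (K := K)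
    (Ideal.Quotient.lift I ψ (hI K ψ hψ))
  refine ⟨Q, ?_, fun L _ _ y hy => ?_⟩
  · have : Ideal.Quotient.lift I ψ (hI K ψ hψ) (algebraMap B (R ⧸ I) Q) = ev a Q := by
      exact hψC Q
    rwa [this] at q1
  · obtain ⟨χ, hχ⟩ := q2 L (ev y) hy
    let χ' : R →+* L := χ.comp (Ideal.Quotient.mk I)
    obtain ⟨e1, e2⟩ := (hrel _ χ').1 fun r => by simp [χ', hI' r]
    have hχa : χ' ∘ aU = y := by
      ext i
      have := DFunLike.congr_fun hχ (X i)
      rw [ev_X] at this
      exact this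
    rw [hχa] at e1 e2
    have hne : Δ L y (χ' ∘ xU) ≠ 0 := right_ne_zero_of_mul_eq_one e1
    refine ⟨χ' ∘ xU ∘ Sum.inl, e2, ?_, g2 L _ (right_ne_zero_of_mul hne)⟩
    have hd := left_ne_zero_of_mul hne
    intro w
    set M := J L y ((χ' ∘ xU) ∘ Sum.inl) * Matrix.of fun k r => (χ' ∘ xU) (Sum.inr (k, r)) with hM
    refine ⟨((Matrix.of fun k r => (χ' ∘ xU) (Sum.inr (k, r))) * M⁻¹).mulVec w, ?_⟩
    rw [Matrix.mulVec_mulVec, ← Matrix.mul_assoc]
    show (M * M⁻¹).mulVec w = w
    rw [Matrix.mul_nonsing_inv _ hd.isUnit, Matrix.one_mulVec]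

/-- Surjectivity of a linear map with polynomial coefficients is an open condition. -/
theorem isOpenPred_surj {σ κ ρ : Type} [Fintype κ] [DecidableEq κ] [Fintype ρ] [DecidableEq ρ]
    (Λ : ∀ (C : Type) [CommRing C], (σ → C) → (κ → C) →ₗ[C] (ρ → C))
    (hΛ : ∀ (C D : Type) [CommRing C] [CommRing D] (φ : C →+* D) (a : σ → C) (b : κ → C) (r : ρ),
      φ (Λ C a b r) = Λ D (φ ∘ a) (φ ∘ b) r) :
    IsOpenPred fun K _ a => Function.Surjective (Λ K a) := by
  have := isOpenPred_smooth (ι := σ) (κ := κ) (ρ := ρ) (fun C _ a b => Λ C a b)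
    (fun C _ a _ => LinearMap.toMatrix' (Λ C a)) hΛ (by
      intro C D _ _ φ a b
      ext r k
      simp only [Matrix.map_apply, LinearMap.toMatrix'_apply, hΛ]
      have : φ ∘ Pi.single k 1 = Pi.single k 1 := by
        funext k'
        simp only [Function.comp, Pi.single_apply]
        split_ifs <;> simp
      rw [this]) (by
      intro C _ a b β _
      rw [map_add, ← Matrix.toLin'_apply, Matrix.toLin'_toMatrix']) isOpenPred_true
  refine this.congr fun K _ a => ?_
  have h : (LinearMap.toMatrix' (Λ K a)).mulVec = Λ K a := by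
    ext b : 1
    rw [← Matrix.toLin'_apply, Matrix.toLin'_toMatrix']
  constructor
  · rintro ⟨b, -, h2, -⟩
    rwa [h] at h2
  · intro h2
    exact ⟨0, map_zero _, by rwa [h], trivial⟩

end Pool.Agent.H265Z
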