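import Pool.Agent.H265Z.Geom
import Pool.Agent.H265Z.Open

/-!
# The algebraic conditions are open
-/

set_option autoImplicit false
set_option linter.unusedSectionVars false

namespace Pool.Agent.H265Z

open Polynomial

section ring

variable {A : Type} [CommRing A] {J ι₀ κ₀ : Type} [Fintype J] [DecidableEq J] [Fintype ι₀]
  [DecidableEq ι₀] [Fintype κ₀] [DecidableEq κ₀]

/-- the block of the extra points on the extra coordinates -/
def E0 (p : J ⊕ ι₀ → J ⊕ κ₀ → A) : Matrix J J A := Matrix.of fun l k => p (.inl k) (.inl l)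

/-- a projection from the extra points -/
def lam (p : J ⊕ ι₀ → J ⊕ κ₀ → A) (a : κ₀) : J ⊕ κ₀ → A :=
  Sum.elim (fun l => -∑ k, p (.inl k) (.inr a) * (E0 p).adjugate k l)
    (fun b => if a = b then (E0 p).det else 0)

lemma lam_kill (p : J ⊕ ι₀ → J ⊕ κ₀ → A) (a : κ₀) (k' : J) :
    ∑ m, lam p a m * p (.inl k') m = 0 := by
  have h1 : ∀ k, ∑ l, (E0 p).adjugate k l * p (.inl k') (.inl l) =
      if k = k' then (E0 p).det else 0 := by
    intro k
    have := congrFun (congrFun (Matrix.adjugate_mul (E0 p)) k) k'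
    rw [Matrix.mul_apply] at this
    simpa [E0, Matrix.one_apply] using this
  simp only [Fintype.sum_sum_type, lam, Sum.elim_inl, Sum.elim_inr, neg_mul, Finset.sum_neg_distrib,
    Finset.sum_mul, ite_mul, zero_mul, Finset.sum_ite_eq, Finset.mem_univ, if_true]
  rw [Finset.sum_comm]
  simp only [mul_assoc, ← Finset.mul_sum, h1, mul_ite, mul_zero, Finset.sum_ite_eq',
    Finset.mem_univ, if_true]
  ring

lemma lam_map {B : Type} [CommRing B] (φ : A →+* B) (p : J ⊕ ι₀ → J ⊕ κ₀ → A) (a : κ₀)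
    (m : J ⊕ κ₀) : φ (lam p a m) = lam (fun i k => φ (p i k)) a m := by
  have h0 : φ.mapMatrix (E0 p) = E0 fun i k => φ (p i k) := rfl
  cases m with
  | inl l =>
    simp only [lam, Sum.elim_inl, map_neg, map_sum, map_mul, ← h0, ← φ.map_adjugate]
    rfl
  | inr b =>
    simp only [lam, Sum.elim_inr, ← h0, ← φ.map_det]
    split_ifs <;> simp

/-- the projected base points -/
def lamP (p : J ⊕ ι₀ → J ⊕ κ₀ → A) (i : ι₀) (a : κ₀) : A := ∑ m, lam p a m * p (.inr i) m

/-- the projected curve -/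
noncomputable def lamf (p : J ⊕ ι₀ → J ⊕ κ₀ → A) (f : J ⊕ κ₀ → A[X]) (a : κ₀) : A[X] :=
  ∑ m, C (lam p a m) * f m

/-- all the algebraic conditions -/
def Good (μ : J ⊕ ι₀ → ℕ) (δ N : ℕ) (p : J ⊕ ι₀ → J ⊕ κ₀ → A) : Prop :=
  ∃ R h, Alg μ δ p R h ∧ Quad (lamP p) (lamf p (ff p R h)) δ N

/-- the linear map attached to the quadric condition -/
noncomputable def Qmap (P : ι₀ → κ₀ → A) (g : κ₀ → A[X]) (N D : ℕ) :
    (κ₀ × κ₀ → A) →ₗ[A] (ι₀ ⊕ Fin (D + 1) → A) where
  toFun B := Sum.elim (fun i => ∑ k, ∑ l, B (k, l) * (P i k * P i l))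
    (fun d => (∑ k, ∑ l, C (B (k, l)) * (g k * g l)).coeff (N + d))
  map_add' B B' := by
    funext x
    cases x <;> simp [add_mul, Finset.sum_add_distrib]
  map_smul' c B := by
    funext x
    cases x <;> simp [Finset.mul_sum, mul_assoc]

lemma quad_iff {P : ι₀ → κ₀ → A} {g : κ₀ → A[X]} {δ N D : ℕ} (hN : 2 * δ = N + D)
    (hg : ∀ k, DL (g k) (δ + 1)) : Quad P g δ N ↔ Function.Surjective (Qmap P g N D) := by
  have hB : ∀ B : κ₀ → κ₀ → A, DL (∑ k, ∑ l, C (B k l) * (g k * g l)) (N + (D + 1)) := fun B =>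
    DL.sum fun k _ => DL.sum fun l _ => ((hg k).mul (hg l) (by omega)).C_mul _
  constructor
  · intro H v
    obtain ⟨y, hy1, hy2⟩ := hiCoeff_surj (κ := Unit) N (D + 1) fun x => v (.inr x.2)
    obtain ⟨B, h1, h2⟩ := H (fun i => v (.inl i)) (y ()) ((hy1 ()).mono (by omega))
    refine ⟨fun kl => B kl.1 kl.2, funext fun x => ?_⟩
    cases x with
    | inl i => exact h1 i
    | inr d =>
      have e1 := h2 (N + d) (by omega)
      have e2 : (y ()).coeff (N + d) = v (.inr d) := congrFun hy2 ((), d)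
      rw [coeff_sub, sub_eq_zero] at e1
      exact e1.symm.trans e2
  · intro H a y hy
    obtain ⟨B, hB'⟩ := H (Sum.elim a fun d => y.coeff (N + d))
    refine ⟨fun k l => B (k, l), fun i => congrFun hB' (.inl i), fun m hm => ?_⟩
    by_cases h1 : m < N + (D + 1)
    · have := congrFun hB' (.inr ⟨m - N, by omega⟩)
      simp only [Qmap, LinearMap.coe_mk, AddHom.coe_mk, Sum.elim_inr] at this
      rw [Nat.add_sub_cancel' hm] at this
      rw [coeff_sub, this, sub_self]
    · rw [coeff_sub, hy m (by omega), hB (fun k l => B (k, l)) m (by omega), sub_self]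

lemma DL_lamf (p : J ⊕ ι₀ → J ⊕ κ₀ → A) {f : J ⊕ κ₀ → A[X]} {n : ℕ} (hf : ∀ k, DL (f k) n)
    (a : κ₀) : DL (lamf p f a) n := DL.sum fun m _ => (hf m).C_mul _

/-- the monic polynomials attached to a vector of unknowns -/
noncomputable def uH {ι : Type} {μ : ι → ℕ} (b : Unk μ → A) (i : ι) : A[X] := X ^ μ i + uh b i

lemma uR_map {B : Type} [CommRing B] (φ : A →+* B) {ι : Type} {μ : ι → ℕ} (b : Unk μ → A)
    (i : ι) : (uR b i).map φ = uR (φ ∘ b) i := pol_map φ _

lemma uh_map {B : Type} [CommRing B] (φ : A →+* B) {ι : Type} {μ : ι → ℕ} (b : Unk μ → A)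
    (i : ι) : (uh b i).map φ = uh (φ ∘ b) i := pol_map φ _

lemma uH_map {B : Type} [CommRing B] (φ : A →+* B) {ι : Type} {μ : ι → ℕ} (b : Unk μ → A)
    (i : ι) : (uH b i).map φ = uH (φ ∘ b) i := by
  simp [uH, uh_map]

lemma Mon_uH {ι : Type} {μ : ι → ℕ} (b : Unk μ → A) (i : ι) : Mon (uH b i) (μ i) :=
  Mon_add_pol _

end ring

lemma coprime_iff_resultant {K : Type} [Field K] {h g : K[X]} {m n : ℕ} (hh : Mon h m)
    (hg : DL g (n + 1)) : resultant h g m n ≠ 0 ↔ IsCoprime g h := by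
  obtain ⟨k, rfl⟩ : ∃ k, n = g.natDegree + k := ⟨n - g.natDegree, by have := hg.natDegree_le; omega⟩
  rw [resultant_add_right_deg _ _ _ _ _ le_rfl, hh.coeff, one_pow, one_mul, isCoprime_comm,
    ← isUnit_resultant_iff_isCoprime hh.monic, isUnit_iff_ne_zero, hh.natDegree]

section

variable {J ι₀ κ₀ : Type} [Fintype J] [DecidableEq J] [Fintype ι₀]
  [DecidableEq ι₀] [Fintype κ₀] [DecidableEq κ₀]

/-- the quadric map as a function of all the variables -/
noncomputable def Qs (μ : J ⊕ ι₀ → ℕ) (N D : ℕ) (C : Type) [CommRing C]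
    (x : ((J ⊕ ι₀) × (J ⊕ κ₀)) ⊕ Unk μ → C) : (κ₀ × κ₀ → C) →ₗ[C] (ι₀ ⊕ Fin (D + 1) → C) :=
  Qmap (lamP fun i k => x (Sum.inl (i, k))) (lamf (fun i k => x (Sum.inl (i, k)))
    (ff (fun i k => x (Sum.inl (i, k))) (uR (x ∘ Sum.inr)) (uH (x ∘ Sum.inr)))) N D

lemma isOpenPred_Qs (μ : J ⊕ ι₀ → ℕ) (N D : ℕ) :
    IsOpenPred (σ := ((J ⊕ ι₀) × (J ⊕ κ₀)) ⊕ Unk μ) fun K _ x =>
      Function.Surjective (Qs μ N D K x) := by
  refine isOpenPred_surj (Qs μ N D) ?_
  intro C D _ _ φ x b r
  cases r with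
  | inl i =>
    simp only [Qs, Qmap, LinearMap.coe_mk, AddHom.coe_mk, Sum.elim_inl, map_sum, map_mul, lamP,
      lam_map, Function.comp]
  | inr d =>
    simp only [Qs, Qmap, LinearMap.coe_mk, AddHom.coe_mk, Sum.elim_inr, ← coeff_map,
      Polynomial.map_sum, Polynomial.map_mul, map_C, lamf, lam_map φ, ff_map, uR_map, uH_map]
    rfl

theorem isOpenPred_good (μ : J ⊕ ι₀ → ℕ) {δ N D e : ℕ} (hM : ∑ i, μ i = δ + 1 + e)
    (hN : 2 * δ = N + D) :
    IsOpenPred (σ := (J ⊕ ι₀) × (J ⊕ κ₀)) fun _ _ x => Good μ δ N fun i k => x (i, k) := by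
  let σ := ((J ⊕ ι₀) × (J ⊕ κ₀)) ⊕ Unk μ
  have c1 : IsOpenPred (σ := σ) fun K _ x => ∀ i j, i ≠ j →
      resultant (uH (x ∘ Sum.inr) j) (uH (x ∘ Sum.inr) i) (μ j) (μ i) ≠ 0 :=
    IsOpenPred.forall fun i => IsOpenPred.forall fun j => IsOpenPred.imp _ fun _ =>
      isOpenPred_ne (fun C _ x => resultant (uH (x ∘ Sum.inr) j) (uH (x ∘ Sum.inr) i) (μ j) (μ i))
        fun C D _ _ φ x => by
          rw [← resultant_map_map, uH_map, uH_map]; rfl
  have c2 : IsOpenPred (σ := σ) fun K _ x => ∀ i,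
      resultant (uH (x ∘ Sum.inr) i) (uR (x ∘ Sum.inr) i) (μ i) (μ i) ≠ 0 :=
    IsOpenPred.forall fun i => isOpenPred_ne
      (fun C _ x => resultant (uH (x ∘ Sum.inr) i) (uR (x ∘ Sum.inr) i) (μ i) (μ i))
      fun C D _ _ φ x => by
        rw [← resultant_map_map, uH_map, uR_map]; rfl
  have c3 : IsOpenPred (σ := σ) fun K _ x => ∀ i j, i ≠ j → ∃ k l,
      x (.inl (i, k)) * x (.inl (j, l)) - x (.inl (i, l)) * x (.inl (j, k)) ≠ 0 :=
    IsOpenPred.forall fun i => IsOpenPred.forall fun j => IsOpenPred.imp _ fun _ =>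
      IsOpenPred.exists fun k => IsOpenPred.exists fun l =>
        isOpenPred_ne (σ := σ) (fun C _ x => x (Sum.inl (i, k)) * x (Sum.inl (j, l)) -
          x (Sum.inl (i, l)) * x (Sum.inl (j, k))) fun C D _ _ φ x => by simp
  have c4 := isOpenPred_Qs (κ₀ := κ₀) μ N D
  have main := isOpenPred_smooth (ι := (J ⊕ ι₀) × (J ⊕ κ₀)) (κ := Unk μ) (ρ := (J ⊕ κ₀) × Fin e)
    (fun C _ a b => hiCoeff _ (δ + 1) e (ff (fun i k => a (i, k)) (uR b) (uH b)))
    (fun C _ a b => LinearMap.toMatrix'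
      ((hiCoeff _ (δ + 1) e).comp (DDl μ (fun i k => a (i, k)) (uR b) (uH b))))
    (by
      intro C D _ _ φ a b r
      simp only [hiCoeff, LinearMap.coe_mk, AddHom.coe_mk, ← coeff_map, ff_map, uR_map, uH_map]
      rfl)
    (by
      intro C D _ _ φ a b
      ext r k
      have : φ ∘ Pi.single k 1 = Pi.single k 1 := by
        funext k'
        simp only [Function.comp, Pi.single_apply]
        split_ifs <;> simp
      simp only [Matrix.map_apply, LinearMap.toMatrix'_apply, LinearMap.comp_apply, hiCoeff, DDl,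
        LinearMap.coe_mk, AddHom.coe_mk, ← coeff_map, DD_map, uR_map, uH_map, uh_map, this]
      rfl)
    (by
      intro C _ a b β hβ
      rw [← Matrix.toLin'_apply, Matrix.toLin'_toMatrix', LinearMap.comp_apply, ← map_add]
      congr 1
      funext k
      have e1 : uR (b + β) = uR b + uR β := funext fun i => pol_add _ _
      have e2 : uH (b + β) = uH b + uh β := funext fun i => by
        have : uh (b + β) i = uh b i + uh β i := pol_add _ _
        simp only [uH, Pi.add_apply, this, add_assoc]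
      rw [e1, e2]
      exact ff_taylor _ _ _ _ _ (fun i j => pol_mul_pol_eq_zero fun _ _ => hβ _ _)
        (fun i j => pol_mul_pol_eq_zero fun _ _ => hβ _ _) k)
    (((c1.and c2).and c3).and c4)
  refine main.congr fun K _ a => ?_
  have hsurj : ∀ b : Unk μ → K, (LinearMap.toMatrix'
      ((hiCoeff _ (δ + 1) e).comp (DDl μ (fun i k => a (i, k)) (uR b) (uH b)))).mulVec =
      (hiCoeff _ (δ + 1) e).comp (DDl μ (fun i k => a (i, k)) (uR b) (uH b)) := by
    intro b
    ext β : 1
    rw [← Matrix.toLin'_apply, Matrix.toLin'_toMatrix']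
  have hff : ∀ (b : Unk μ → K) k, DL (ff (fun i k => a (i, k)) (uR b) (uH b) k) (δ + 1 + e) :=
    fun b k => hM ▸ DL_ff (Mon_uH b) _ (fun i => DL_pol _) k
  constructor
  · rintro ⟨b, h0, h1, ⟨⟨h2, h3⟩, h4⟩, h5⟩
    rw [hsurj] at h1
    rw [hiCoeff_eq_zero (hff b)] at h0
    refine ⟨uR b, uH b, ⟨Mon_uH b, fun i => DL_pol _, h0,
      (rigid_iff hM (Mon_uH b) fun i => DL_pol _).2 h1, fun i j hij => ?_, fun i => ?_, h4⟩,
      (quad_iff hN (DL_lamf _ h0)).2 h5⟩
    · exact (coprime_iff_resultant (Mon_uH b j) (Mon_uH b i).dl).1 (h2 i j hij)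
    · exact (coprime_iff_resultant (Mon_uH b i) ((DL_pol _).mono (Nat.le_succ _))).1 (h3 i)
  · rintro ⟨R, h, H, hq⟩
    obtain ⟨b, rfl, hb⟩ := exists_unk H.degR H.mon
    obtain rfl : h = uH b := funext fun i => by rw [uH, hb]; ring
    refine ⟨b, (hiCoeff_eq_zero (hff b)).2 H.degf, ?_, ⟨⟨fun i j hij => ?_, fun i => ?_⟩,
      H.indep⟩, (quad_iff hN (DL_lamf _ H.degf)).1 hq⟩
    · rw [hsurj]; exact (rigid_iff hM H.mon H.degR).1 H.rigid
    · exact (coprime_iff_resultant (Mon_uH b j) (Mon_uH b i).dl).2 (H.cop i j hij)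
    · exact (coprime_iff_resultant (Mon_uH b i) ((DL_pol _).mono (Nat.le_succ _))).2 (H.copR i)

lemma BB_app {K S α β : Type} [Field K] [CommRing S] [Algebra K S] [Fintype α] [Fintype β]
    (B : α → α → K) (Λ : α → β → K) (x y : β → S) :
    BB (fun k l => ∑ a, ∑ b, B a b * (Λ a k * Λ b l)) x y = BB B (app Λ x) (app Λ y) := by
  simp only [BB, app, map_sum, map_mul, Finset.sum_mul, Finset.mul_sum]
  calc _ = ∑ k, ∑ a, ∑ l, ∑ b, algebraMap K S (B a b) *
        (algebraMap K S (Λ a k) * algebraMap K S (Λ b l)) * (x k * y l) :=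
        Finset.sum_congr rfl fun k _ => Finset.sum_comm
    _ = ∑ a, ∑ k, ∑ l, ∑ b, algebraMap K S (B a b) *
        (algebraMap K S (Λ a k) * algebraMap K S (Λ b l)) * (x k * y l) := Finset.sum_comm
    _ = ∑ a, ∑ k, ∑ b, ∑ l, algebraMap K S (B a b) *
        (algebraMap K S (Λ a k) * algebraMap K S (Λ b l)) * (x k * y l) :=
        Finset.sum_congr rfl fun a _ => Finset.sum_congr rfl fun k _ => Finset.sum_comm
    _ = ∑ a, ∑ b, ∑ k, ∑ l, algebraMap K S (B a b) *
        (algebraMap K S (Λ a k) * algebraMap K S (Λ b l)) * (x k * y l) :=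
        Finset.sum_congr rfl fun a _ => Finset.sum_comm
    _ = ∑ a, ∑ b, ∑ l, ∑ k, algebraMap K S (B a b) *
        (algebraMap K S (Λ a k) * algebraMap K S (Λ b l)) * (x k * y l) :=
        Finset.sum_congr rfl fun a _ => Finset.sum_congr rfl fun k _ => Finset.sum_comm
    _ = _ := Finset.sum_congr rfl fun a _ => Finset.sum_congr rfl fun b _ =>
        Finset.sum_congr rfl fun l _ => Finset.sum_congr rfl fun k _ => by ring

theorem Good.geomData {K : Type} [Field K] [Nontrivial ι₀] {μ : J ⊕ ι₀ → ℕ} {δ N D e : ℕ}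
    {p : J ⊕ ι₀ → J ⊕ κ₀ → K} (H : Good μ δ N p) (hM : ∑ i, μ i = δ + 1 + e)
    (hM' : 2 * ∑ i, μ i = Fintype.card (J ⊕ κ₀) * e + 4) (he : 1 ≤ e) (lt : ∀ i, μ i < δ)
    (hN : 2 * δ = N + D) (hN' : N = ∑ i, μ i + ∑ j, μ (.inl j)) (Dpos : 1 ≤ D) :
    ∃ h ρ Γ f, GeomData μ δ D (fun i => i.isLeft = true) p h ρ Γ f := by
  obtain ⟨R, h, H, hq⟩ := H
  have hext : ∑ i : J ⊕ ι₀, (if i.isLeft = true then μ i else 0) = ∑ j, μ (.inl j) := by
    simp [Fintype.sum_sum_type]
  have ne : ∀ i, p i ≠ 0 := by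
    intro i hi
    obtain ⟨a, b, hab⟩ := exists_pair_ne ι₀
    haveI : Nontrivial (J ⊕ ι₀) := ⟨.inr a, .inr b, by simpa using hab⟩
    obtain ⟨j, hj⟩ := exists_ne i
    obtain ⟨k, l, hkl⟩ := H.indep i j hj.symm
    simp [hi] at hkl
  have hT : Mon (Tot (fun i : J ⊕ ι₀ => i.isLeft = true) h) N := by
    rw [hN', ← hext]
    refine (Mon.prod fun i _ => H.mon i).mul (Mon.prod fun i _ => ?_)
    split_ifs
    · exact H.mon i
    · exact Mon_one
  obtain ⟨ρ, Γ, hG⟩ := H.geomData (D := D) (ext := fun i => i.isLeft = true) hM hM' he lt ne Dpos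
    (by rw [hext]; omega) (by
      intro w hw
      obtain ⟨B, hB1, hB2⟩ := hq 0 (Tot (fun i : J ⊕ ι₀ => i.isLeft = true) h * w)
        (hT.dl.mul hw (by omega))
      have hk : ∀ j, app (lam p) (p (.inl j)) = fun _ => 0 := fun j => funext fun a => lam_kill p a j
      have hadm : Adm (fun i : J ⊕ ι₀ => i.isLeft = true) p
          fun k l => ∑ a, ∑ b, B a b * (lam p a k * lam p b l) := by
        refine ⟨fun i => ?_, fun i hi => ?_⟩
        · rw [BB_app]
          cases i with
          | inl j => simp [hk, BB]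
          | inr i => exact hB1 i
        · cases i with
          | inr i => simp at hi
          | inl j =>
            constructor
            · intro k
              have : ∑ l, (∑ a, ∑ b, B a b * (lam p a k * lam p b l)) * p (.inl j) l =
                  ∑ a, ∑ b, B a b * lam p a k * ∑ l, lam p b l * p (.inl j) l := by
                simp only [Finset.sum_mul, Finset.mul_sum]
                rw [Finset.sum_comm]
                refine Finset.sum_congr rfl fun a _ => ?_
                rw [Finset.sum_comm]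
                exact Finset.sum_congr rfl fun b _ => Finset.sum_congr rfl fun l _ => by ring
              simp only [this, lam_kill, mul_zero, Finset.sum_const_zero]
            · intro l
              have : ∑ k, (∑ a, ∑ b, B a b * (lam p a k * lam p b l)) * p (.inl j) k =
                  ∑ a, ∑ b, B a b * lam p b l * ∑ k, lam p a k * p (.inl j) k := by
                simp only [Finset.sum_mul, Finset.mul_sum]
                rw [Finset.sum_comm]
                refine Finset.sum_congr rfl fun a _ => ?_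
                rw [Finset.sum_comm]
                exact Finset.sum_congr rfl fun b _ => Finset.sum_congr rfl fun l _ => by ring
              simp only [this, lam_kill, mul_zero, Finset.sum_const_zero]
      refine ⟨_, hadm, ?_⟩
      set B' := fun k l => ∑ a, ∑ b, B a b * (lam p a k * lam p b l) with hB'
      have hB2' : DL (Tot (fun i : J ⊕ ι₀ => i.isLeft = true) h * w -
          BB B' (ff p R h) (ff p R h)) N := by
        rw [hB', BB_app]; exact hB2
      have hdvd : Tot (fun i : J ⊕ ι₀ => i.isLeft = true) h ∣ BB B' (ff p R h) (ff p R h) := by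
        rw [Tot, ← Finset.prod_mul_distrib]
        refine Fintype.prod_dvd_of_coprime (fun i j hij => ?_) fun i => ?_
        · have := H.cop i j hij
          show IsCoprime (h i * if i.isLeft = true then h i else 1)
            (h j * if j.isLeft = true then h j else 1)
          split_ifs
          · exact (this.mul_left this).mul_right (this.mul_left this)
          · simpa using this.mul_left this
          · simpa using this.mul_right this
          · simpa using this
        · have e : ff p R h = fun k => h i * GG p R h i k +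
              (R i * Hi h i) * algebraMap K K[X] (p i k) := funext fun k => by
            rw [ff_eq p R h i k, algebraMap_eq]; ring
          rw [e, BB_expand, BB_algebraMap, hadm.1 i, map_zero, mul_zero, add_zero]
          split_ifs with hi
          · rw [BB_zero_right B' _ (hadm.2 i hi).1, BB_zero_left B' _ (hadm.2 i hi).2]
            exact ⟨BB B' (GG p R h i) (GG p R h i), by ring⟩
          · exact ⟨h i * BB B' (GG p R h i) (GG p R h i) + (R i * Hi h i) *
              (BB B' (GG p R h i) (fun k => algebraMap K K[X] (p i k)) +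
                BB B' (fun k => algebraMap K K[X] (p i k)) (GG p R h i)), by ring⟩
      have := hT.eq_zero_of_dvd (dvd_sub (dvd_mul_right _ _) hdvd) hB2'
      exact (sub_eq_zero.1 this).symm)
  exact ⟨h, ρ, Γ, _, hG⟩

theorem generalBlowupHas_of_good {K : Type} [Field K] [Nontrivial ι₀] {μ : J ⊕ ι₀ → ℕ}
    {δ N D e : ℕ} {p₀ : J ⊕ ι₀ → J ⊕ κ₀ → K} (H : Good μ δ N p₀) (hM : ∑ i, μ i = δ + 1 + e)
    (hM' : 2 * ∑ i, μ i = Fintype.card (J ⊕ κ₀) * e + 4) (he : 1 ≤ e) (lt : ∀ i, μ i < δ)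
    (hN : 2 * δ = N + D) (hN' : N = ∑ i, μ i + ∑ j, μ (.inl j)) (Dpos : 1 ≤ D)
    {n s : ℕ} (hn : 1 ≤ n) (hs : 1 ≤ s) (eι : Fin s ≃ J ⊕ ι₀) (eκ : Fin (n + 1) ≃ J ⊕ κ₀) :
    GeneralBlowupHas n s ((δ : ℤ), fun i => (μ (eι i) : ℤ)) := by
  obtain ⟨G, g1, g2⟩ := isOpenPred_good (κ₀ := κ₀) μ hM hN K (fun x => p₀ x.1 x.2) H
  let r : (J ⊕ ι₀) × (J ⊕ κ₀) → Fin s × Fin (n + 1) := fun x => (eι.symm x.1, eκ.symm x.2)
  have hr : Function.Injective r := (eι.symm.prodCongr eκ.symm).injective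
  refine ⟨MvPolynomial.map (Int.castRingHom ℂ) (MvPolynomial.rename r G), ?_, fun p hp => ?_⟩
  · intro h0
    rw [map_eq_zero_iff _ (MvPolynomial.map_injective _ Int.cast_injective),
      map_eq_zero_iff _ (MvPolynomial.rename_injective r hr)] at h0
    exact g1 (by rw [h0, map_zero])
  · have hG := g2 ℂ (fun x => p (eι.symm x.1) (eκ.symm x.2)) (by
      rw [MvPolynomial.eval_map, MvPolynomial.eval₂_rename] at hp
      exact hp)
    obtain ⟨h, ρ, Γ, f, hD⟩ := Good.geomData hG hM hM' he lt hN hN' Dpos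
    have hD' := hD.reindex eι eκ
    simp only [Equiv.symm_apply_apply] at hD'
    refine ⟨fun i j hij => ?_, fun π hπ => hD'.hasMinusOneCurve hn hs hπ⟩
    obtain ⟨k, l, hkl⟩ := hD'.indep i j hij
    rw [LinearIndependent.pair_iff]
    intro a b hab
    have e1 := congrFun hab k
    have e2 := congrFun hab l
    simp only [Pi.add_apply, Pi.smul_apply, smul_eq_mul, Pi.zero_apply] at e1 e2
    constructor
    · apply (mul_eq_zero.1 _).resolve_right hkl
      linear_combination p j l * e1 - p j k * e2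
    · apply (mul_eq_zero.1 _).resolve_right hkl
      linear_combination p i k * e2 - p i l * e1

end

end Pool.Agent.H265Z
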