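import Pool.Agent.H265Z.Normal
import Pool.Agent.H265Z.Defs

/-!
# From the algebraic data to a `(-1)`-curve
-/

set_option autoImplicit false
set_option linter.unusedSectionVars false

namespace Pool.Agent.H265Z

open Polynomial

lemma pi_app {K α β : Type} [Field K] [Fintype α] [DecidableEq α]
    (π : (α → K) →ₗ[K] (β → K)) (x : α → K) (b : β) :
    π x b = app (fun b k => π (Pi.single k 1) b) x b := by
  conv_lhs => rw [← Finset.univ_sum_single x, map_sum]
  simp only [app, Finset.sum_apply, Algebra.algebraMap_self, RingHom.id_apply]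
  refine Finset.sum_congr rfl fun k _ => ?_
  have : (Pi.single k (x k) : α → K) = x k • Pi.single k 1 := by
    rw [← Pi.single_smul', smul_eq_mul, mul_one]
  rw [this, map_smul, Pi.smul_apply, smul_eq_mul, mul_comm]

lemma exists_projData {K α β : Type} [Field K] [Fintype α] [DecidableEq α] [Fintype β]
    [DecidableEq β] {π : (α → K) →ₗ[K] (β → K)} {q : α → K} (hq : q ≠ 0)
    (hs : Function.Surjective π) (hk : LinearMap.ker π = Submodule.span K {q}) :
    ∃ σ θ, ProjData q (fun b k => π (Pi.single k 1) b) σ θ ∧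
      ∀ y : β → K, π (app σ y) = y := by
  obtain ⟨S, hS⟩ := π.exists_rightInverse_of_surjective (LinearMap.range_eq_top.2 hs)
  have hS' : ∀ y, π (S y) = y := fun y => DFunLike.congr_fun hS y
  have : ∀ l : α, ∃ t : K, t • q = Pi.single l 1 - S (π (Pi.single l 1)) := by
    intro l
    rw [← Submodule.mem_span_singleton, ← hk, LinearMap.mem_ker, map_sub, hS', sub_self]
  choose θ hθ using this
  have kill : ∀ a, ∑ k, π (Pi.single k 1) a * q k = 0 := by
    intro a
    have h1 : π q = 0 := by
      rw [← LinearMap.mem_ker, hk]; exact Submodule.mem_span_singleton_self q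
    have := pi_app π q a
    rw [h1] at this
    simpa [app] using this.symm
  have dec : ∀ k l, (if k = l then 1 else 0) =
      ∑ a, S (Pi.single a 1) k * π (Pi.single l 1) a + q k * θ l := by
    intro k l
    have := congrFun (hθ l) k
    rw [Pi.sub_apply, pi_app S, Pi.single_apply, Pi.smul_apply, smul_eq_mul] at this
    simp only [app, Algebra.algebraMap_self, RingHom.id_apply] at this
    linear_combination -this
  refine ⟨fun k a => S (Pi.single a 1) k, θ, ⟨kill, dec, ?_⟩, fun y => ?_⟩
  · obtain ⟨k, hk⟩ := Function.ne_iff.1 hq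
    apply mul_left_cancel₀ hk
    have h1 : q k = ∑ l, (if k = l then 1 else 0) * q l := by simp
    have h2 : ∑ l, (∑ a, S (Pi.single a 1) k * π (Pi.single l 1) a) * q l = 0 := by
      simp only [Finset.sum_mul]
      rw [Finset.sum_comm]
      exact Finset.sum_eq_zero fun a _ => by
        simp only [mul_assoc, ← Finset.mul_sum, kill, mul_zero]
    simp only [dec, add_mul, Finset.sum_add_distrib, h2, zero_add, mul_assoc,
      ← Finset.mul_sum] at h1
    rw [mul_one]
    exact h1.symm
  · have : app (fun k a => S (Pi.single a 1) k) y = S y := funext fun k => (pi_app S y k).symm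
    rw [this, hS']

section tangent

variable {n s : ℕ} (π : Fin s → (Fin (n + 1) → ℂ) →ₗ[ℂ] (Fin n → ℂ))

/-- the tangent space as a submodule -/
def tangentSub (q : Amb n s) : Submodule ℂ (Amb n s) where
  carrier := tangent π q
  add_mem' := by
    intro v v' h h' i a b
    have := h i a b
    have := h' i a b
    simp only [Prod.fst_add, Prod.snd_add, map_add, Pi.add_apply]
    linear_combination h i a b + h' i a b
  zero_mem' := by intro i a b; simp
  smul_mem' := by
    intro c v h i a b
    simp only [Prod.smul_fst, Prod.smul_snd, map_smul, Pi.smul_apply, smul_eq_mul]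
    linear_combination c * h i a b

variable {π}

lemma mem_tangent {q v : Amb n s} {η : Fin s → ℂ} (hq : ∀ i a, π i q.1 a = η i * q.2 i a)
    (hv : ∀ i, ∃ c : ℂ, ∀ a, π i v.1 a = c * q.2 i a + η i * v.2 i a) : v ∈ tangent π q := by
  intro i a b
  obtain ⟨c, hc⟩ := hv i
  rw [hq, hq, hc, hc]; ring

lemma finrank_tangent_le {p : Fin s → Fin (n + 1) → ℂ} (hπ : IsProjFrom p π) (hp : ∀ i, p i ≠ 0)
    {q : Amb n s} {η : Fin s → ℂ} (hq : ∀ i a, π i q.1 a = η i * q.2 i a)
    (hy : ∀ i, q.2 i ≠ 0) (i₀ : Fin s) (hη : ∀ j, j ≠ i₀ → η j ≠ 0) :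
    Module.finrank ℂ (tangentSub π q) ≤ n + 1 + s := by
  obtain ⟨σ, θ, PD, hσ⟩ := exists_projData (hp i₀) (hπ i₀).1 (hπ i₀).2
  choose b hb using fun i => Function.ne_iff.1 (hy i)
  let Ψ : Amb n s →ₗ[ℂ] (Fin (n + 1) → ℂ) × (Fin s → ℂ) :=
    { toFun := fun v => (fun k => app σ (v.2 i₀) k + (∑ l, θ l * v.1 l) * p i₀ k,
        fun j => if j = i₀ then π i₀ v.1 (b i₀) else v.2 j (b j))
      map_add' := by
        intro v v'
        ext k
        · simp [app, mul_add, add_mul, Finset.sum_add_distrib]; ring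
        · simp only [Prod.fst_add, Prod.snd_add, map_add, Pi.add_apply]
          split_ifs <;> rfl
      map_smul' := by
        intro c v
        ext k
        · have := app_mul σ c (v.2 i₀) k
          simp only [Prod.smul_fst, Prod.smul_snd, Pi.smul_apply, smul_eq_mul, RingHom.id_apply,
            mul_add, ← this, mul_left_comm _ c, ← Finset.mul_sum, mul_assoc]
          rfl
        · simp only [Prod.smul_fst, Prod.smul_snd, map_smul, Pi.smul_apply, RingHom.id_apply]
          split_ifs <;> rfl }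
  have hinj : Function.Injective (Ψ.comp (tangentSub π q).subtype) := by
    rw [← LinearMap.ker_eq_bot, LinearMap.ker_eq_bot']
    rintro ⟨v, hv⟩ h0
    have h1 : ∀ k, app σ (v.2 i₀) k + (∑ l, θ l * v.1 l) * p i₀ k = 0 :=
      fun k => congrFun (congrArg Prod.fst h0) k
    have h2 : ∀ j, (if j = i₀ then π i₀ v.1 (b i₀) else v.2 j (b j)) = 0 :=
      fun j => congrFun (congrArg Prod.snd h0) j
    have hpk : π i₀ (p i₀) = 0 := by
      rw [← LinearMap.mem_ker, (hπ i₀).2]; exact Submodule.mem_span_singleton_self _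
    have h3 : v.2 i₀ = 0 := by
      have : app σ (v.2 i₀) = (-∑ l, θ l * v.1 l) • p i₀ := by
        funext k; simp only [Pi.smul_apply, smul_eq_mul]; linear_combination h1 k
      rw [← hσ (v.2 i₀), this, map_smul, hpk, smul_zero]
    have h4 : π i₀ v.1 = 0 := by
      funext a
      have e := hv i₀ a (b i₀)
      have e2 := h2 i₀
      rw [if_pos rfl] at e2
      rw [h3, e2] at e
      simp only [Pi.zero_apply, mul_zero, add_zero, zero_mul, sub_zero] at e
      exact (mul_eq_zero.1 e).resolve_right (hb i₀)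
    have h5 : v.1 = 0 := by
      funext k
      have e := PD.decomp (S := ℂ) v.1 k
      have e2 : app (fun b k => π i₀ (Pi.single k 1) b) v.1 = v.2 i₀ := by
        funext a; rw [← pi_app, h4, h3]
      rw [e2] at e
      exact e.trans (h1 k)
    ext1
    refine Prod.ext h5 (funext fun j => ?_)
    by_cases hj : j = i₀
    · rw [hj]; exact h3
    · funext a
      have e := hv j a (b j)
      have e2 := h2 j
      rw [if_neg hj] at e2
      rw [h5, e2, hq, hq] at e
      simp only [map_zero, Pi.zero_apply, zero_mul, mul_zero, add_zero, zero_add, zero_sub,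
        neg_eq_zero] at e
      exact (mul_eq_zero.1 e).resolve_left (mul_ne_zero (hη j hj) (hb j))
  have := LinearMap.finrank_le_finrank_of_injective hinj
  simpa using this

end tangent

lemma exists_indep_mod {K W : Type} [Field K] [AddCommGroup W] [Module K W]
    [FiniteDimensional K W] (U : Submodule K W) {r : ℕ}
    (h : r + Module.finrank K U ≤ Module.finrank K W) :
    ∃ v : Fin r → W, ∀ a : Fin r → K, ∑ j, a j • v j ∈ U → a = 0 := by
  have h1 : r ≤ Module.finrank K (W ⧸ U) := by
    have := U.finrank_quotient_add_finrank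
    omega
  obtain ⟨u, hu⟩ := exists_linearIndependent_of_le_finrank h1
  choose v hv using fun j => U.mkQ_surjective (u j)
  refine ⟨v, fun a ha => funext (Fintype.linearIndependent_iff.1 hu a ?_)⟩
  rw [← Submodule.Quotient.mk_eq_zero, ← Submodule.mkQ_apply, map_sum] at ha
  simpa only [map_smul, hv] using ha

theorem GeomData.hasMinusOneCurve {n s : ℕ} (hn : 1 ≤ n) (hs : 1 ≤ s) {μ : Fin s → ℕ} {δ D : ℕ}
    {ext : Fin s → Prop} [DecidablePred ext] {p : Fin s → Fin (n + 1) → ℂ}
    {h ρ : Fin s → ℂ[X]} {Γ : Fin s → Fin (n + 1) → ℂ[X]} {f : Fin (n + 1) → ℂ[X]}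
    (H : GeomData μ δ D ext p h ρ Γ f) {π : Fin s → (Fin (n + 1) → ℂ) →ₗ[ℂ] (Fin n → ℂ)}
    (hπ : IsProjFrom p π) : HasMinusOneCurve π ((δ : ℤ), fun i => (μ i : ℤ)) := by
  choose σ θ PD hσ using fun i => exists_projData (H.ne i) (hπ i).1 (hπ i).2
  set P : Fin s → Fin n → Fin (n + 1) → ℂ := fun i b k => π i (Pi.single k 1) b with hP
  have hδ : 0 < δ := lt_of_le_of_lt (Nat.zero_le _) (H.lt ⟨0, hs⟩)
  have hπP : ∀ i x b, π i x b = app (P i) x b := fun i x b => pi_app (π i) x b
  let mk : ℕ → (Fin (n + 1) → ℂ[X]) → (Fin s → Fin (n + 1) → ℂ[X]) → Forms n s := fun m x Y =>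
    (fun k => (x k).homogenize (δ + m),
      fun i => app (P i) fun k => (Y i k).homogenize (δ - μ i + m))
  have hmk : ∀ m x Y, HasDegrees (mk m x Y) (δ + m) fun i => δ - μ i + m := fun m x Y =>
    ⟨fun k => isHomogeneous_homogenize _, fun i a =>
      MvPolynomial.IsHomogeneous.sum _ _ _ fun k _ => (isHomogeneous_homogenize _).C_mul _⟩
  have hval : ∀ m x Y z, value (mk m x Y) z =
      (fun k => MvPolynomial.eval z ((x k).homogenize (δ + m)),
        fun i => app (P i) fun k => MvPolynomial.eval z ((Y i k).homogenize (δ - μ i + m))) := by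
    intro m x Y z
    refine Prod.ext rfl (funext fun i => funext fun a => eval_app _ _ _ _)
  let F := mk 0 f Γ
  have hF : ∀ z, value F z = (fun k => MvPolynomial.eval z ((f k).homogenize δ),
      fun i => app (P i) fun k => MvPolynomial.eval z ((Γ i k).homogenize (δ - μ i))) :=
    hval 0 f Γ
  have hdF : ∀ z w, diff F z w = (fun k => dv z w ((f k).homogenize δ),
      fun i => app (P i) fun k => dv z w ((Γ i k).homogenize (δ - μ i))) := by
    intro z w
    refine Prod.ext rfl (funext fun i => funext fun a => dv_app _ _ _ _ _)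
  have hq : ∀ z i a, π i (value F z).1 a =
      MvPolynomial.eval z ((h i).homogenize (μ i)) * (value F z).2 i a := by
    intro z i a
    rw [hF, hπP]
    exact H.toPre.app_f PD z i a
  have hx0 : ∀ z, z ≠ 0 → (value F z).1 ≠ 0 := fun z hz => by rw [hF]; exact H.toPre.f_ne hz
  have hy0 : ∀ z, z ≠ 0 → ∀ i, (value F z).2 i ≠ 0 := fun z hz i => by
    rw [hF]; exact H.toPre.g_ne PD hz i
  have himm : ∀ z w, z ≠ 0 → diff F z w ∈ torusDir (value F z) → ∃ a : ℂ, w = a • z := by
    rintro z w hz ⟨c, d, hcd⟩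
    rw [hdF, hF] at hcd
    exact H.toPre.imm PD hz (c := c) (d := d) (fun k => congrFun (congrArg Prod.fst hcd) k)
      (fun i a => congrFun (congrFun (congrArg Prod.snd hcd) i) a)
  refine ⟨F, δ, fun i => δ - μ i, hmk 0 f Γ, ?_, fun z hz => ⟨hx0 z hz, fun i =>
    ⟨hy0 z hz i, fun a b => by rw [hq, hq]; ring⟩⟩, ?_, himm, ?_⟩
  · refine Prod.ext rfl (funext fun i => ?_)
    have := H.lt i
    show (μ i : ℤ) = δ - ((δ - μ i : ℕ) : ℤ)
    omega
  · rintro z z' hz - ⟨c, d, hc, hd, hcd⟩
    rw [hF, hF] at hcd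
    exact H.toPre.inj PD hz hc hd (fun k => congrFun (congrArg Prod.fst hcd) k)
      (fun i a => congrFun (congrFun (congrArg Prod.snd hcd) i) a)
  obtain ⟨L, hL, hL'⟩ := H.E1
  let U := (LinearMap.range (triv δ f 3)).comap L
  have hU : Module.finrank ℂ U ≤ 6 := by
    have h1 : Function.Injective (L.restrict (p := U) (q := LinearMap.range (triv δ f 3))
        fun x hx => hx) := by
      intro x y hxy
      exact Subtype.ext (hL (congrArg Subtype.val hxy))
    refine (LinearMap.finrank_le_finrank_of_injective h1).trans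
      ((LinearMap.finrank_range_le _).trans ?_)
    simp
  obtain ⟨v, hv⟩ := exists_indep_mod U (r := n - 1) (by
    simp only [Fintype.card_fin, Module.finrank_fintype_fun_eq_card]; omega)
  have hsec : ∀ j i, ∃ (a c : ℂ[X]) (Y : Fin (n + 1) → ℂ[X]), DL a (μ i) ∧ DL c (μ i) ∧
      (∀ k, DL (Y k) (δ - μ i + 2)) ∧
      ∀ k, L (v j) k = a * Γ i k + c * C (p i k) + h i * Y k := by
    intro j i
    obtain ⟨a, c, hac⟩ := (hL' (v j)).1 i
    choose Y hY using hac
    obtain ⟨a1, a0, ha, ha0⟩ := (H.mon i).div' a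
    obtain ⟨c1, c0, hc, hc0⟩ := (H.mon i).div' c
    have e : ∀ k, h i * (Y k + a1 * Γ i k + c1 * C (p i k)) =
        L (v j) k - a0 * Γ i k - c0 * C (p i k) := by
      intro k
      have := hY k
      rw [ha, hc] at this
      linear_combination -this
    refine ⟨a0, c0, fun k => Y k + a1 * Γ i k + c1 * C (p i k), ha0, hc0, fun k => ?_,
      fun k => by rw [e]; ring⟩
    apply (H.mon i).cancel
    have hl := H.lt i
    rw [e]
    exact ((((hL' (v j)).2 k).mono (by omega)).sub
      (ha0.mul (H.toPre.degΓ i k) (by omega))).sub ((hc0.mul_C _).mono (by omega))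
  choose a c Y ha hc hY hx using hsec
  refine ⟨fun j => mk 1 (L (v j)) (Y j), fun j => hmk 1 _ _, fun z hz => ?_⟩
  have ht : ∀ j, value (mk 1 (L (v j)) (Y j)) z ∈ tangent π (value F z) := by
    intro j
    refine mem_tangent (hq z) fun i => ⟨MvPolynomial.eval z ((a j i).homogenize (μ i + 1)),
      fun b => ?_⟩
    have hl := H.lt i
    have e : ∀ k, MvPolynomial.eval z ((L (v j) k).homogenize (δ + 1)) =
        1 * (MvPolynomial.eval z ((a j i).homogenize (μ i + 1)) *
          MvPolynomial.eval z ((Γ i k).homogenize (δ - μ i)) +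
        MvPolynomial.eval z ((h i).homogenize (μ i)) *
          MvPolynomial.eval z ((Y j i k).homogenize (δ - μ i + 1))) +
        MvPolynomial.eval z ((c j i).homogenize (δ + 1)) * p i k := by
      intro k
      rw [hx j i k, homogenize_add, homogenize_add,
        homog_mul ((ha j i).mono (by omega)) (H.toPre.degΓ i k) (a := μ i + 1) (by omega),
        homog_mul (H.mon i).dl (hY j i k) (by omega), mul_comm (c j i), homogenize_C_mul]
      simp only [map_add, map_mul, MvPolynomial.eval_C]
      ring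
    have h2 := (PD i).app_q ℂ b
    simp only [Algebra.algebraMap_self, RingHom.id_apply] at h2
    rw [hval, hF, hπP]
    simp only [e, app_lin]
    rw [h2]; ring
  have hind : ∀ α : Fin (n - 1) → ℂ,
      ∑ j, α j • value (mk 1 (L (v j)) (Y j)) z ∈ trivialDir F z → α = 0 := by
    rintro α ⟨_, ⟨c₀, d, rfl⟩, w, hw⟩
    apply hv
    show L (∑ j, α j • v j) ∈ LinearMap.range (triv δ f 3)
    have hLs : ∀ k, L (∑ j, α j • v j) k = ∑ j, C (α j) * L (v j) k := by
      intro k
      simp [map_sum, smul_eq_C_mul]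
    rw [hdF, hF] at hw
    simp only [hval] at hw
    refine H.indep_core PD hδ hz (a := fun i => ∑ j, C (α j) * a j i)
      (c := fun i => ∑ j, C (α j) * c j i) (Y := fun i k => ∑ j, C (α j) * Y j i k)
      (fun i k => ?_) (hL' _).2 (fun i k => DL.sum fun j _ => (hY j i k).C_mul _)
      (w := w) (c₀ := c₀) (d := d) (fun k => ?_) (fun i b => ?_)
    · simp only [hLs, hx _ i k, Finset.sum_mul, Finset.mul_sum, ← Finset.sum_add_distrib]
      exact Finset.sum_congr rfl fun j _ => by ring
    · have := congrFun (congrArg Prod.fst hw) k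
      simp only [Prod.fst_sum, Finset.sum_apply, Prod.smul_fst, Pi.smul_apply, smul_eq_mul,
        Prod.fst_add, Pi.add_apply, scale] at this
      rw [← this, hLs]
      simp only [homogenize_finsetSum, homogenize_C_mul, map_sum, map_mul, MvPolynomial.eval_C]
    · have := congrFun (congrFun (congrArg Prod.snd hw) i) b
      simp only [Prod.snd_sum, Finset.sum_apply, Prod.smul_snd, Pi.smul_apply, smul_eq_mul,
        Prod.snd_add, Pi.add_apply, scale] at this
      rw [← this]
      simp only [homogenize_finsetSum, homogenize_C_mul, map_sum, map_mul, MvPolynomial.eval_C,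
        app, Finset.mul_sum]
      rw [Finset.sum_comm]
      exact Finset.sum_congr rfl fun j _ => Finset.sum_congr rfl fun k _ => by ring
  refine ⟨ht, hind, fun u hu => ?_⟩
  obtain ⟨w₀, hw₀⟩ : ∃ w₀ : Fin 2 → ℂ, ∀ e a : ℂ, e • w₀ = a • z → e = 0 := by
    by_cases h1 : z 1 = 0
    · refine ⟨![0, 1], fun e a he => ?_⟩
      simpa [h1] using congrFun he 1
    · refine ⟨![1, 0], fun e a he => ?_⟩
      have e1 : a = 0 := by simpa [h1] using congrFun he 1
      simpa [e1] using congrFun he 0
  have hdsmul : ∀ e : ℂ, e • diff F z w₀ = diff F z (e • w₀) := by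
    intro e
    rw [hdF, hdF]
    refine Prod.ext (funext fun k => (dv_smul_dir _ _ _ _).symm) (funext fun i => funext fun b => ?_)
    simp only [dv_smul_dir, app_mul]
    rfl
  let Φ : ((Fin (n - 1) → ℂ) × (ℂ × (Fin s → ℂ)) × ℂ) →ₗ[ℂ] Amb n s :=
    { toFun := fun x => ∑ j, x.1 j • value (mk 1 (L (v j)) (Y j)) z +
        (scale x.2.1.1 x.2.1.2 (value F z) + x.2.2 • diff F z w₀)
      map_add' := by
        intro x y
        have : scale (x.2.1.1 + y.2.1.1) (x.2.1.2 + y.2.1.2) (value F z) =
            scale x.2.1.1 x.2.1.2 (value F z) + scale y.2.1.1 y.2.1.2 (value F z) := by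
          ext <;> simp [scale, add_mul]
        simp only [Prod.fst_add, Prod.snd_add, Pi.add_apply, add_smul, Finset.sum_add_distrib, this]
        abel
      map_smul' := by
        intro r x
        have : scale (r • x.2.1.1) (r • x.2.1.2) (value F z) =
            r • scale x.2.1.1 x.2.1.2 (value F z) := by
          ext <;> simp [scale, mul_assoc]
        simp only [Prod.smul_fst, Prod.smul_snd, Pi.smul_apply, RingHom.id_apply, this, smul_add,
          Finset.smul_sum, smul_assoc] }
  have hΦ : Function.Injective Φ := by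
    rw [← LinearMap.ker_eq_bot, LinearMap.ker_eq_bot']
    rintro ⟨α, ⟨c₀, d⟩, e⟩ h0
    have h1 : ∑ j, α j • value (mk 1 (L (v j)) (Y j)) z +
        (scale c₀ d (value F z) + e • diff F z w₀) = 0 := h0
    have hneg : scale (-c₀) (-d) (value F z) = -scale c₀ d (value F z) := by
      ext <;> simp [scale]
    have hα : α = 0 := by
      refine hind α ⟨_, ⟨-c₀, -d, rfl⟩, (-e) • w₀, ?_⟩
      rw [← hdsmul, hneg, neg_smul, ← neg_add, eq_neg_iff_add_eq_zero, h1]
    rw [hα] at h1
    simp only [Pi.zero_apply, zero_smul, Finset.sum_const_zero, zero_add] at h1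
    have he : e = 0 := by
      obtain ⟨a, ha⟩ := himm z (e • w₀) hz ⟨-c₀, -d, by
        rw [← hdsmul, hneg, eq_neg_iff_add_eq_zero, add_comm, h1]⟩
      exact hw₀ e a ha
    rw [he, zero_smul, add_zero] at h1
    have hc0 : c₀ = 0 :=
      (smul_eq_zero.1 (congrArg Prod.fst h1)).resolve_right (hx0 z hz)
    have hd0 : d = 0 := funext fun i =>
      (smul_eq_zero.1 (congrFun (congrArg Prod.snd h1) i)).resolve_right (hy0 z hz i)
    simp [hα, he, hc0, hd0]
  have hle : LinearMap.range Φ ≤ tangentSub π (value F z) := by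
    rintro _ ⟨⟨α, ⟨c₀, d⟩, e⟩, rfl⟩
    refine Submodule.add_mem _ (Submodule.sum_mem _ fun j _ => Submodule.smul_mem _ _ (ht j))
      (Submodule.add_mem _ ?_ (Submodule.smul_mem _ _ ?_))
    · refine mem_tangent (hq z) fun i =>
        ⟨(c₀ - d i) * MvPolynomial.eval z ((h i).homogenize (μ i)), fun b => ?_⟩
      simp only [scale, map_smul, Pi.smul_apply, smul_eq_mul, hq]
      ring
    · refine mem_tangent (hq z) fun i => ⟨dv z w₀ ((h i).homogenize (μ i)), fun b => ?_⟩
      rw [hdF, hF, hπP]
      exact H.toPre.app_dv_f PD z w₀ i b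
  obtain ⟨i₀, hi₀⟩ : ∃ i₀, ∀ j, j ≠ i₀ → MvPolynomial.eval z ((h j).homogenize (μ j)) ≠ 0 := by
    by_cases h0 : ∃ i, MvPolynomial.eval z ((h i).homogenize (μ i)) = 0
    · obtain ⟨i, hi⟩ := h0
      exact ⟨i, fun j hj => H.toPre.eta_ne hz hj hi⟩
    · push Not at h0
      exact ⟨⟨0, hs⟩, fun j _ => h0 j⟩
  have heq : LinearMap.range Φ = tangentSub π (value F z) := by
    apply Submodule.eq_of_le_of_finrank_le hle
    rw [LinearMap.finrank_range_of_inj hΦ]
    refine (finrank_tangent_le hπ H.ne (hq z) (hy0 z hz) i₀ hi₀).trans ?_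
    simp; omega
  have hu' : u ∈ LinearMap.range Φ := by rw [heq]; exact hu
  obtain ⟨⟨α, ⟨c₀, d⟩, e⟩, rfl⟩ := hu'
  refine ⟨α, _, ⟨c₀, d, rfl⟩, e • w₀, ?_⟩
  rw [← hdsmul]
  exact add_sub_cancel_left _ _

end Pool.Agent.H265Z
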