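import Pool.Agent.H265Z.Emb

/-!
# Injectivity, immersion and the normal bundle
-/

set_option autoImplicit false
set_option linter.unusedSectionVars false

namespace Pool.Agent.H265Z

open Polynomial

section deriv

variable {K : Type} [Field K]

/-- directional derivative -/
noncomputable def dv (z w : Fin 2 → K) (Φ : BF K) : K :=
  ∑ j, w j * MvPolynomial.eval z (MvPolynomial.pderiv j Φ)

lemma dv_add (z w : Fin 2 → K) (Φ Ψ : BF K) : dv z w (Φ + Ψ) = dv z w Φ + dv z w Ψ := by
  simp [dv, mul_add, Finset.sum_add_distrib]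

lemma dv_mul (z w : Fin 2 → K) (Φ Ψ : BF K) :
    dv z w (Φ * Ψ) = dv z w Φ * MvPolynomial.eval z Ψ + MvPolynomial.eval z Φ * dv z w Ψ := by
  simp [dv, Fin.sum_univ_two, Derivation.leibniz]; ring

lemma dv_C (z w : Fin 2 → K) (c : K) : dv z w (MvPolynomial.C c) = 0 := by
  simp [dv]

lemma dv_X (z w : Fin 2 → K) (j : Fin 2) : dv z w (MvPolynomial.X j) = w j := by
  fin_cases j <;> simp [dv, Fin.sum_univ_two, MvPolynomial.pderiv_X]

lemma dv_app {α β : Type} [Fintype β] (z w : Fin 2 → K) (P : α → β → K) (x : β → BF K) (a : α) :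
    dv z w (app P x a) = app P (fun k => dv z w (x k)) a := by
  simp only [dv, app, map_sum, MvPolynomial.algebraMap_eq, MvPolynomial.pderiv_C_mul, map_mul,
    MvPolynomial.eval_C, Finset.mul_sum, Algebra.algebraMap_self, RingHom.id_apply]
  rw [Finset.sum_comm]
  exact Finset.sum_congr rfl fun k _ => Finset.sum_congr rfl fun j _ => by ring

lemma eval_app {α β : Type} [Fintype β] (z : Fin 2 → K) (P : α → β → K) (x : β → BF K) (a : α) :
    MvPolynomial.eval z (app P x a) = app P (fun k => MvPolynomial.eval z (x k)) a := by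
  simp [app]

lemma dv_euler (z : Fin 2 → K) {Φ : BF K} {n : ℕ} (h : Φ.IsHomogeneous n) (a : K) :
    dv z (a • z) Φ = a * n * MvPolynomial.eval z Φ := by
  have := congrArg (MvPolynomial.eval z) h.sum_X_mul_pderiv
  simp only [Fin.sum_univ_two, map_add, map_mul, MvPolynomial.eval_X, nsmul_eq_mul,
    map_natCast] at this
  simp only [dv, Fin.sum_univ_two, Pi.smul_apply, smul_eq_mul]
  linear_combination a * this

lemma dv_add_dir (z w w' : Fin 2 → K) (Φ : BF K) : dv z (w + w') Φ = dv z w Φ + dv z w' Φ := by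
  simp [dv, add_mul, Finset.sum_add_distrib]

lemma dv_smul_dir (z w : Fin 2 → K) (a : K) (Φ : BF K) : dv z (a • w) Φ = a * dv z w Φ := by
  simp [dv]; ring

lemma aeval_dual (z w : Fin 2 → K) (Φ : BF K) :
    MvPolynomial.aeval (fun j => (TrivSqZeroExt.inl (z j) + TrivSqZeroExt.inr (w j) : DualNumber K))
      Φ = TrivSqZeroExt.inl (MvPolynomial.eval z Φ) + TrivSqZeroExt.inr (dv z w Φ) := by
  induction Φ using MvPolynomial.induction_on with
  | C c => simp [dv_C, TrivSqZeroExt.algebraMap_eq_inl]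
  | add P Q hP hQ => rw [map_add, hP, hQ, dv_add, map_add]; ext <;> simp
  | mul_X P j hP =>
    rw [map_mul, hP, dv_mul, dv_X, MvPolynomial.aeval_X]
    ext
    · simp
    · simp [DualNumber.snd_mul]; ring

lemma dehom_pderiv0 (Φ : BF K) :
    MvPolynomial.aeval ![X, (1 : K[X])] (MvPolynomial.pderiv 0 Φ) =
      derivative (MvPolynomial.aeval ![X, (1 : K[X])] Φ) := by
  induction Φ using MvPolynomial.induction_on with
  | C c => simp
  | add P Q hP hQ => simp only [map_add, hP, hQ]
  | mul_X P j hP =>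
    rw [Derivation.leibniz, map_mul, derivative_mul, ← hP]
    fin_cases j <;> simp [MvPolynomial.pderiv_X] <;> ring

/-- dehomogenised partial derivative in the second variable -/
noncomputable def dv1 (d : ℕ) (P : K[X]) : K[X] := C (d : K) * P - X * derivative P

lemma DL_dv1 {P : K[X]} {d : ℕ} (h : DL P (d + 1)) : DL (dv1 d P) d := by
  refine DL.of_coeff ((h.C_mul _).sub (DL_X.mul h.derivative (by omega))) ?_
  cases d with
  | zero => simp [dv1]
  | succ d =>
    rw [dv1, coeff_sub, coeff_C_mul, coeff_X_mul, coeff_derivative]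
    push_cast; ring

lemma pderiv0_homog {P : K[X]} {d : ℕ} (h : DL P (d + 1 + 1)) :
    MvPolynomial.pderiv 0 (P.homogenize (d + 1)) = (derivative P).homogenize d := by
  refine homog_ext (n := d) (isHomogeneous_homogenize P).pderiv (isHomogeneous_homogenize _) ?_
  rw [dehom_pderiv0, dehom h, dehom h.derivative]

lemma pderiv1_homog {P : K[X]} {d : ℕ} (h : DL P (d + 1 + 1)) :
    MvPolynomial.pderiv 1 (P.homogenize (d + 1)) = (dv1 (d + 1) P).homogenize d := by
  refine homog_ext (n := d) (isHomogeneous_homogenize P).pderiv (isHomogeneous_homogenize _) ?_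
  have := congrArg (MvPolynomial.aeval ![X, (1 : K[X])])
    (isHomogeneous_homogenize (n := d + 1) P).sum_X_mul_pderiv
  simp only [Fin.sum_univ_two, map_add, map_mul, MvPolynomial.aeval_X, dehom_pderiv0, dehom h,
    nsmul_eq_mul, map_natCast, Matrix.cons_val_zero, Matrix.cons_val_one] at this
  rw [dehom (DL_dv1 h), dv1, map_natCast]
  linear_combination this

lemma dv_homog {P : K[X]} {d : ℕ} (h : DL P (d + 1 + 1)) (z w : Fin 2 → K) :
    dv z w (P.homogenize (d + 1)) = w 0 * MvPolynomial.eval z ((derivative P).homogenize d) +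
      w 1 * MvPolynomial.eval z ((dv1 (d + 1) P).homogenize d) := by
  simp only [dv, Fin.sum_univ_two, pderiv0_homog h, pderiv1_homog h]

lemma homog_mul {P Q : K[X]} {a b n : ℕ} (hP : DL P (a + 1)) (hQ : DL Q (b + 1))
    (hn : a + b = n) : (P * Q).homogenize n = P.homogenize a * Q.homogenize b := by
  rw [← hn, homogenize_mul _ _ hP.natDegree_le hQ.natDegree_le]

/-- the linear form vanishing at `z` -/
noncomputable def ell (z : Fin 2 → K) : K[X] := C (z 1) * X - C (z 0)

lemma DL_ell (z : Fin 2 → K) : DL (ell z) 2 := (DL_X.C_mul _).sub ((DL_C _).mono (by omega))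

lemma ell_fin {z : Fin 2 → K} (h1 : z 1 ≠ 0) : ell z = C (z 1) * (X - C (z 0 / z 1)) := by
  rw [ell, mul_sub, ← C_mul, mul_div_cancel₀ _ h1]

lemma Mon_X_sub_C (t : K) : Mon (X - C t) 1 := by
  unfold Mon
  simpa using (DL_C t).neg

lemma ell_dvd {z : Fin 2 → K} (hz : z ≠ 0) {P : K[X]} {d : ℕ} (h : DL P (d + 1 + 1))
    (h0 : MvPolynomial.eval z (P.homogenize (d + 1)) = 0) :
    ∃ Q, DL Q (d + 1) ∧ P = ell z * Q := by
  by_cases h1 : z 1 = 0
  · have h2 := ne_zero_cases hz h1
    rw [eval_inf _ _ h1] at h0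
    have h3 := (mul_eq_zero.1 h0).resolve_right (pow_ne_zero _ h2)
    refine ⟨C (-(z 0)⁻¹) * P, (h.of_coeff h3).C_mul _, ?_⟩
    rw [ell, h1, C_0, zero_mul, zero_sub, ← C_neg, ← mul_assoc, ← C_mul, neg_mul_neg,
      mul_inv_cancel₀ h2, C_1, one_mul]
  · rw [eval_fin h h1] at h0
    have h3 := (mul_eq_zero.1 h0).resolve_right (pow_ne_zero _ h1)
    obtain ⟨Q, hQ⟩ := dvd_iff_isRoot.2 h3
    refine ⟨C (z 1)⁻¹ * Q, DL.C_mul ((Mon_X_sub_C (z 0 / z 1)).cancel ?_) _, ?_⟩
    · rw [← hQ]; exact h.mono (by omega)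
    · have : C (z 1) * C (z 1)⁻¹ = 1 := by rw [← C_mul, mul_inv_cancel₀ h1, C_1]
      rw [ell_fin h1, hQ]
      linear_combination (-(X - C (z 0 / z 1)) * Q) * this

lemma isCoprime_of_isUnit_left {a b : K[X]} (h : IsUnit a) : IsCoprime a b := by
  obtain ⟨u, hu⟩ := h.exists_left_inv
  exact ⟨u, 0, by simpa using hu⟩

lemma ell_coprime {z : Fin 2 → K} (hz : z ≠ 0) {h : K[X]} {m : ℕ} (H : Mon h m)
    (h0 : MvPolynomial.eval z (h.homogenize m) ≠ 0) : IsCoprime (ell z) h := by
  by_cases h1 : z 1 = 0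
  · have : IsUnit (ell z) := by
      rw [ell, h1, C_0, zero_mul, zero_sub, ← C_neg]
      exact isUnit_C.2 (neg_ne_zero.2 (ne_zero_cases hz h1)).isUnit
    exact isCoprime_of_isUnit_left this
  · rw [eval_fin H.dl h1] at h0
    rw [ell_fin h1]
    refine IsCoprime.mul_left (isCoprime_of_isUnit_left (isUnit_C.2 (Ne.isUnit h1))) ?_
    rw [(irreducible_X_sub_C _).coprime_iff_not_dvd, dvd_iff_isRoot]
    exact left_ne_zero_of_mul h0

lemma exists_form_eq {z : Fin 2 → K} (hz : z ≠ 0) (D : ℕ) (v : K) :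
    ∃ w : K[X], DL w (D + 1) ∧ MvPolynomial.eval z (w.homogenize D) = v := by
  obtain ⟨w, h1, h2⟩ := exists_form_ne hz D
  refine ⟨C (v / MvPolynomial.eval z (w.homogenize D)) * w, h1.C_mul _, ?_⟩
  rw [homogenize_C_mul, map_mul, MvPolynomial.eval_C, div_mul_cancel₀ _ h2]

end deriv

section

variable {K ι κ κ' : Type} [Field K] [Fintype ι] [DecidableEq ι] [Fintype κ] [DecidableEq κ]
  [Fintype κ'] {μ : ι → ℕ} {δ D : ℕ} {ext : ι → Prop} [DecidablePred ext] {p : ι → κ → K}
  {h ρ : ι → K[X]} {Γ : ι → κ → K[X]} {f : κ → K[X]}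
  {P : ι → κ' → κ → K} {σ : ι → κ → κ' → K} {θ : ι → κ → K}

lemma Pre.inj (H : Pre μ δ D ext p h ρ Γ f) (PD : ∀ i, ProjData (p i) (P i) (σ i) (θ i))
    {z z' : Fin 2 → K} (hz : z ≠ 0) {c : K} (hc : c ≠ 0) {d : ι → K} (hd : ∀ i, d i ≠ 0)
    (hx : ∀ k, MvPolynomial.eval z' ((f k).homogenize δ) =
      c * MvPolynomial.eval z ((f k).homogenize δ))
    (hy : ∀ i a, app (P i) (fun k => MvPolynomial.eval z' ((Γ i k).homogenize (δ - μ i))) a =
      d i * app (P i) (fun k => MvPolynomial.eval z ((Γ i k).homogenize (δ - μ i))) a) :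
    ∃ a : K, z' = a • z := by
  obtain ⟨a, z₀, hz₀⟩ := H.emb PD (A := K × K)
    ((MvPolynomial.aeval z).prod (MvPolynomial.aeval z')) (AlgHom.fst K K K) hz
    (fun Φ => by simp) (c := (1, c)) (Prod.isUnit_iff.2 ⟨isUnit_one, hc.isUnit⟩)
    (x := fun k => MvPolynomial.eval z ((f k).homogenize δ)) (fun k => by ext <;> simp [hx])
    (d := fun i => (1, d i)) (fun i => Prod.isUnit_iff.2 ⟨isUnit_one, (hd i).isUnit⟩)
    (y := fun i => app (P i) (fun k => MvPolynomial.eval z ((Γ i k).homogenize (δ - μ i))))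
    (fun i a => by
      rw [← map_app]
      ext
      · simp [eval_app]
      · simp [eval_app, hy])
  have h1 : ∀ j, z j = a.1 * z₀ j := fun j => by simpa using congrArg Prod.fst (hz₀ j)
  have h2 : ∀ j, z' j = a.2 * z₀ j := fun j => by simpa using congrArg Prod.snd (hz₀ j)
  have ha : a.1 ≠ 0 := fun h0 => hz (funext fun j => by simp [h1, h0])
  refine ⟨a.2 / a.1, funext fun j => ?_⟩
  rw [Pi.smul_apply, h1, h2, smul_eq_mul]
  field_simp

lemma Pre.imm (H : Pre μ δ D ext p h ρ Γ f) (PD : ∀ i, ProjData (p i) (P i) (σ i) (θ i))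
    {z w : Fin 2 → K} (hz : z ≠ 0) {c : K} {d : ι → K}
    (hx : ∀ k, dv z w ((f k).homogenize δ) = c * MvPolynomial.eval z ((f k).homogenize δ))
    (hy : ∀ i a, app (P i) (fun k => dv z w ((Γ i k).homogenize (δ - μ i))) a =
      d i * app (P i) (fun k => MvPolynomial.eval z ((Γ i k).homogenize (δ - μ i))) a) :
    ∃ a : K, w = a • z := by
  obtain ⟨a, z₀, hz₀⟩ := H.emb PD (A := DualNumber K)
    (MvPolynomial.aeval fun j => TrivSqZeroExt.inl (z j) + TrivSqZeroExt.inr (w j))
    (TrivSqZeroExt.fstHom K K K) hz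
    (fun Φ => by rw [aeval_dual]; simp) (c := TrivSqZeroExt.inl 1 + TrivSqZeroExt.inr c)
    (TrivSqZeroExt.isUnit_iff_isUnit_fst.2 (by simp))
    (x := fun k => MvPolynomial.eval z ((f k).homogenize δ)) (fun k => by
      rw [aeval_dual, hx]
      ext <;> simp [TrivSqZeroExt.algebraMap_eq_inl, DualNumber.snd_mul])
    (d := fun i => TrivSqZeroExt.inl 1 + TrivSqZeroExt.inr (d i))
    (fun i => TrivSqZeroExt.isUnit_iff_isUnit_fst.2 (by simp))
    (y := fun i => app (P i) (fun k => MvPolynomial.eval z ((Γ i k).homogenize (δ - μ i))))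
    (fun i a => by
      rw [← map_app, aeval_dual, dv_app, eval_app, hy]
      ext <;> simp [TrivSqZeroExt.algebraMap_eq_inl, DualNumber.snd_mul])
  have h1 : ∀ j, z j = a.fst * z₀ j := fun j => by
    simpa [TrivSqZeroExt.algebraMap_eq_inl] using congrArg TrivSqZeroExt.fst (hz₀ j)
  have h2 : ∀ j, w j = a.snd * z₀ j := fun j => by
    simpa [TrivSqZeroExt.algebraMap_eq_inl, DualNumber.snd_mul] using
      congrArg TrivSqZeroExt.snd (hz₀ j)
  have ha : a.fst ≠ 0 := fun h0 => hz (funext fun j => by simp [h1, h0])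
  refine ⟨a.snd / a.fst, funext fun j => ?_⟩
  rw [Pi.smul_apply, h1, h2, smul_eq_mul]
  field_simp

lemma Pre.app_f (H : Pre μ δ D ext p h ρ Γ f) (PD : ∀ i, ProjData (p i) (P i) (σ i) (θ i))
    (z : Fin 2 → K) (i : ι) (a : κ') :
    app (P i) (fun k => MvPolynomial.eval z ((f k).homogenize δ)) a =
      MvPolynomial.eval z ((h i).homogenize (μ i)) *
        app (P i) (fun k => MvPolynomial.eval z ((Γ i k).homogenize (δ - μ i))) a := by
  have := (PD i).app_q K a
  simp only [H.eqH i, map_add, map_mul, MvPolynomial.algebraMap_eq, MvPolynomial.eval_C, app_lin]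
  simp only [Algebra.algebraMap_self, RingHom.id_apply] at this
  rw [this]; ring

lemma Pre.app_dv_f (H : Pre μ δ D ext p h ρ Γ f) (PD : ∀ i, ProjData (p i) (P i) (σ i) (θ i))
    (z w : Fin 2 → K) (i : ι) (a : κ') :
    app (P i) (fun k => dv z w ((f k).homogenize δ)) a =
      dv z w ((h i).homogenize (μ i)) *
        app (P i) (fun k => MvPolynomial.eval z ((Γ i k).homogenize (δ - μ i))) a +
      MvPolynomial.eval z ((h i).homogenize (μ i)) *
        app (P i) (fun k => dv z w ((Γ i k).homogenize (δ - μ i))) a := by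
  have := (PD i).app_q K a
  simp only [Algebra.algebraMap_self, RingHom.id_apply] at this
  have e : (fun k => dv z w ((f k).homogenize δ)) = fun k => 1 * (dv z w ((h i).homogenize (μ i)) *
      MvPolynomial.eval z ((Γ i k).homogenize (δ - μ i)) +
      MvPolynomial.eval z ((h i).homogenize (μ i)) * dv z w ((Γ i k).homogenize (δ - μ i))) +
      dv z w ((ρ i).homogenize δ) * p i k := by
    funext k
    simp only [H.eqH i, dv_add, dv_mul, MvPolynomial.algebraMap_eq, MvPolynomial.eval_C, dv_C]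
    ring
  rw [e, app_lin, app_lin, this]; ring

/-- the trivial deformations `a f_u + b f_v` -/
noncomputable def triv (δ : ℕ) (f : κ → K[X]) (m : ℕ) :
    ((Fin m → K) × (Fin m → K)) →ₗ[K] (κ → K[X]) where
  toFun v k := pol v.1 * derivative (f k) + pol v.2 * dv1 δ (f k)
  map_add' v v' := by funext k; simp [pol_add]; ring
  map_smul' c v := by funext k; simp [pol_smul, smul_eq_C_mul]; ring

lemma mem_range_triv {m : ℕ} {x : κ → K[X]} : x ∈ LinearMap.range (triv δ f m) ↔
    ∃ a b, DL a m ∧ DL b m ∧ ∀ k, x k = a * derivative (f k) + b * dv1 δ (f k) := by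
  constructor
  · rintro ⟨v, rfl⟩
    exact ⟨_, _, DL_pol _, DL_pol _, fun k => rfl⟩
  · rintro ⟨a, b, ha, hb, hx⟩
    refine ⟨(fun i => a.coeff i, fun i => b.coeff i), funext fun k => ?_⟩
    show pol _ * _ + pol _ * _ = _
    rw [pol_coeff ha, pol_coeff hb, hx]

lemma Pre.triv_eq (H : Pre μ δ D ext p h ρ Γ f) (a b : K[X]) (i : ι) (k : κ) :
    a * derivative (f k) + b * dv1 δ (f k) = ((a - b * X) * derivative (h i)) * Γ i k +
      ((a - b * X) * derivative (ρ i) + b * C (δ : K) * ρ i) * C (p i k) +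
      h i * ((a - b * X) * derivative (Γ i k) + b * C (δ : K) * Γ i k) := by
  rw [dv1, H.eq i k]
  simp only [derivative_add, derivative_mul, derivative_C]
  ring

lemma Pre.triv_inj [CharZero K] (H : Pre μ δ D ext p h ρ Γ f)
    (PD : ∀ i, ProjData (p i) (P i) (σ i) (θ i)) (hδ : 0 < δ) (m : ℕ) :
    Function.Injective (triv δ f m) := by
  rw [← LinearMap.ker_eq_bot, LinearMap.ker_eq_bot']
  intro v hv
  obtain ⟨δ', rfl⟩ : ∃ δ', δ = δ' + 1 := ⟨δ - 1, by omega⟩
  have key : ∀ t : K, (∏ i, h i).eval t ≠ 0 → (pol v.1).eval t = 0 ∧ (pol v.2).eval t = 0 := by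
    intro t ht
    have hz : (![t, 1] : Fin 2 → K) ≠ 0 := fun h0 => by simpa using congrFun h0 1
    have h1 : (![t, 1] : Fin 2 → K) 1 ≠ 0 := by simp
    have hη : ∀ i, MvPolynomial.eval ![t, 1] ((h i).homogenize (μ i)) ≠ 0 := by
      intro i
      rw [eval_fin (H.mon i).dl h1]
      rw [eval_prod, Finset.prod_ne_zero_iff] at ht
      simpa using ht i (Finset.mem_univ i)
    set w : Fin 2 → K := ![(pol v.1).eval t, (pol v.2).eval t] with hw
    have hx : ∀ k, dv ![t, 1] w ((f k).homogenize (δ' + 1)) = 0 := by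
      intro k
      rw [dv_homog (H.degf k), eval_fin (H.degf k).derivative h1, eval_fin (DL_dv1 (H.degf k)) h1]
      have := congrArg (eval t) (congrFun hv k)
      simpa [triv, hw] using this
    obtain ⟨a, ha⟩ := H.imm PD (w := w) hz (c := 0) (d := fun i =>
      -dv ![t, 1] w ((h i).homogenize (μ i)) / MvPolynomial.eval ![t, 1] ((h i).homogenize (μ i)))
      (fun k => by rw [hx, zero_mul]) (fun i a => by
        have := H.app_dv_f PD ![t, 1] w i a
        simp only [hx] at this
        have h0 : app (P i) (fun _ => (0 : K)) a = 0 := by simp [app]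
        rw [h0] at this
        have h5 := hη i
        field_simp
        linear_combination -this)
    obtain ⟨k, hk⟩ := Function.ne_iff.1 (H.f_ne hz)
    have h2 := hx k
    rw [ha, dv_euler _ (isHomogeneous_homogenize _)] at h2
    have h3 : a = 0 := by
      rcases mul_eq_zero.1 h2 with h3 | h3
      · exact (mul_eq_zero.1 h3).resolve_right (Nat.cast_ne_zero.2 (by omega))
      · exact absurd h3 hk
    rw [h3, zero_smul] at ha
    exact ⟨by simpa [hw] using congrFun ha 0, by simpa [hw] using congrFun ha 1⟩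
  have hH : ∏ i, h i ≠ 0 := (Mon.prod fun i _ => H.mon i).monic.ne_zero
  have fin : ∀ Q : K[X], (∀ t, (∏ i, h i).eval t ≠ 0 → Q.eval t = 0) → Q = 0 := by
    intro Q hQ
    refine (mul_eq_zero.1 (Polynomial.funext (p := Q * ∏ i, h i) (q := 0) fun t => ?_)).resolve_right hH
    rw [eval_mul, eval_zero]
    by_cases ht : (∏ i, h i).eval t = 0
    · rw [ht, mul_zero]
    · rw [hQ t ht, zero_mul]
  exact Prod.ext (pol_eq_zero (fin _ fun t ht => (key t ht).1))
    (pol_eq_zero (fin _ fun t ht => (key t ht).2))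

lemma GeomData.K0 [CharZero K] (H : GeomData μ δ D ext p h ρ Γ f)
    (PD : ∀ i, ProjData (p i) (P i) (σ i) (θ i)) (hδ : 0 < δ) {x : κ → K[X]} (hx : InE p h Γ x)
    (hxd : ∀ k, DL (x k) (δ + 1)) : x ∈ LinearMap.range (triv δ f 2) := by
  obtain ⟨L, hL⟩ := H.E0
  have h1 : LinearMap.range (triv δ f 2) ≤ LinearMap.range L := by
    intro y hy
    obtain ⟨a, b, ha, hb, hy⟩ := mem_range_triv.1 hy
    refine hL y (fun i => ⟨(a - b * X) * derivative (h i),
      (a - b * X) * derivative (ρ i) + b * C (δ : K) * ρ i, fun k =>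
      ⟨(a - b * X) * derivative (Γ i k) + b * C (δ : K) * Γ i k,
        by rw [hy, H.toPre.triv_eq a b i k]; ring⟩⟩) fun k => ?_
    rw [hy]
    exact (ha.mul (H.degf k).derivative (by omega)).add (hb.mul (DL_dv1 (H.degf k)) (by omega))
  have h2 : LinearMap.range (triv δ f 2) = LinearMap.range L := by
    apply Submodule.eq_of_le_of_finrank_le h1
    rw [LinearMap.finrank_range_of_inj (H.toPre.triv_inj PD hδ 2)]
    refine (LinearMap.finrank_range_le L).trans ?_
    simp
  rw [h2]
  exact hL x hx hxd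

/-- the key independence statement -/
theorem GeomData.indep_core [CharZero K] (H : GeomData μ δ D ext p h ρ Γ f)
    (PD : ∀ i, ProjData (p i) (P i) (σ i) (θ i)) (hδ : 0 < δ) {z : Fin 2 → K} (hz : z ≠ 0)
    {x : κ → K[X]} {a c : ι → K[X]} {Y : ι → κ → K[X]}
    (hx : ∀ i k, x k = a i * Γ i k + c i * C (p i k) + h i * Y i k)
    (hxd : ∀ k, DL (x k) (δ + 2)) (hY : ∀ i k, DL (Y i k) (δ - μ i + 2))
    {w : Fin 2 → K} {c₀ : K} {d : ι → K}
    (e1 : ∀ k, MvPolynomial.eval z ((x k).homogenize (δ + 1)) =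
      c₀ * MvPolynomial.eval z ((f k).homogenize δ) + dv z w ((f k).homogenize δ))
    (e2 : ∀ i b, app (P i) (fun k => MvPolynomial.eval z ((Y i k).homogenize (δ - μ i + 1))) b =
      d i * app (P i) (fun k => MvPolynomial.eval z ((Γ i k).homogenize (δ - μ i))) b +
        app (P i) (fun k => dv z w ((Γ i k).homogenize (δ - μ i))) b) :
    x ∈ LinearMap.range (triv δ f 3) := by
  obtain ⟨δ', rfl⟩ : ∃ δ', δ = δ' + 1 := ⟨δ - 1, by omega⟩
  have hδ' : ((δ' + 1 : ℕ) : K) ≠ 0 := Nat.cast_ne_zero.2 (by omega)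
  set w' := w + (c₀ / (δ' + 1 : ℕ)) • z with hw'
  obtain ⟨α, hα, hα'⟩ := exists_form_eq hz 2 (w' 0)
  obtain ⟨β, hβ, hβ'⟩ := exists_form_eq hz 2 (w' 1)
  have hκd : ∀ k, DL (α * derivative (f k) + β * dv1 (δ' + 1) (f k)) (δ' + 1 + 2) := fun k =>
    (hα.mul (H.degf k).derivative (by omega)).add (hβ.mul (DL_dv1 (H.degf k)) (by omega))
  have h0 : ∀ k, MvPolynomial.eval z ((x k - (α * derivative (f k) +
      β * dv1 (δ' + 1) (f k))).homogenize (δ' + 1 + 1)) = 0 := by
    intro k
    rw [homogenize_sub, homogenize_add, homog_mul hα (H.degf k).derivative (by omega),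
      homog_mul hβ (DL_dv1 (H.degf k)) (by omega), map_sub, map_add, map_mul, map_mul, hα', hβ',
      ← dv_homog (H.degf k), e1, hw', dv_add_dir, dv_euler _ (isHomogeneous_homogenize _),
      div_mul_cancel₀ _ hδ']
    ring
  choose x' hx'd hx' using fun k => ell_dvd hz ((hxd k).sub (hκd k)) (h0 k)
  have hxx : ∀ i k, ell z * x' k = (a i - (α - β * X) * derivative (h i)) * Γ i k +
      (c i - ((α - β * X) * derivative (ρ i) + β * C ((δ' + 1 : ℕ) : K) * ρ i)) * C (p i k) +
      h i * (Y i k - ((α - β * X) * derivative (Γ i k) + β * C ((δ' + 1 : ℕ) : K) * Γ i k)) := by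
    intro i k
    rw [← hx', hx i k, H.toPre.triv_eq α β i k]; ring
  have hE : InE p h Γ x' := by
    intro i
    by_cases hη : MvPolynomial.eval z ((h i).homogenize (μ i)) = 0
    · have h1 := (H.mon i).fin_of_eval hz hη
      set t := z 0 / z 1 with ht
      have hz0 : z 0 = t * z 1 := by rw [ht, div_mul_cancel₀ _ h1]
      have hht : (h i).eval t = 0 := by
        rw [eval_fin (H.mon i).dl h1] at hη
        exact (mul_eq_zero.1 hη).resolve_right (pow_ne_zero _ h1)
      obtain ⟨e, he⟩ : ∃ e, δ' + 1 - μ i = e + 1 := ⟨δ' - μ i, by have := H.lt i; omega⟩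
      have hΓ : ∀ k, DL (Γ i k) (e + 1 + 1) := fun k => he ▸ H.toPre.degΓ i k
      have hY' : ∀ k, DL (Y i k) (e + 1 + 1 + 1) := fun k => by have := hY i k; rwa [he] at this
      set g : κ' → K := app (P i) fun k => (Γ i k).eval t with hg
      have hg0 : g ≠ 0 := by
        intro hg0
        apply H.toPre.g_ne PD hz i
        funext b
        simp only [he, eval_fin (hΓ _) h1, mul_comm (eval _ _), app_mul]
        rw [← ht, ← hg, hg0]; simp
      set Y' : κ → K[X] := fun k => Y i k - ((α - β * X) * derivative (Γ i k) +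
        β * C ((δ' + 1 : ℕ) : K) * Γ i k) with hY'def
      obtain ⟨r, hr⟩ : ∃ r : K, ∀ b, app (P i) (fun k => (Y' k).eval t) b = r * g b := by
        rw [eval_fin hα h1, ← ht] at hα'
        rw [eval_fin hβ h1, ← ht] at hβ'
        refine ⟨d i / z 1 + w 1 * (e + 1) / z 1 ^ 2 - β.eval t * (δ' + 1 : ℕ), fun b => ?_⟩
        have e3 := e2 i b
        simp only [he, dv_homog (hΓ _), eval_fin (hΓ _) h1, eval_fin (hY' _) h1,
          eval_fin (hΓ _).derivative h1, eval_fin (DL_dv1 (hΓ _)) h1, ← ht] at e3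
        have e4 : (fun k => w 0 * (eval t (derivative (Γ i k)) * z 1 ^ e) +
            w 1 * (eval t (dv1 (e + 1) (Γ i k)) * z 1 ^ e)) = fun k =>
            ((w 0 - t * w 1) * z 1 ^ e) * eval t (derivative (Γ i k)) +
              (w 1 * (e + 1) * z 1 ^ e) * eval t (Γ i k) := by
          funext k; simp [dv1]; ring
        have e5 : (fun k => (Y' k).eval t) = fun k => 1 * eval t (Y i k) + (-1) *
            ((α.eval t - β.eval t * t) * eval t (derivative (Γ i k)) +
              (β.eval t * (δ' + 1 : ℕ)) * eval t (Γ i k)) := by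
          funext k; simp [hY'def]; ring
        rw [e4, app_lin] at e3
        simp only [mul_comm (eval _ _) (z 1 ^ _), app_mul] at e3
        rw [e5, app_lin, app_lin, ← hg]
        rw [← hg] at e3
        have e6 : (α.eval t - β.eval t * t) * z 1 ^ 2 = w 0 - t * w 1 := by
          rw [sub_mul, hα', mul_right_comm, hβ', hw']
          simp only [Pi.add_apply, Pi.smul_apply, smul_eq_mul, hz0]
          ring
        have e7 : app (P i) (fun k => eval t (Y i k)) b * z 1 ^ 2 = d i * z 1 * g b +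
            ((w 0 - t * w 1) * app (P i) (fun k => eval t (derivative (Γ i k))) b +
              w 1 * (e + 1) * g b) := by
          apply mul_left_cancel₀ (pow_ne_zero e h1)
          linear_combination e3
        field_simp
        linear_combination e7 - app (P i) (fun k => eval t (derivative (Γ i k))) b * e6
      obtain ⟨r', hr'⟩ : ∃ r' : K, ∀ k, (Y' k).eval t = r * (Γ i k).eval t + r' * p i k := by
        refine ⟨∑ l, θ i l * ((Y' l).eval t - r * (Γ i l).eval t), fun k => ?_⟩
        have := (PD i).decomp (S := K) (fun k => 1 * (Y' k).eval t + (-r) * (Γ i k).eval t) k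
        have e0 : app (P i) (fun k => 1 * (Y' k).eval t + (-r) * (Γ i k).eval t) = fun _ => 0 := by
          funext b; rw [app_lin, hr, ← hg]; ring
        rw [e0] at this
        simp only [app, mul_zero, Finset.sum_const_zero, Algebra.algebraMap_self,
          RingHom.id_apply, one_mul, neg_mul, ← sub_eq_add_neg, zero_add] at this
        linear_combination this
      set a' := a i - (α - β * X) * derivative (h i) + C r * h i with ha'
      set c' := c i - ((α - β * X) * derivative (ρ i) + β * C ((δ' + 1 : ℕ) : K) * ρ i) +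
        C r' * h i with hc'
      have hxx' : ∀ k, ell z * x' k = a' * Γ i k + c' * C (p i k) +
          h i * (Y' k - C r * Γ i k - C r' * C (p i k)) := by
        intro k; rw [hxx i k, ha', hc']; ring
      have ev0 : ∀ k, a'.eval t * (Γ i k).eval t + c'.eval t * p i k = 0 := by
        intro k
        have := congrArg (eval t) (hxx' k)
        rw [ell_fin h1, ← ht] at this
        simp only [eval_mul, eval_add, eval_sub, eval_X, eval_C, sub_self, mul_zero, zero_mul,
          hht, add_zero] at this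
        exact this.symm
      have ha0 : a'.eval t = 0 := by
        obtain ⟨b, hb⟩ := Function.ne_iff.1 hg0
        have := app_lin (P i) (a'.eval t) (c'.eval t) (fun k => (Γ i k).eval t) (p i) b
        have h2 := (PD i).app_q K b
        simp only [Algebra.algebraMap_self, RingHom.id_apply] at h2
        rw [funext ev0, h2, ← hg, mul_zero, add_zero] at this
        have h3 : app (P i) (fun _ => (0 : K)) b = 0 := by simp [app]
        rw [h3] at this
        exact (mul_eq_zero.1 this.symm).resolve_right hb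
      have hc0 : c'.eval t = 0 := by
        obtain ⟨k, hk⟩ := Function.ne_iff.1 (H.ne i)
        have := ev0 k
        rw [ha0, zero_mul, zero_add] at this
        exact (mul_eq_zero.1 this).resolve_right hk
      obtain ⟨a3, ha3⟩ := dvd_iff_isRoot.2 ha0
      obtain ⟨c3, hc3⟩ := dvd_iff_isRoot.2 hc0
      refine ⟨C (z 1)⁻¹ * a3, C (z 1)⁻¹ * c3, fun k => ?_⟩
      obtain ⟨Y3, hY3⟩ := (dvd_iff_isRoot (a := t)
        (p := Y' k - C r * Γ i k - C r' * C (p i k))).2 (by simp [hr' k])
      refine ⟨C (z 1)⁻¹ * Y3, (Mon_X_sub_C t).mul_left_cancel ?_⟩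
      have e1 := hxx' k
      rw [ell_fin h1, ← ht, ha3, hc3, hY3] at e1
      have : C (z 1) * C (z 1)⁻¹ = 1 := by rw [← C_mul, mul_inv_cancel₀ h1, C_1]
      linear_combination C (z 1)⁻¹ * e1 - (X - C t) * x' k * this
    · obtain ⟨u, v, huv⟩ := ell_coprime hz (H.mon i) hη
      refine ⟨u * (a i - (α - β * X) * derivative (h i)),
        u * (c i - ((α - β * X) * derivative (ρ i) + β * C ((δ' + 1 : ℕ) : K) * ρ i)),
        fun k => ⟨v * x' k + u * (Y i k - ((α - β * X) * derivative (Γ i k) +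
          β * C ((δ' + 1 : ℕ) : K) * Γ i k)), ?_⟩⟩
      linear_combination u * hxx i k - x' k * huv
  obtain ⟨a0, b0, ha0, hb0, hab⟩ := mem_range_triv.1 (H.K0 PD hδ hE hx'd)
  refine mem_range_triv.2 ⟨α + ell z * a0, β + ell z * b0, hα.add ((DL_ell z).mul ha0 (by omega)),
    hβ.add ((DL_ell z).mul hb0 (by omega)), fun k => ?_⟩
  have := hx' k
  rw [hab k] at this
  linear_combination this

end

end Pool.Agent.H265Z
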