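import Pool.Agent.H265Z.Extend

/-!
# Checking the algebraic conditions in characteristic 31
-/

set_option autoImplicit false
set_option linter.unusedSectionVars false

namespace Pool.Agent.H265Z

open Polynomial

/-- sum of coefficient lists -/
def addL : List ℕ → List ℕ → List ℕ
  | [], m => m
  | a :: l, [] => a :: l
  | a :: l, b :: m => (a + b) :: addL l m

/-- scalar multiple -/
def smulL (c : ℕ) : List ℕ → List ℕ
  | [] => []
  | a :: l => (c * a) :: smulL c l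

/-- product -/
def mulL : List ℕ → List ℕ → List ℕ
  | [], _ => []
  | a :: l, m => addL (smulL a m) (0 :: mulL l m)

/-- all entries vanish modulo 31 -/
def zeroL : List ℕ → Bool
  | [] => true
  | a :: l => Nat.beq (a % 31) 0 && zeroL l

/-- equality modulo 31 -/
def eqL (a b : List ℕ) : Bool := zeroL (addL a (smulL 30 b))

/-- power of the variable -/
def xpow : ℕ → List ℕ
  | 0 => [1]
  | n + 1 => 0 :: xpow n

/-- finite sum -/
def sumTo : ℕ → (ℕ → List ℕ) → List ℕ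
  | 0, _ => []
  | n + 1, F => addL (F n) (sumTo n F)

/-- finite product -/
def prodTo : ℕ → (ℕ → List ℕ) → List ℕ
  | 0, _ => [1]
  | n + 1, F => mulL (F n) (prodTo n F)

/-- finite sum of numbers -/
def sumN : ℕ → (ℕ → ℕ) → ℕ
  | 0, _ => 0
  | n + 1, F => F n + sumN n F

/-- finite conjunction -/
def allTo : ℕ → (ℕ → Bool) → Bool
  | 0, _ => true
  | n + 1, P => P n && allTo n P

/-- finite disjunction -/
def anyTo : ℕ → (ℕ → Bool) → Bool
  | 0, _ => false
  | n + 1, P => P n || anyTo n P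

/-- degree bound -/
def dlL (l : List ℕ) (n : ℕ) : Bool := zeroL (l.drop n)

/-- monic of given degree -/
def monL (l : List ℕ) (n : ℕ) : Bool := eqL (l.drop n) [1]

/-- a Bezout identity -/
def bezL (u v a b : List ℕ) : Bool := eqL (addL (mulL u a) (mulL v b)) [1]

lemma allTo_iff {n : ℕ} {P : ℕ → Bool} : allTo n P = true ↔ ∀ i : Fin n, P i = true := by
  induction n with
  | zero => simp [allTo]
  | succ n ih => simp [allTo, ih, Fin.forall_fin_succ', and_comm]

lemma anyTo_iff {n : ℕ} {P : ℕ → Bool} : anyTo n P = true ↔ ∃ i : Fin n, P i = true := by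
  induction n with
  | zero => simp [anyTo]
  | succ n ih => simp [anyTo, ih, Fin.exists_fin_succ', or_comm]

lemma sumN_eq (n : ℕ) (F : ℕ → ℕ) : sumN n F = ∑ i : Fin n, F i := by
  induction n with
  | zero => simp [sumN]
  | succ n ih => simp [sumN, ih, Fin.sum_univ_castSucc, add_comm]

variable (K : Type) [Field K]

/-- the polynomial with given coefficients -/
noncomputable def tP : List ℕ → K[X]
  | [] => 0
  | a :: l => C (a : K) + X * tP l

variable {K}

lemma tP_add (a b : List ℕ) : tP K (addL a b) = tP K a + tP K b := by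
  induction a generalizing b with
  | nil => simp [addL, tP]
  | cons x a ih =>
    cases b with
    | nil => simp [addL, tP]
    | cons y b => simp only [addL, tP, ih, Nat.cast_add, map_add]; ring

lemma tP_smul (c : ℕ) (a : List ℕ) : tP K (smulL c a) = C (c : K) * tP K a := by
  induction a with
  | nil => simp [smulL, tP]
  | cons x a ih => simp only [smulL, tP, ih, Nat.cast_mul, map_mul]; ring

lemma tP_mul (a b : List ℕ) : tP K (mulL a b) = tP K a * tP K b := by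
  induction a with
  | nil => simp [mulL, tP]
  | cons x a ih => simp only [mulL, tP, ih, tP_add, tP_smul, Nat.cast_zero, map_zero]; ring

lemma tP_xpow (n : ℕ) : tP K (xpow n) = X ^ n := by
  induction n with
  | zero => simp [xpow, tP]
  | succ n ih => simp [xpow, tP, ih, pow_succ']

lemma tP_one : tP K [1] = 1 := by simp [tP]

lemma tP_sum (n : ℕ) (F : ℕ → List ℕ) : tP K (sumTo n F) = ∑ i : Fin n, tP K (F i) := by
  induction n with
  | zero => simp [sumTo, tP]
  | succ n ih => simp [sumTo, ih, tP_add, Fin.sum_univ_castSucc, add_comm]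

lemma tP_prod (n : ℕ) (F : ℕ → List ℕ) : tP K (prodTo n F) = ∏ i : Fin n, tP K (F i) := by
  induction n with
  | zero => simp [prodTo, tP]
  | succ n ih => simp [prodTo, ih, tP_mul, Fin.prod_univ_castSucc, mul_comm]

lemma coeff_drop (n d : ℕ) (l : List ℕ) : (tP K (l.drop n)).coeff d = (tP K l).coeff (n + d) := by
  induction n generalizing l with
  | zero => simp
  | succ n ih =>
    cases l with
    | nil => simp [tP]
    | cons a l =>
      rw [List.drop_succ_cons, ih, tP, coeff_add, Nat.add_right_comm, coeff_C_succ, coeff_X_mul,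
        zero_add]

variable [CharP K 31]

lemma cast_eq_zero {a : ℕ} : (a : K) = 0 ↔ Nat.beq (a % 31) 0 = true := by
  rw [CharP.cast_eq_zero_iff K 31, Nat.beq_eq, Nat.dvd_iff_mod_eq_zero]

lemma tP_zero {l : List ℕ} (h : zeroL l = true) : tP K l = 0 := by
  induction l with
  | nil => rfl
  | cons a l ih =>
    simp only [zeroL, Bool.and_eq_true] at h
    rw [tP, ih h.2, cast_eq_zero.2 h.1]
    simp

lemma cast_thirty : ((30 : ℕ) : K) = -1 := by
  have : ((31 : ℕ) : K) = 0 := CharP.cast_eq_zero K 31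
  push_cast at this ⊢
  linear_combination this

lemma tP_eq {a b : List ℕ} (h : eqL a b = true) : tP K a = tP K b := by
  have := tP_zero (K := K) h
  rw [tP_add, tP_smul, cast_thirty] at this
  simpa [← sub_eq_add_neg, sub_eq_zero] using this

lemma tP_dl {l : List ℕ} {n : ℕ} (h : dlL l n = true) : DL (tP K l) n := by
  intro m hm
  obtain ⟨d, rfl⟩ := Nat.exists_eq_add_of_le hm
  rw [← coeff_drop, tP_zero h, coeff_zero]

lemma tP_mon {l : List ℕ} {n : ℕ} (h : monL l n = true) : Mon (tP K l) n := by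
  intro m hm
  obtain ⟨d, rfl⟩ := Nat.exists_eq_add_of_le hm
  rw [coeff_sub, ← coeff_drop, tP_eq h, tP_one, coeff_X_pow, coeff_one]
  simp

lemma tP_bez {u v a b : List ℕ} (h : bezL u v a b = true) : IsCoprime (tP K a) (tP K b) :=
  ⟨tP K u, tP K v, by simpa [tP_add, tP_mul, tP_one] using tP_eq (K := K) h⟩

omit [CharP K 31] in
lemma surj_of_single {V ρ : Type} [AddCommGroup V] [Module K V] [Fintype ρ] [DecidableEq ρ]
    (T : V →ₗ[K] (ρ → K)) (h : ∀ r, ∃ v, ∀ r', T v r' = if r' = r then 1 else 0) :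
    Function.Surjective T := by
  choose v hv using h
  intro y
  refine ⟨∑ r, y r • v r, funext fun r' => ?_⟩
  simp [map_sum, hv]

/-- the numerical data -/
structure Cert where
  μ : ℕ → ℕ
  p : ℕ → ℕ → ℕ
  R : ℕ → List ℕ
  h : ℕ → List ℕ
  H : List ℕ
  Hc : ℕ → List ℕ
  f : ℕ → List ℕ
  G : ℕ → ℕ → List ℕ
  u : ℕ → List ℕ
  v : ℕ → List ℕ
  Rd : ℕ → ℕ → ℕ → List ℕ
  hd : ℕ → ℕ → ℕ → List ℕ
  B1 : ℕ → ℕ → ℕ → ℕ
  B2 : ℕ → ℕ → ℕ → ℕ

namespace Cert

variable (Z : Cert) (s t δ e N D : ℕ)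

/-- basic identities -/
def c1 : Bool :=
  eqL (prodTo s Z.h) Z.H &&
  (allTo s fun i => monL (Z.h i) (Z.μ i) && dlL (Z.R i) (Z.μ i) &&
    eqL (mulL (Z.h i) (Z.Hc i)) Z.H && bezL (Z.u i) (Z.v i) (Z.h i) (mulL (Z.R i) (Z.Hc i))) &&
  (allTo t fun k => dlL (Z.f k) (δ + 1) &&
    eqL (sumTo s fun i => smulL (Z.p i k) (mulL (Z.R i) (Z.Hc i))) (Z.f k)) &&
  (allTo s fun i => allTo t fun k =>
    eqL (addL (mulL (Z.h i) (Z.G i k)) (smulL (Z.p i k) (mulL (Z.R i) (Z.Hc i)))) (Z.f k)) &&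
  allTo s fun i => allTo s fun j => Nat.beq i j || anyTo t fun k => anyTo t fun l =>
    !(Nat.beq ((Z.p i k * Z.p j l + 30 * (Z.p i l * Z.p j k)) % 31) 0)

/-- surjectivity of the differential, one row of targets -/
def c2 (k0 : ℕ) : Bool :=
  allTo e fun d0 =>
    (allTo s fun i => dlL (Z.Rd k0 d0 i) (Z.μ i) && dlL (Z.hd k0 d0 i) (Z.μ i)) &&
    allTo t fun k => eqL ((addL (sumTo s fun i => smulL (Z.p i k) (mulL (Z.Rd k0 d0 i) (Z.Hc i)))
      (sumTo s fun j => mulL (Z.hd k0 d0 j) (Z.G j k))).drop (δ + 1))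
      (if k = k0 then xpow d0 else [])

/-- one quadric -/
def cq (B : ℕ → ℕ → ℕ) (a : ℕ → ℕ) (y : List ℕ) : Bool :=
  (allTo s fun i => Nat.beq
    ((sumN t (fun k => sumN t fun l => B k l * (Z.p i k * Z.p i l)) + 30 * a i) % 31) 0) &&
  eqL ((sumTo t fun k => mulL (sumTo t fun l => smulL (B k l) (Z.f l)) (Z.f k)).drop N) y

/-- surjectivity for quadrics -/
def c3 : Bool :=
  (allTo s fun i0 => Z.cq s t N (Z.B1 i0) (fun i => if i = i0 then 1 else 0) []) &&
  allTo (D + 1) fun d0 => Z.cq s t N (Z.B2 d0) (fun _ => 0) (xpow d0)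

/-- an extra point -/
def c4 (m : ℕ) (c : ℕ → ℕ) (Ra ha u v : List ℕ) : Bool :=
  monL ha m && dlL Ra m && bezL u v Ra ha &&
  dlL (addL (mulL ha (sumTo s fun i => smulL (c i) (mulL (Z.R i) (Z.Hc i)))) (mulL Ra Z.H))
    (δ + m + 1)

variable (K)

/-- the points -/
def pK : Fin s → Fin t → K := fun i k => (Z.p i k : K)
/-- the numerators -/
noncomputable def RK : Fin s → K[X] := fun i => tP K (Z.R i)
/-- the denominators -/
noncomputable def hK : Fin s → K[X] := fun i => tP K (Z.h i)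

variable {K Z s t δ e N D}

lemma c1_spec (h : Z.c1 s t δ = true) :
    ∏ i, Z.hK K s i = tP K Z.H ∧ (∀ i, Mon (Z.hK K s i) (Z.μ i)) ∧
    (∀ i, DL (Z.RK K s i) (Z.μ i)) ∧ (∀ i, Hi (Z.hK K s) i = tP K (Z.Hc i)) ∧
    (∀ i, IsCoprime (Z.hK K s i) (Z.RK K s i * Hi (Z.hK K s) i)) ∧
    (∀ k, ff (Z.pK K s t) (Z.RK K s) (Z.hK K s) k = tP K (Z.f k)) ∧
    (∀ k : Fin t, DL (tP K (Z.f k)) (δ + 1)) ∧
    (∀ i k, GG (Z.pK K s t) (Z.RK K s) (Z.hK K s) i k = tP K (Z.G i k)) ∧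
    ∀ i j, i ≠ j → ∃ k l, Z.pK K s t i k * Z.pK K s t j l - Z.pK K s t i l * Z.pK K s t j k ≠ 0 := by
  simp only [c1, Bool.and_eq_true, allTo_iff, Bool.or_eq_true, anyTo_iff] at h
  obtain ⟨⟨⟨⟨h1, h2⟩, h3⟩, h4⟩, h5⟩ := h
  have a1 : ∏ i, Z.hK K s i = tP K Z.H := by rw [← tP_eq h1, tP_prod]; rfl
  have a2 : ∀ i, Mon (Z.hK K s i) (Z.μ i) := fun i => tP_mon (h2 i).1.1.1
  have a3 : ∀ i, Hi (Z.hK K s) i = tP K (Z.Hc i) := fun i => by
    apply (a2 i).mul_left_cancel
    rw [mul_Hi, a1, ← tP_eq (h2 i).1.2, tP_mul]; rfl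
  have a4 : ∀ k, ff (Z.pK K s t) (Z.RK K s) (Z.hK K s) k = tP K (Z.f k) := fun k => by
    rw [← tP_eq (h3 k).2, tP_sum]
    simp only [ff, a3, tP_smul, tP_mul]
    rfl
  refine ⟨a1, a2, fun i => tP_dl (h2 i).1.1.2, a3, fun i => ?_, a4, fun k => tP_dl (h3 k).1,
    fun i k => ?_, fun i j hij => ?_⟩
  · have := tP_bez (K := K) (h2 i).2
    rwa [tP_mul, ← a3] at this
  · apply (a2 i).mul_left_cancel
    have e1 := ff_eq (Z.pK K s t) (Z.RK K s) (Z.hK K s) i k
    have e2 := tP_eq (K := K) (h4 i k)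
    rw [tP_add, tP_mul, tP_smul, tP_mul, ← a4, e1, a3] at e2
    exact (add_right_cancel e2).symm
  · obtain ⟨k, l, hkl⟩ := (h5 i j).resolve_left (by simpa [Fin.val_inj] using hij)
    refine ⟨k, l, fun h0 => ?_⟩
    rw [Bool.not_eq_true', Bool.eq_false_iff, Ne, ← cast_eq_zero (K := K)] at hkl
    apply hkl
    rw [Nat.cast_add, Nat.cast_mul 30, cast_thirty, Nat.cast_mul, Nat.cast_mul]
    simp only [pK] at h0
    linear_combination h0

theorem alg (hM : ∑ i : Fin s, Z.μ i = δ + 1 + e) (h1 : Z.c1 s t δ = true)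
    (h2 : ∀ k : Fin t, Z.c2 s t δ e k = true) :
    Alg (fun i : Fin s => Z.μ i) δ (Z.pK K s t) (Z.RK K s) (Z.hK K s) := by
  obtain ⟨-, a2, a3, a4, a5, a6, a7, a8, a9⟩ := c1_spec (K := K) h1
  refine ⟨a2, a3, fun k => a6 k ▸ a7 k, (rigid_iff hM a2 a3).2 (surj_of_single _ ?_),
    fun i j hij => ?_, fun i => (a5 i).of_mul_right_left.symm, a9⟩
  · rintro ⟨k0, d0⟩
    have h := h2 k0
    simp only [c2, Bool.and_eq_true, allTo_iff] at h
    obtain ⟨g1, g2⟩ := h d0
    obtain ⟨b, b1, b2⟩ := exists_unk (μ := fun i : Fin s => Z.μ i)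
      (Rd := fun i => tP K (Z.Rd k0 d0 i)) (hd := fun i => tP K (Z.hd k0 d0 i))
      (fun i => tP_dl (g1 i).1) (fun i => tP_dl (g1 i).2)
    refine ⟨b, fun ⟨k, d⟩ => ?_⟩
    have e1 := congrArg (fun P => P.coeff d) (tP_eq (K := K) (g2 k))
    simp only [coeff_drop, tP_add, tP_sum, tP_smul, tP_mul] at e1
    simp only [LinearMap.comp_apply, hiCoeff, DDl, LinearMap.coe_mk, AddHom.coe_mk, b1, b2, DD,
      ff, a4, a8]
    refine e1.trans ?_
    by_cases hk : k = k0
    · simp [hk, tP_xpow, coeff_X_pow, Fin.val_inj]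
    · simp [hk, Fin.val_inj, tP]
  · exact ((a5 i).of_mul_right_right).of_isCoprime_of_dvd_right (dvd_Hi _ hij)

lemma cq_spec {B : ℕ → ℕ → ℕ} {a : ℕ → ℕ} {y : List ℕ} (h : Z.cq s t N B a y = true) :
    Qmap (Z.pK K s t) (fun k : Fin t => tP K (Z.f k)) N D (fun kl => (B kl.1 kl.2 : K)) =
      Sum.elim (fun i : Fin s => (a i : K)) fun d : Fin (D + 1) => (tP K y).coeff d := by
  simp only [cq, Bool.and_eq_true, allTo_iff] at h
  funext x
  cases x with
  | inl i =>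
    have e1 := (cast_eq_zero (K := K)).2 (h.1 i)
    simp only [sumN_eq, Nat.cast_add, Nat.cast_mul 30, cast_thirty] at e1
    push_cast at e1
    simp only [Qmap, LinearMap.coe_mk, AddHom.coe_mk, Sum.elim_inl, pK]
    linear_combination e1
  | inr d =>
    have e1 := congrArg (fun P => P.coeff d) (tP_eq (K := K) h.2)
    simp only [coeff_drop, tP_sum, tP_smul, tP_mul] at e1
    simp only [Qmap, LinearMap.coe_mk, AddHom.coe_mk, Sum.elim_inr]
    rw [← e1]
    congr 1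
    refine Finset.sum_congr rfl fun k _ => ?_
    rw [Finset.sum_mul]
    exact Finset.sum_congr rfl fun l _ => by ring

theorem quad (hN : 2 * δ = N + D) (h1 : Z.c1 s t δ = true) (h3 : Z.c3 s t N D = true) :
    Quad (Z.pK K s t) (ff (Z.pK K s t) (Z.RK K s) (Z.hK K s)) δ N := by
  obtain ⟨-, -, -, -, -, a6, a7, -, -⟩ := c1_spec (K := K) h1
  rw [show ff (Z.pK K s t) (Z.RK K s) (Z.hK K s) = fun k : Fin t => tP K (Z.f k) from funext a6,
    quad_iff hN a7]
  simp only [c3, Bool.and_eq_true, allTo_iff] at h3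
  refine surj_of_single _ ?_
  rintro (i0 | d0)
  · refine ⟨_, fun r => (congrFun (cq_spec (h3.1 i0)) r).trans ?_⟩
    cases r <;> simp [tP, Fin.val_inj]
  · refine ⟨_, fun r => (congrFun (cq_spec (h3.2 d0)) r).trans ?_⟩
    cases r <;> simp [tP_xpow, coeff_X_pow, Fin.val_inj]

theorem seed {m : ℕ} {c : ℕ → ℕ} {Ra ha u v : List ℕ} (h1 : Z.c1 s t δ = true)
    (h4 : Z.c4 s δ m c Ra ha u v = true) :
    Seed (Z.RK K s) (Z.hK K s) δ m (fun i => (c i : K)) (tP K Ra) (tP K ha) := by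
  obtain ⟨a1, -, -, a4, -⟩ := c1_spec (K := K) h1
  simp only [c4, Bool.and_eq_true] at h4
  refine ⟨tP_mon h4.1.1.1, tP_dl h4.1.1.2, tP_bez h4.1.2, ?_⟩
  have := tP_dl (K := K) h4.2
  simp only [tP_add, tP_mul, tP_sum, tP_smul] at this
  simp only [NN, a1, a4]
  exact this

end Cert

/-- lookup in a list of numbers -/
def g1 (l : List ℕ) (i : ℕ) : ℕ := l.getD i 0
/-- lookup in a list of lists -/
def gl {α : Type} (l : List (List α)) (i : ℕ) : List α := l.getD i []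

instance : Fact (Nat.Prime 31) := ⟨by norm_num⟩

theorem Cert.general (Z : Cert) (a b δ m D : ℕ) {ca cb : ℕ → ℕ} {Ra ha ua va Rb hb ub vb u v : List ℕ}
    (h1 : Z.c1 (a + 2) (b + 2) δ = true)
    (h2 : ∀ k : Fin (b + 2), Z.c2 (a + 2) (b + 2) δ (m + m) k = true)
    (h3 : Z.c3 (a + 2) (b + 2) (δ + 1 + (m + m)) D = true)
    (h4 : Z.c4 (a + 2) δ m ca Ra ha ua va = true) (h5 : Z.c4 (a + 2) δ m cb Rb hb ub vb = true)
    (h6 : bezL u v ha hb = true) (hM : sumN (a + 2) Z.μ = δ + 1 + (m + m))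
    (hM' : 2 * (δ + 1 + (m + m)) = (b + 2) * (m + m) + 4) (hm : 1 ≤ m) (hmδ : m < δ)
    (lt : ∀ i : Fin (a + 2), Z.μ i < δ) (hD : 2 * δ = δ + 1 + (m + m) + D) (Dpos : 1 ≤ D) (j : ℕ) :
    GeneralBlowupHas (j + (b + 1)) (j + (a + 2)) (((δ + j * m : ℕ) : ℤ), fun i =>
      ((Sum.elim (fun _ : Fin j => m) (fun i : Fin (a + 2) => Z.μ i) (finSumFinEquiv.symm i) : ℕ) : ℤ)) := by
  rw [sumN_eq] at hM
  exact general_of_seeds (K := AlgebraicClosure (ZMod 31)) (Cert.alg hM h1 h2)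
    (hM ▸ Cert.quad hD h1 h3) hM (hM ▸ hM') hm hmδ lt (hM ▸ hD) Dpos (Cert.seed h1 h4)
    (Cert.seed h1 h5) (tP_bez h6) j

end Pool.Agent.H265Z
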