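import Mathlib

/-!
# Degree bookkeeping for univariate polynomials
-/

set_option autoImplicit false

namespace Pool.Agent.H265Z

open Polynomial

section ring

variable {A : Type} [CommRing A]

/-- `P` has degree `< n`. -/
def DL (P : A[X]) (n : ℕ) : Prop := ∀ m, n ≤ m → P.coeff m = 0

lemma DL_iff_degree {P : A[X]} {n : ℕ} : DL P n ↔ P.degree < n :=
  (degree_lt_iff_coeff_zero P n).symm

lemma DL_succ_iff {P : A[X]} {n : ℕ} : DL P (n + 1) ↔ P.natDegree ≤ n := by
  rw [natDegree_le_iff_coeff_eq_zero]; rfl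

lemma DL.natDegree_le {P : A[X]} {n : ℕ} (h : DL P (n + 1)) : P.natDegree ≤ n := DL_succ_iff.1 h

lemma DL_zero (n : ℕ) : DL (0 : A[X]) n := fun _ _ => by simp

lemma DL.eq_zero {P : A[X]} (h : DL P 0) : P = 0 := by
  ext m; simpa using h m (Nat.zero_le m)

lemma DL.mono {P : A[X]} {n n' : ℕ} (h : DL P n) (hn : n ≤ n') : DL P n' :=
  fun m hm => h m (hn.trans hm)

lemma DL.add {P Q : A[X]} {n : ℕ} (h : DL P n) (h' : DL Q n) : DL (P + Q) n :=
  fun m hm => by simp [h m hm, h' m hm]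

lemma DL.neg {P : A[X]} {n : ℕ} (h : DL P n) : DL (-P) n :=
  fun m hm => by simp [h m hm]

lemma DL.sub {P Q : A[X]} {n : ℕ} (h : DL P n) (h' : DL Q n) : DL (P - Q) n :=
  fun m hm => by simp [h m hm, h' m hm]

lemma DL.C_mul {P : A[X]} {n : ℕ} (h : DL P n) (c : A) : DL (C c * P) n :=
  fun m hm => by simp [h m hm]

lemma DL.mul_C {P : A[X]} {n : ℕ} (h : DL P n) (c : A) : DL (P * C c) n :=
  fun m hm => by simp [h m hm]

lemma DL.smul {P : A[X]} {n : ℕ} (h : DL P n) (c : A) : DL (c • P) n :=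
  fun m hm => by simp [h m hm]

lemma DL.sum {α : Type} {s : Finset α} {P : α → A[X]} {n : ℕ} (h : ∀ a ∈ s, DL (P a) n) :
    DL (∑ a ∈ s, P a) n :=
  fun m hm => by rw [finsetSum_coeff]; exact Finset.sum_eq_zero fun a ha => h a ha m hm

lemma DL.mul {P Q : A[X]} {a b n : ℕ} (h : DL P a) (h' : DL Q b) (hn : a + b ≤ n + 1) :
    DL (P * Q) n := by
  intro m hm
  rw [coeff_mul]
  refine Finset.sum_eq_zero fun x hx => ?_
  have : x.1 + x.2 = m := by simpa using hx
  by_cases h1 : a ≤ x.1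
  · rw [h _ h1, zero_mul]
  · rw [h' _ (by omega), mul_zero]

lemma DL_C (c : A) : DL (C c) 1 := DL_succ_iff.2 (by simp)

lemma DL_one : DL (1 : A[X]) 1 := by simpa using DL_C (1 : A)

lemma DL_X : DL (X : A[X]) 2 := DL_succ_iff.2 natDegree_X_le

lemma DL_X_pow (n : ℕ) : DL ((X : A[X]) ^ n) (n + 1) := DL_succ_iff.2 (natDegree_X_pow_le n)

lemma DL_monomial (n : ℕ) (c : A) : DL (monomial n c) (n + 1) :=
  DL_succ_iff.2 (natDegree_monomial_le c)

lemma DL.derivative {P : A[X]} {n : ℕ} (h : DL P (n + 1)) : DL (derivative P) n :=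
  fun m hm => by rw [coeff_derivative, h _ (by omega), zero_mul]

lemma DL.map {B : Type} [CommRing B] (φ : A →+* B) {P : A[X]} {n : ℕ} (h : DL P n) :
    DL (P.map φ) n := fun m hm => by simp [h m hm]

lemma DL.prod {α : Type} {s : Finset α} {P : α → A[X]} {n : α → ℕ}
    (h : ∀ a ∈ s, DL (P a) (n a + 1)) : DL (∏ a ∈ s, P a) (∑ a ∈ s, n a + 1) :=
  DL_succ_iff.2 ((natDegree_prod_le s P).trans
    (Finset.sum_le_sum fun a ha => (h a ha).natDegree_le))

lemma DL.of_coeff {P : A[X]} {n : ℕ} (h : DL P (n + 1)) (h' : P.coeff n = 0) : DL P n := by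
  intro m hm
  rcases hm.eq_or_lt with rfl | h1
  · exact h'
  · exact h m h1

/-- polynomial with given coefficients -/
noncomputable def pol {n : ℕ} (v : Fin n → A) : A[X] := ∑ a : Fin n, monomial a (v a)

lemma coeff_pol {n : ℕ} (v : Fin n → A) (a : Fin n) : (pol v).coeff a = v a := by
  simp only [pol, finsetSum_coeff, coeff_monomial]
  rw [Finset.sum_eq_single a]
  · simp
  · intro b _ hb
    rw [if_neg (fun h => hb (Fin.ext h))]
  · simp

lemma DL_pol {n : ℕ} (v : Fin n → A) : DL (pol v) n :=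
  DL.sum fun a _ => (DL_monomial a _).mono a.2

lemma pol_coeff {n : ℕ} {P : A[X]} (h : DL P n) : pol (fun a : Fin n => P.coeff a) = P := by
  ext m
  by_cases hm : m < n
  · exact coeff_pol (fun a : Fin n => P.coeff a) ⟨m, hm⟩
  · rw [DL_pol _ m (not_lt.1 hm), h m (not_lt.1 hm)]

lemma pol_add {n : ℕ} (v w : Fin n → A) : pol (v + w) = pol v + pol w := by
  simp [pol, Finset.sum_add_distrib]

lemma pol_smul {n : ℕ} (c : A) (v : Fin n → A) : pol (c • v) = C c * pol v := by
  simp [pol, Finset.mul_sum, C_mul_monomial]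

lemma pol_map {B : Type} [CommRing B] (φ : A →+* B) {n : ℕ} (v : Fin n → A) :
    (pol v).map φ = pol (φ ∘ v) := by
  simp [pol, Polynomial.map_sum]

lemma pol_eq_zero {n : ℕ} {v : Fin n → A} (h : pol v = 0) : v = 0 := by
  funext a
  rw [← coeff_pol v a, h]; simp

lemma pol_mul_pol_eq_zero {n n' : ℕ} {v : Fin n → A} {w : Fin n' → A}
    (h : ∀ a b, v a * w b = 0) : pol v * pol w = 0 := by
  simp only [pol, Finset.sum_mul_sum, monomial_mul_monomial, h, monomial_zero_right,
    Finset.sum_const_zero]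

/-- `h` is monic of degree `m` -/
def Mon (h : A[X]) (m : ℕ) : Prop := DL (h - X ^ m) m

lemma Mon.dl {h : A[X]} {m : ℕ} (H : Mon h m) : DL h (m + 1) := by
  have := (DL.mono H (Nat.le_succ m)).add (DL_X_pow m)
  simpa using this

lemma Mon.coeff {h : A[X]} {m : ℕ} (H : Mon h m) : h.coeff m = 1 := by
  have := H m le_rfl
  simpa [sub_eq_zero] using this

lemma Mon.monic {h : A[X]} {m : ℕ} (H : Mon h m) : h.Monic :=
  monic_of_natDegree_le_of_coeff_eq_one m H.dl.natDegree_le H.coeff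

lemma Mon.natDegree [Nontrivial A] {h : A[X]} {m : ℕ} (H : Mon h m) : h.natDegree = m :=
  natDegree_eq_of_le_of_coeff_ne_zero H.dl.natDegree_le (by rw [H.coeff]; exact one_ne_zero)

lemma Mon.of_coeff {h : A[X]} {m : ℕ} (H : DL h (m + 1)) (h1 : h.coeff m = 1) : Mon h m :=
  (H.sub (DL_X_pow m)).of_coeff (by simp [h1])

lemma Mon.mul {h h' : A[X]} {m m' : ℕ} (H : Mon h m) (H' : Mon h' m') : Mon (h * h') (m + m') := by
  have : h * h' - X ^ (m + m') = (h - X ^ m) * h' + X ^ m * (h' - X ^ m') := by ring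
  unfold Mon
  rw [this]
  exact (DL.mul H H'.dl (by omega)).add (DL.mul (DL_X_pow m) H' (by omega))

lemma Mon_one : Mon (1 : A[X]) 0 := by unfold Mon; simpa using DL_zero 0

lemma Mon.prod {α : Type} {s : Finset α} {h : α → A[X]} {m : α → ℕ}
    (H : ∀ a ∈ s, Mon (h a) (m a)) : Mon (∏ a ∈ s, h a) (∑ a ∈ s, m a) := by
  classical
  induction s using Finset.induction_on with
  | empty => simpa using Mon_one
  | insert a s ha ih =>
    rw [Finset.prod_insert ha, Finset.sum_insert ha]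
    exact (H a (Finset.mem_insert_self a s)).mul
      (ih fun b hb => H b (Finset.mem_insert_of_mem hb))

lemma Mon_add_pol {n : ℕ} (v : Fin n → A) : Mon (X ^ n + pol v) n := by
  unfold Mon; simpa using DL_pol v

lemma Mon.cancel {h P : A[X]} {m a : ℕ} (H : Mon h m) (hP : DL (h * P) (m + a)) : DL P a := by
  by_cases h0 : P = 0
  · rw [h0]; exact DL_zero a
  haveI : Nontrivial (A[X]) := ⟨P, 0, h0⟩
  haveI : Nontrivial A := Polynomial.Nontrivial.of_polynomial_ne h0
  rw [DL_iff_degree] at hP ⊢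
  rw [mul_comm, H.monic.degree_mul, degree_eq_natDegree H.monic.ne_zero, H.natDegree,
    degree_eq_natDegree h0] at hP
  rw [degree_eq_natDegree h0]
  norm_cast at hP ⊢
  omega

lemma Mon.div {h : A[X]} {m a : ℕ} (H : Mon h m) {y : A[X]} (hy : DL y (m + a)) :
    ∃ q r, y = h * q + r ∧ DL q a ∧ DL r m := by
  rcases subsingleton_or_nontrivial A with hA | hA
  · exact ⟨0, 0, Subsingleton.elim _ _, DL_zero _, DL_zero _⟩
  have hr : DL (y %ₘ h) m := by
    rw [DL_iff_degree, ← H.natDegree, ← degree_eq_natDegree H.monic.ne_zero]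
    exact degree_modByMonic_lt y H.monic
  refine ⟨y /ₘ h, y %ₘ h, by rw [add_comm, modByMonic_add_div], H.cancel ?_, hr⟩
  have : h * (y /ₘ h) = y - y %ₘ h := by rw [eq_sub_iff_add_eq, add_comm, modByMonic_add_div]
  rw [this]
  exact hy.sub (hr.mono (by omega))

lemma DL_natDegree (y : A[X]) : DL y (y.natDegree + 1) := DL_succ_iff.2 le_rfl

lemma Mon.div' {h : A[X]} {m : ℕ} (H : Mon h m) (y : A[X]) :
    ∃ q r, y = h * q + r ∧ DL r m := by
  obtain ⟨q, r, h1, -, h2⟩ := H.div (a := y.natDegree + 1) ((DL_natDegree y).mono (by omega))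
  exact ⟨q, r, h1, h2⟩

lemma Mon.eq_zero_of_dvd {h P : A[X]} {m : ℕ} (H : Mon h m) (hd : h ∣ P) (hP : DL P m) :
    P = 0 := by
  obtain ⟨q, rfl⟩ := hd
  rw [(H.cancel (a := 0) hP).eq_zero, mul_zero]

lemma Mon.mul_left_cancel {h P Q : A[X]} {m : ℕ} (H : Mon h m) (hP : h * P = h * Q) : P = Q := by
  rw [← sub_eq_zero]
  apply DL.eq_zero
  apply H.cancel
  rw [mul_sub, hP, sub_self]
  exact DL_zero _

/-- Bezout with degree bounds -/
lemma Mon.bezout {h R : A[X]} {m : ℕ} (H : Mon h m) (hR : DL R m) (hc : IsCoprime R h)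
    {q : A[X]} (hq : DL q (m + m)) : ∃ a b, DL a m ∧ DL b m ∧ a * h - b * R = q := by
  obtain ⟨u, v, huv⟩ := hc
  obtain ⟨c, b, hb1, hb2⟩ := H.div' (-(u * q))
  refine ⟨v * q - c * R, b, H.cancel ?_, hb2, ?_⟩
  · have : h * (v * q - c * R) = q + b * R := by
      have hb : b = -(u * q) - h * c := by rw [hb1]; ring
      rw [hb]; linear_combination q * huv
    rw [this]
    exact hq.add (hb2.mul hR (by omega))
  · have hb : b = -(u * q) - h * c := by rw [hb1]; ring
    rw [hb]; linear_combination q * huv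

end ring

end Pool.Agent.H265Z
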