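import Pool.Agent.H265Z.Defs

set_option autoImplicit false

namespace Pool.Agent.H265Z

/-! ### The numbers game (simply laced) -/

section game

variable {L I : Type} [AddCommGroup L] (a : I → L →+ ℤ) (v : I → L)

/-- reflection -/
def refl (i : I) (x : L) : L := x + a i x • v i

/-- `x` reduces to `c` in `k` legal moves -/
def Red (c : L) : ℕ → L → Prop
  | 0, x => x = c
  | k + 1, x => ∃ i, a i x < 0 ∧ Red c k (refl a v i x)

variable {a v}

lemma a_refl (i j : I) (x : L) : a j (refl a v i x) = a j x + a i x * a j (v i) := by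
  simp [refl]

theorem red_step (hd : ∀ i, a i (v i) = -2)
    (ho : ∀ i j, i ≠ j → (a i (v j) = 0 ∧ a j (v i) = 0) ∨ (a i (v j) = 1 ∧ a j (v i) = 1))
    {c : L} (hc : ∀ i, 0 ≤ a i c) :
    ∀ k x, Red a v c k x → ∀ s, a s x < 0 → ∃ k', k = k' + 1 ∧ Red a v c k' (refl a v s x) := by
  intro k
  induction k using Nat.strong_induction_on with
  | _ k ih =>
    intro x hx s hs
    cases k with
    | zero =>
      have : x = c := hx
      subst this
      exact absurd (hc s) (not_le.mpr hs)
    | succ k =>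
      obtain ⟨t, ht, hr⟩ := hx
      refine ⟨k, rfl, ?_⟩
      by_cases hts : t = s
      · subst hts; exact hr
      rcases ho s t (Ne.symm hts) with ⟨h1, h2⟩ | ⟨h1, h2⟩
      · have l1 : a s (refl a v t x) < 0 := by rw [a_refl, h1]; simpa using hs
        obtain ⟨k', rfl, hk'⟩ := ih k (Nat.lt_succ_self k) _ hr s l1
        refine ⟨t, by rw [a_refl, h2]; simpa using ht, ?_⟩
        have : refl a v t (refl a v s x) = refl a v s (refl a v t x) := by
          simp only [refl, map_add, map_zsmul, h1, h2, smul_eq_mul, mul_zero, add_zero]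
          abel
        rw [this]; exact hk'
      · have l1 : a s (refl a v t x) < 0 := by rw [a_refl, h1]; omega
        obtain ⟨k', rfl, hk'⟩ := ih k (Nat.lt_succ_self k) _ hr s l1
        have l2 : a t (refl a v s (refl a v t x)) < 0 := by
          simp only [a_refl, h1, h2, hd]; omega
        obtain ⟨k'', rfl, hk''⟩ := ih k' (by omega) _ hk' t l2
        refine ⟨t, by rw [a_refl, h2]; omega, s, by simp only [a_refl, h1, h2, hd]; omega, ?_⟩
        have : refl a v s (refl a v t (refl a v s x)) = refl a v t (refl a v s (refl a v t x)) := by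
          simp only [refl, map_add, map_zsmul, h1, h2, hd, smul_eq_mul]
          module
        rw [this]; exact hk''

theorem red_closed (hd : ∀ i, a i (v i) = -2)
    (ho : ∀ i j, i ≠ j → (a i (v j) = 0 ∧ a j (v i) = 0) ∨ (a i (v j) = 1 ∧ a j (v i) = 1))
    {c : L} (hc : ∀ i, 0 ≤ a i c) (x : L) (hx : ∃ k, Red a v c k x) (s : I) :
    ∃ k, Red a v c k (refl a v s x) := by
  obtain ⟨k, hk⟩ := hx
  rcases lt_trichotomy (a s x) 0 with h | h | h
  · obtain ⟨k', -, h'⟩ := red_step hd ho hc k x hk s h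
    exact ⟨k', h'⟩
  · exact ⟨k, by simpa [refl, h] using hk⟩
  · refine ⟨k + 1, s, by rw [a_refl, hd]; omega, ?_⟩
    have : refl a v s (refl a v s x) = x := by
      simp only [refl, map_add, map_zsmul, hd, smul_eq_mul]
      module
    rw [this]; exact hk

theorem red_height (ht : L →+ ℤ) (hv : ∀ i, 0 ≤ ht (v i)) {c : L} :
    ∀ k x, Red a v c k x → ht c ≤ ht x := by
  intro k
  induction k with
  | zero => intro x hx; have : x = c := hx; rw [this]
  | succ k ih =>
    rintro x ⟨i, hi, hr⟩
    have h1 := ih _ hr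
    have h2 : ht (refl a v i x) = ht x + a i x * ht (v i) := by simp [refl]
    have h3 : a i x * ht (v i) ≤ 0 := mul_nonpos_of_nonpos_of_nonneg hi.le (hv i)
    omega

end game

/-! ### Application to the Weyl group -/

lemma cremona_invol (n : ℕ) {s : ℕ} (Γ : Finset (Fin s)) (hΓ : Γ.card = n + 1) (c : CurveClass s) :
    cremona n Γ (cremona n Γ c) = c := by
  have h : ∑ i ∈ Γ, (if i ∈ Γ then c.2 i + (c.1 - ∑ i ∈ Γ, c.2 i) else c.2 i)
      = ∑ i ∈ Γ, c.2 i + (n + 1) * (c.1 - ∑ i ∈ Γ, c.2 i) := by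
    rw [Finset.sum_congr rfl (fun i hi => if_pos hi), Finset.sum_add_distrib, Finset.sum_const, hΓ]
    simp
  ext
  · simp only [cremona, h]; ring
  · rename_i i
    simp only [cremona, h]
    split_ifs <;> ring

/-- A set of classes closed under all Cremona maps is a union of orbits. -/
lemma orbit_closed (n : ℕ) {s : ℕ} (S : Set (CurveClass s))
    (hS : ∀ Γ : Finset (Fin s), Γ.card = n + 1 → ∀ x ∈ S, cremona n Γ x ∈ S)
    {c c' : CurveClass s} (h : SameWeylOrbit n c c') : c ∈ S ↔ c' ∈ S := by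
  induction h with
  | rel x y hxy =>
    obtain ⟨Γ, hΓ, rfl⟩ := hxy
    refine ⟨hS Γ hΓ x, fun h => ?_⟩
    have := hS Γ hΓ _ h
    rwa [cremona_invol n Γ hΓ] at this
  | refl x => rfl
  | symm x y _ ih => exact ih.symm
  | trans x y z _ _ ih1 ih2 => exact ih1.trans ih2

/-- The quadratic invariant. -/
def quad (n : ℕ) {s : ℕ} (c : CurveClass s) : ℤ := c.1 ^ 2 - ((n : ℤ) - 1) * ∑ i, c.2 i ^ 2

lemma quad_cremona (n : ℕ) {s : ℕ} (Γ : Finset (Fin s)) (hΓ : Γ.card = n + 1) (c : CurveClass s) :
    quad n (cremona n Γ c) = quad n c := by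
  set t := c.1 - ∑ i ∈ Γ, c.2 i with ht
  have h : ∑ i, (if i ∈ Γ then c.2 i + t else c.2 i) ^ 2
      = ∑ i, c.2 i ^ 2 + (2 * t * ∑ i ∈ Γ, c.2 i + (n + 1) * t ^ 2) := by
    have h1 : ∀ i, (if i ∈ Γ then c.2 i + t else c.2 i) ^ 2
        = c.2 i ^ 2 + (if i ∈ Γ then 2 * t * c.2 i + t ^ 2 else 0) := by
      intro i; split_ifs <;> ring
    simp only [h1, Finset.sum_add_distrib, Finset.sum_ite_mem, Finset.univ_inter,
      Finset.sum_const, hΓ, Finset.mul_sum]
    simp
  have h2 : ∑ i ∈ Γ, c.2 i = c.1 - t := by rw [ht]; ring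
  show (c.1 + ((n : ℤ) - 1) * t) ^ 2 - ((n : ℤ) - 1) *
    ∑ i, (if i ∈ Γ then c.2 i + t else c.2 i) ^ 2 = c.1 ^ 2 - ((n : ℤ) - 1) * ∑ i, c.2 i ^ 2
  rw [h, h2]
  ring

lemma quad_line (n : ℕ) {s : ℕ} {i j : Fin s} (hij : i ≠ j) :
    quad n ((1 : ℤ), fun k => if k = i ∨ k = j then (1 : ℤ) else 0) = 3 - 2 * n := by
  have : ∑ k : Fin s, (if k = i ∨ k = j then (1 : ℤ) else 0) ^ 2 = 2 := by
    have h1 : ∀ k : Fin s, (if k = i ∨ k = j then (1 : ℤ) else 0) ^ 2
        = (if k = i then 1 else 0) + (if k = j then 1 else 0) := by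
      intro k
      by_cases h1 : k = i <;> by_cases h2 : k = j
      · exact absurd (h1.symm.trans h2) hij
      all_goals simp [h1, h2, hij, hij.symm]
    simp [h1, Finset.sum_add_distrib]
  simp only [quad, this]; ring

theorem not_line_of_quad (n : ℕ) {s : ℕ} (c : CurveClass s) (hc : quad n c ≠ 3 - 2 * n) :
    ¬ InWeylLineOrbit n c := by
  rintro ⟨i, j, hij, h⟩
  have := (orbit_closed n {x | quad n x = 3 - 2 * n}
    (fun Γ hΓ x hx => by simpa [quad_cremona n Γ hΓ] using hx) h).1 (quad_line n hij)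
  exact hc this

/-- simple roots, as functionals on curve classes -/
def rootA (n s : ℕ) : Option (Fin s) → CurveClass (s + 1) →+ ℤ
  | none =>
    { toFun := fun c => c.1 - ∑ i ∈ Finset.univ.filter (fun i : Fin (s + 1) => i.val ≤ n), c.2 i
      map_zero' := by simp
      map_add' := by intro x y; simp [Finset.sum_add_distrib]; ring }
  | some i =>
    { toFun := fun c => c.2 i.castSucc - c.2 i.succ
      map_zero' := by simp
      map_add' := by intro x y; simp; ring }

/-- simple coroots -/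
def rootV (n s : ℕ) : Option (Fin s) → CurveClass (s + 1)
  | none => ((n : ℤ) - 1, fun i => if i.val ≤ n then 1 else 0)
  | some i => (0, fun k => (if k = i.succ then 1 else 0) - (if k = i.castSucc then 1 else 0))

lemma card_base {n s : ℕ} (hn : n ≤ s) :
    (Finset.univ.filter (fun i : Fin (s + 1) => i.val ≤ n)).card = n + 1 := by
  have : (Finset.univ.filter (fun i : Fin (s + 1) => i.val ≤ n)) = Finset.Iic ⟨n, by omega⟩ := by
    ext i; simp [Fin.le_def]
  rw [this]; simp

lemma root_diag {n s : ℕ} (hn : n ≤ s) (i : Option (Fin s)) : rootA n s i (rootV n s i) = -2 := by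
  cases i with
  | none =>
    simp only [rootA, rootV, AddMonoidHom.coe_mk, ZeroHom.coe_mk]
    rw [Finset.sum_congr rfl (fun i hi => if_pos (Finset.mem_filter.mp hi).2), Finset.sum_const,
      card_base hn]
    simp; ring
  | some i =>
    have : i.castSucc ≠ i.succ := (Fin.castSucc_lt_succ (i := i)).ne
    simp [rootA, rootV, this, this.symm]

lemma root_none_some {n s : ℕ} (i : Fin s) :
    rootA n s none (rootV n s (some i)) = if i.val = n then 1 else 0 := by
  simp only [rootA, rootV, AddMonoidHom.coe_mk, ZeroHom.coe_mk, Finset.sum_sub_distrib,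
    Finset.sum_ite_eq', Finset.mem_filter, Finset.mem_univ, true_and, Fin.val_succ,
    Fin.val_castSucc]
  split_ifs <;> omega

lemma root_some_none {n s : ℕ} (i : Fin s) :
    rootA n s (some i) (rootV n s none) = if i.val = n then 1 else 0 := by
  simp only [rootA, rootV, AddMonoidHom.coe_mk, ZeroHom.coe_mk, Fin.val_succ,
    Fin.val_castSucc]
  split_ifs <;> omega

lemma root_some_some {n s : ℕ} (i j : Fin s) (hij : i ≠ j) :
    rootA n s (some i) (rootV n s (some j)) =
      if i.val = j.val + 1 ∨ j.val = i.val + 1 then 1 else 0 := by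
  have : i.val ≠ j.val := fun h => hij (Fin.ext h)
  simp only [rootA, rootV, AddMonoidHom.coe_mk, ZeroHom.coe_mk, Fin.ext_iff, Fin.val_succ,
    Fin.val_castSucc]
  split_ifs <;> omega

lemma root_off {n s : ℕ} (i j : Option (Fin s)) (hij : i ≠ j) :
    (rootA n s i (rootV n s j) = 0 ∧ rootA n s j (rootV n s i) = 0) ∨
      (rootA n s i (rootV n s j) = 1 ∧ rootA n s j (rootV n s i) = 1) := by
  cases i with
  | none =>
    cases j with
    | none => exact absurd rfl hij
    | some j => rw [root_none_some, root_some_none]; split_ifs <;> simp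
  | some i =>
    cases j with
    | none => rw [root_none_some, root_some_none]; split_ifs <;> simp
    | some j =>
      have h : i ≠ j := fun h => hij (by rw [h])
      rw [root_some_some i j h, root_some_some j i h.symm]
      by_cases h1 : i.val = j.val + 1 ∨ j.val = i.val + 1
      · rw [if_pos h1, if_pos h1.symm]; simp
      · rw [if_neg h1, if_neg (fun h => h1 h.symm)]; simp

/-- permuting the points -/
def permC {s : ℕ} (σ : Equiv.Perm (Fin s)) (c : CurveClass s) : CurveClass s :=
  (c.1, fun i => c.2 (σ i))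

lemma refl_some {n s : ℕ} (i : Fin s) (c : CurveClass (s + 1)) :
    refl (rootA n s) (rootV n s) (some i) c = permC (Equiv.swap i.castSucc i.succ) c := by
  have hne : i.castSucc ≠ i.succ := (Fin.castSucc_lt_succ (i := i)).ne
  ext
  · simp [refl, rootV, permC]
  · rename_i k
    simp only [refl, rootA, rootV, permC, AddMonoidHom.coe_mk, ZeroHom.coe_mk, Prod.snd_add,
      Prod.smul_snd, Pi.add_apply, Pi.smul_apply, smul_eq_mul]
    by_cases h1 : k = i.castSucc
    · subst h1; simp [hne]
    · by_cases h2 : k = i.succ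
      · subst h2; simp [hne.symm]
      · simp [h1, h2, Equiv.swap_apply_of_ne_of_ne h1 h2]

lemma refl_none {n s : ℕ} (c : CurveClass (s + 1)) :
    refl (rootA n s) (rootV n s) none c =
      cremona n (Finset.univ.filter (fun i : Fin (s + 1) => i.val ≤ n)) c := by
  ext
  · simp [refl, rootA, rootV, cremona]; ring
  · rename_i k
    simp only [refl, rootA, rootV, cremona, AddMonoidHom.coe_mk, ZeroHom.coe_mk, Prod.snd_add,
      Prod.smul_snd, Pi.add_apply, Pi.smul_apply, smul_eq_mul, Finset.mem_filter, Finset.mem_univ,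
      true_and]
    split_ifs <;> ring

lemma cremona_perm (n : ℕ) {s : ℕ} (Γ Γ₀ : Finset (Fin s)) (σ : Equiv.Perm (Fin s))
    (h : ∀ i, σ i ∈ Γ ↔ i ∈ Γ₀) (c : CurveClass s) :
    cremona n Γ c = permC σ⁻¹ (cremona n Γ₀ (permC σ c)) := by
  have hs : ∑ i ∈ Γ₀, c.2 (σ i) = ∑ i ∈ Γ, c.2 i :=
    Finset.sum_equiv σ (fun i => (h i).symm) (fun _ _ => rfl)
  ext
  · simp [cremona, permC, hs]
  · rename_i k
    have : σ.symm k ∈ Γ₀ ↔ k ∈ Γ := by rw [← h]; simp
    simp [cremona, permC, hs, this]

/-- A dominant class has the least degree in its orbit; so if it has degree `> 1` it is not in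
the orbit of the class of a line. -/
theorem not_line_of_dominant {n s : ℕ} (hn : n ≤ s) (hn1 : 1 ≤ n) (c : CurveClass (s + 1))
    (h0 : ∑ i ∈ Finset.univ.filter (fun i : Fin (s + 1) => i.val ≤ n), c.2 i ≤ c.1)
    (h1 : ∀ i : Fin s, c.2 i.succ ≤ c.2 i.castSucc) (h2 : 1 < c.1) :
    ¬ InWeylLineOrbit n c := by
  rintro ⟨i, j, -, h⟩
  have hc : ∀ i, 0 ≤ rootA n s i c := by
    intro i
    cases i with
    | none => simp only [rootA, AddMonoidHom.coe_mk, ZeroHom.coe_mk]; omega
    | some i => have := h1 i; simp only [rootA, AddMonoidHom.coe_mk, ZeroHom.coe_mk]; omega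
  let S : Set (CurveClass (s + 1)) := {x | ∃ k, Red (rootA n s) (rootV n s) c k x}
  have hS : ∀ x ∈ S, ∀ t, refl (rootA n s) (rootV n s) t x ∈ S := fun x hx t =>
    red_closed (root_diag hn) root_off hc x hx t
  have hP : ∀ σ : Equiv.Perm (Fin (s + 1)), ∀ x ∈ S, permC σ x ∈ S := by
    intro σ
    have hσ : σ ∈ Submonoid.closure
        (Set.range fun i : Fin s => Equiv.swap i.castSucc i.succ) := by
      rw [Equiv.Perm.mclosure_swap_castSucc_succ]; trivial
    induction hσ using Submonoid.closure_induction with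
    | mem τ hτ =>
      obtain ⟨i, rfl⟩ := hτ
      intro x hx
      have := hS x hx (some i)
      rwa [refl_some] at this
    | one => intro x hx; exact hx
    | mul τ ρ _ _ h1 h2 => intro x hx; exact h2 _ (h1 x hx)
  have hC : ∀ Γ : Finset (Fin (s + 1)), Γ.card = n + 1 → ∀ x ∈ S, cremona n Γ x ∈ S := by
    intro Γ hΓ x hx
    set Γ₀ := Finset.univ.filter (fun i : Fin (s + 1) => i.val ≤ n)
    have hc : Γ₀.card = Γ.card := by rw [hΓ, card_base hn]
    obtain ⟨σ, hσ⟩ : ∃ σ : Equiv.Perm (Fin (s + 1)), ∀ i, σ i ∈ Γ ↔ i ∈ Γ₀ := by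
      let e : {x // x ∈ Γ₀} ≃ {x // x ∈ Γ} := Finset.equivOfCardEq hc
      refine ⟨e.extendSubtype, fun i => ⟨fun h => ?_, fun h => e.extendSubtype_mem i h⟩⟩
      by_contra h'
      exact e.extendSubtype_not_mem i h' h
    rw [cremona_perm n Γ Γ₀ σ hσ]
    apply hP
    rw [← refl_none]
    exact hS _ (hP σ x hx) none
  have hl := (orbit_closed n S hC h).2 ⟨0, rfl⟩
  obtain ⟨k, hk⟩ := hl
  have := red_height (a := rootA n s) (v := rootV n s) (AddMonoidHom.fst ℤ _) (by
    intro i
    cases i with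
    | none => simp [rootV]; omega
    | some i => simp [rootV]) k _ hk
  simp at this
  omega

end Pool.Agent.H265Z
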